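import Pool.Agent.MP_f20ab1_al.Heavy

set_option linter.unusedVariables false
set_option linter.unusedSectionVars false

open Equiv Finset
open scoped Pointwise

/-!
Exponential decay in the support of `c`, for a large subset `B'` of `B`.

Sketch (`N0 = ⌊δ n / 2⌋₊`, `θ = N0 ^ (-(1 - δ/4))`, `m = δ / 8`).  By `heavy_count`, averaging over
`a ∉ E`, there are a set `T` of `n - N0` positions and `B' ⊆ B`, `B'.card ≥ (m/2) B.card`, such
that every `x ∈ B'` has at least `(m/2) N0` positions `i ∉ T` with `Heavy B T θ x i`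
(equivalently `i ∈ heavyPos B T θ x (x i)`).  Fix `c`, `s = c.support.card`.  There is
`P0 ⊆ c.support` with `P0` and `c P0` disjoint and `3 * P0.card ≥ s` (a maximal such set).  Choose
`K = min (s/6) (κ' n)` disjoint pairs `p_l, p'_l` in `P0`, put `q_l = c⁻¹ p_l`, `q'_l = c⁻¹ p'_l`; these
`4 K` labels are distinct.  For `σ` call `l` good when `σ p_l, σ p'_l, σ q_l, σ q'_l ∉ T`.
Put `x' = x * (σ * c * σ⁻¹)`.  Replacing `σ` by `σ * swap p_l p'_l` replaces `x'` by
`x' * swap (σ p_l) (σ p'_l) * swap (σ q_l) (σ q'_l)`.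
Weights: `ω_l (σ, x') = 1` when `l` is not good, otherwise `1 + (ξ + ξ' - ζ - ζ') / 4` where
`ξ = [σ p ∈ heavyPos B T θ x' (x' (σ p))]`, `ξ' = [σ p' ∈ heavyPos B T θ x' (x' (σ p'))]`,
`ζ = [σ p ∈ heavyPos B T θ x' (x' (σ p'))]`, `ζ' = [σ p' ∈ heavyPos B T θ x' (x' (σ p))]`.
The flip of `l` (if good) turns `ω_l` into `2 - ω_l` and does not change the other `ω` (nor
goodness), so for every `x`, `∑ σ, ∏ l, ω_l (σ, x σcσ⁻¹) = n!`.
Cauchy-Schwarz: with `S = ∑_{x ∈ B'} #{σ | x σcσ⁻¹ ∈ B'}`,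
`S^2 ≤ (∑_{x ∈ B', σ} ∏ ω) * (∑_{x, σ} [x σcσ⁻¹ ∈ B'] ∏ ω⁻¹) ≤ B'.card * n! * ∑_{x' ∈ B'} ∑ σ, ∏ (ω_l (σ, x'))⁻¹`.
Finally `ω⁻¹ ≤ 1 - (ξ + ξ')/6 + (ζ + ζ')` and, for `x' ∈ B'`, by repeated use of `one_step`
(one label after the other: at each time at most `4 K` labels have been used)
`∑ σ, ∏_{l < K} (ω_l (σ, x'))⁻¹ ≤ (1 - κ'')^K n!`: the event that `l` is good and `ξ = 1` has conditional
probability at least a positive constant depending only on `δ`, while `ζ = 1` has conditional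
probability at most `4 N0^(1 - δ/4) / n` (`card_heavyPos_le`).
-/

namespace Pool.Agent.MP_f20ab1_al

namespace Spread

variable {α : Type*} [Fintype α] [DecidableEq α]

open Classical in
/-- indicator -/
noncomputable def ind (p : Prop) : ℝ := if p then 1 else 0

lemma ind_nonneg (p : Prop) : 0 ≤ ind p := by unfold ind; split_ifs <;> norm_num
lemma ind_le_one (p : Prop) : ind p ≤ 1 := by unfold ind; split_ifs <;> norm_num
lemma ind_true {p : Prop} (h : p) : ind p = 1 := by unfold ind; rw [if_pos h]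
lemma ind_false {p : Prop} (h : ¬ p) : ind p = 0 := by unfold ind; rw [if_neg h]
lemma ind_cases (p : Prop) : ind p = 0 ∨ ind p = 1 := by
  by_cases h : p
  · right; exact ind_true h
  · left; exact ind_false h
lemma ind_congr {p q : Prop} (h : p ↔ q) : ind p = ind q := by rw [propext h]

/-- the weight of a quadruple of labels -/
noncomputable def om (T : Finset α) (H : Perm α → α → Finset α) (a : Fin 4 → α)
    (σ x : Perm α) : ℝ :=
  1 + ind (∀ i, σ (a i) ∉ T) * (ind (σ (a 0) ∈ H x (x (σ (a 0)))) +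
    ind (σ (a 1) ∈ H x (x (σ (a 1)))) - ind (σ (a 0) ∈ H x (x (σ (a 1)))) -
    ind (σ (a 1) ∈ H x (x (σ (a 0))))) / 4

lemma om_ge (T : Finset α) (H : Perm α → α → Finset α) (a : Fin 4 → α) (σ x : Perm α) :
    1 / 2 ≤ om T H a σ x := by
  unfold om
  rcases ind_cases (∀ i, σ (a i) ∉ T) with h0 | h0 <;>
  rcases ind_cases (σ (a 0) ∈ H x (x (σ (a 0)))) with h1 | h1 <;>
  rcases ind_cases (σ (a 1) ∈ H x (x (σ (a 1)))) with h2 | h2 <;>
  rcases ind_cases (σ (a 0) ∈ H x (x (σ (a 1)))) with h3 | h3 <;>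
  rcases ind_cases (σ (a 1) ∈ H x (x (σ (a 0)))) with h4 | h4 <;>
  rw [h0, h1, h2, h3, h4] <;> norm_num

lemma om_inv_le (T : Finset α) (H : Perm α → α → Finset α) (a : Fin 4 → α) (σ x : Perm α) :
    (om T H a σ x)⁻¹ ≤ 1 - ind (∀ i, σ (a i) ∉ T) * ind (σ (a 0) ∈ H x (x (σ (a 0)))) / 6 +
      ind (σ (a 0) ∈ H x (x (σ (a 1)))) + ind (σ (a 1) ∈ H x (x (σ (a 0)))) := by
  unfold om
  rcases ind_cases (∀ i, σ (a i) ∉ T) with h0 | h0 <;>
  rcases ind_cases (σ (a 0) ∈ H x (x (σ (a 0)))) with h1 | h1 <;>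
  rcases ind_cases (σ (a 1) ∈ H x (x (σ (a 1)))) with h2 | h2 <;>
  rcases ind_cases (σ (a 0) ∈ H x (x (σ (a 1)))) with h3 | h3 <;>
  rcases ind_cases (σ (a 1) ∈ H x (x (σ (a 0)))) with h4 | h4 <;>
  rw [h0, h1, h2, h3, h4] <;> norm_num

/-! ### Flips -/

section Flip

variable {K : ℕ} (T : Finset α) (H : Perm α → α → Finset α) (c : Perm α)
  (lab : Fin K → Fin 4 → α)

/-- the flip of the quadruple `l` -/
noncomputable def flip (l : Fin K) (σ : Perm α) : Perm α := by
  classical exact if ∀ i, σ (lab l i) ∉ T then σ * swap (lab l 0) (lab l 1) else σ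

variable {T H c lab}

lemma flip_pos {l : Fin K} {σ : Perm α} (h : ∀ i, σ (lab l i) ∉ T) :
    flip T lab l σ = σ * swap (lab l 0) (lab l 1) := by
  unfold flip; rw [if_pos h]

lemma flip_neg {l : Fin K} {σ : Perm α} (h : ¬ ∀ i, σ (lab l i) ∉ T) :
    flip T lab l σ = σ := by
  unfold flip; rw [if_neg h]

lemma good_mul (hinj : ∀ l l' i j, lab l i = lab l' j → l = l' ∧ i = j) {l k : Fin K}
    {σ : Perm α} : (∀ i, (σ * swap (lab l 0) (lab l 1)) (lab k i) ∉ T) ↔
      (∀ i, σ (lab k i) ∉ T) := by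
  by_cases hkl : k = l
  · subst hkl
    have h2 : swap (lab k 0) (lab k 1) (lab k 2) = lab k 2 := by
      apply swap_apply_of_ne_of_ne
      · intro h; have := (hinj _ _ _ _ h).2; simp at this
      · intro h; have := (hinj _ _ _ _ h).2; simp at this
    have h3 : swap (lab k 0) (lab k 1) (lab k 3) = lab k 3 := by
      apply swap_apply_of_ne_of_ne
      · intro h; have := (hinj _ _ _ _ h).2; simp at this
      · intro h; have := (hinj _ _ _ _ h).2; simp at this
    simp only [Fin.forall_fin_succ, Fin.forall_fin_zero, Perm.mul_apply]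
    simp only [Fin.succ_zero_eq_one, Fin.succ_one_eq_two, swap_apply_left, swap_apply_right]
    have e3 : (Fin.succ (2 : Fin 3) : Fin 4) = 3 := rfl
    rw [h2, e3, h3]
    tauto
  · apply forall_congr'
    intro i
    rw [Perm.mul_apply, swap_apply_of_ne_of_ne]
    · intro h; exact hkl (hinj _ _ _ _ h).1
    · intro h; exact hkl (hinj _ _ _ _ h).1

lemma good_flip (hinj : ∀ l l' i j, lab l i = lab l' j → l = l' ∧ i = j) {l k : Fin K}
    {σ : Perm α} : (∀ i, (flip T lab l σ) (lab k i) ∉ T) ↔ (∀ i, σ (lab k i) ∉ T) := by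
  by_cases h : ∀ i, σ (lab l i) ∉ T
  · rw [flip_pos h]; exact good_mul hinj
  · rw [flip_neg h]

lemma flip_flip (hinj : ∀ l l' i j, lab l i = lab l' j → l = l' ∧ i = j) (l : Fin K)
    (σ : Perm α) : flip T lab l (flip T lab l σ) = σ := by
  by_cases h : ∀ i, σ (lab l i) ∉ T
  · rw [flip_pos ((good_flip hinj).mpr h), flip_pos h, mul_assoc, swap_mul_self, mul_one]
  · rw [flip_neg h, flip_neg h]

/-- effect of a flip on `x σ c σ⁻¹` -/
lemma conj_flip (hc2 : ∀ l, lab l 2 = c⁻¹ (lab l 0)) (hc3 : ∀ l, lab l 3 = c⁻¹ (lab l 1))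
    (x : Perm α) (l : Fin K) (σ : Perm α) (y : α) :
    (x * ((σ * swap (lab l 0) (lab l 1)) * c * (σ * swap (lab l 0) (lab l 1))⁻¹)) y =
      (x * (σ * c * σ⁻¹)) (σ (swap (lab l 2) (lab l 3) (swap (lab l 0) (lab l 1) (σ⁻¹ y)))) := by
  have h1 : swap (lab l 0) (lab l 1) * c = c * swap (lab l 2) (lab l 3) := by
    rw [swap_mul_eq_mul_swap, hc2, hc3]
  have h2 : (σ * swap (lab l 0) (lab l 1)) * c * (σ * swap (lab l 0) (lab l 1))⁻¹ =
      (σ * c * σ⁻¹) * (σ * swap (lab l 2) (lab l 3) * swap (lab l 0) (lab l 1) * σ⁻¹) := by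
    rw [mul_inv_rev, swap_inv, mul_assoc σ, h1]
    group
  rw [h2]
  simp [Perm.mul_apply]

lemma lab_ne (hinj : ∀ l l' i j, lab l i = lab l' j → l = l' ∧ i = j) {l : Fin K} {i j : Fin 4}
    (h : i ≠ j) : lab l i ≠ lab l j := fun h' => h (hinj _ _ _ _ h').2

lemma conj_flip_of_ne (hc2 : ∀ l, lab l 2 = c⁻¹ (lab l 0)) (hc3 : ∀ l, lab l 3 = c⁻¹ (lab l 1))
    (x : Perm α) (l : Fin K) (σ : Perm α) (y : α) (hy : ∀ i, y ≠ σ (lab l i)) :
    (x * ((σ * swap (lab l 0) (lab l 1)) * c * (σ * swap (lab l 0) (lab l 1))⁻¹)) y =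
      (x * (σ * c * σ⁻¹)) y := by
  have hy' : ∀ i, σ⁻¹ y ≠ lab l i := by
    intro i h
    apply hy i
    rw [← h]; simp
  rw [conj_flip hc2 hc3, swap_apply_of_ne_of_ne (hy' 0) (hy' 1),
    swap_apply_of_ne_of_ne (hy' 2) (hy' 3)]
  simp

lemma conj_flip_zero (hinj : ∀ l l' i j, lab l i = lab l' j → l = l' ∧ i = j)
    (hc2 : ∀ l, lab l 2 = c⁻¹ (lab l 0)) (hc3 : ∀ l, lab l 3 = c⁻¹ (lab l 1))
    (x : Perm α) (l : Fin K) (σ : Perm α) :
    (x * ((σ * swap (lab l 0) (lab l 1)) * c * (σ * swap (lab l 0) (lab l 1))⁻¹)) (σ (lab l 0)) =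
      (x * (σ * c * σ⁻¹)) (σ (lab l 1)) := by
  rw [conj_flip hc2 hc3, show σ⁻¹ (σ (lab l 0)) = lab l 0 by simp, swap_apply_left,
    swap_apply_of_ne_of_ne (lab_ne hinj (by decide)) (lab_ne hinj (by decide))]

lemma conj_flip_one (hinj : ∀ l l' i j, lab l i = lab l' j → l = l' ∧ i = j)
    (hc2 : ∀ l, lab l 2 = c⁻¹ (lab l 0)) (hc3 : ∀ l, lab l 3 = c⁻¹ (lab l 1))
    (x : Perm α) (l : Fin K) (σ : Perm α) :
    (x * ((σ * swap (lab l 0) (lab l 1)) * c * (σ * swap (lab l 0) (lab l 1))⁻¹)) (σ (lab l 1)) =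
      (x * (σ * c * σ⁻¹)) (σ (lab l 0)) := by
  rw [conj_flip hc2 hc3, show σ⁻¹ (σ (lab l 1)) = lab l 1 by simp, swap_apply_right,
    swap_apply_of_ne_of_ne (lab_ne hinj (by decide)) (lab_ne hinj (by decide))]

lemma om_flip_self (hH : ∀ x y : Perm α, (∀ i ∈ T, x i = y i) → H x = H y)
    (hinj : ∀ l l' i j, lab l i = lab l' j → l = l' ∧ i = j)
    (hc2 : ∀ l, lab l 2 = c⁻¹ (lab l 0)) (hc3 : ∀ l, lab l 3 = c⁻¹ (lab l 1))
    (x : Perm α) (l : Fin K) (σ : Perm α) :
    om T H (lab l) (flip T lab l σ) (x * ((flip T lab l σ) * c * (flip T lab l σ)⁻¹)) =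
      2 - om T H (lab l) σ (x * (σ * c * σ⁻¹)) := by
  by_cases h : ∀ i, σ (lab l i) ∉ T
  · have h' : ∀ i, (flip T lab l σ) (lab l i) ∉ T := (good_flip hinj).mpr h
    have hHX : H (x * ((flip T lab l σ) * c * (flip T lab l σ)⁻¹)) = H (x * (σ * c * σ⁻¹)) := by
      apply hH
      intro y hy
      rw [flip_pos h]
      exact conj_flip_of_ne hc2 hc3 x l σ y (fun i hi => h i (hi ▸ hy))
    unfold om
    rw [hHX, ind_true h, ind_true h']
    rw [flip_pos h]
    simp only [Perm.mul_apply σ, swap_apply_left, swap_apply_right]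
    have e0 := conj_flip_zero hinj hc2 hc3 x l σ
    have e1 := conj_flip_one hinj hc2 hc3 x l σ
    rw [e0, e1]
    ring
  · unfold om
    rw [flip_neg h, ind_false h]
    ring

lemma om_flip_other (hH : ∀ x y : Perm α, (∀ i ∈ T, x i = y i) → H x = H y)
    (hinj : ∀ l l' i j, lab l i = lab l' j → l = l' ∧ i = j)
    (hc2 : ∀ l, lab l 2 = c⁻¹ (lab l 0)) (hc3 : ∀ l, lab l 3 = c⁻¹ (lab l 1))
    (x : Perm α) {k l : Fin K} (hkl : k ≠ l) (σ : Perm α) :
    om T H (lab k) (flip T lab l σ) (x * ((flip T lab l σ) * c * (flip T lab l σ)⁻¹)) =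
      om T H (lab k) σ (x * (σ * c * σ⁻¹)) := by
  by_cases h : ∀ i, σ (lab l i) ∉ T
  · have hHX : H (x * ((flip T lab l σ) * c * (flip T lab l σ)⁻¹)) = H (x * (σ * c * σ⁻¹)) := by
      apply hH
      intro y hy
      rw [flip_pos h]
      exact conj_flip_of_ne hc2 hc3 x l σ y (fun i hi => h i (hi ▸ hy))
    have e1 : ∀ i, (flip T lab l σ) (lab k i) = σ (lab k i) := by
      intro i
      rw [flip_pos h, Perm.mul_apply, swap_apply_of_ne_of_ne]
      · intro h; exact hkl (hinj _ _ _ _ h).1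
      · intro h; exact hkl (hinj _ _ _ _ h).1
    have e2 : ∀ i, (x * ((flip T lab l σ) * c * (flip T lab l σ)⁻¹)) (σ (lab k i)) =
        (x * (σ * c * σ⁻¹)) (σ (lab k i)) := by
      intro i
      rw [flip_pos h]
      apply conj_flip_of_ne hc2 hc3
      intro j hj
      exact hkl (hinj _ _ _ _ (σ.injective hj)).1
    unfold om
    rw [hHX]
    simp only [e1, e2]
  · rw [flip_neg h]

lemma sum_prod_om (hH : ∀ x y : Perm α, (∀ i ∈ T, x i = y i) → H x = H y)
    (hinj : ∀ l l' i j, lab l i = lab l' j → l = l' ∧ i = j)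
    (hc2 : ∀ l, lab l 2 = c⁻¹ (lab l 0)) (hc3 : ∀ l, lab l 3 = c⁻¹ (lab l 1))
    (x : Perm α) (I : Finset (Fin K)) :
    ∑ σ : Perm α, ∏ l ∈ I, om T H (lab l) σ (x * (σ * c * σ⁻¹)) =
      (Fintype.card α).factorial := by
  classical
  induction I using Finset.induction_on with
  | empty => simp [Fintype.card_perm]
  | insert l I hl ih =>
    have h1 : ∑ σ : Perm α, ∏ k ∈ insert l I, om T H (lab k) σ (x * (σ * c * σ⁻¹)) =
        ∑ σ : Perm α, (2 - om T H (lab l) σ (x * (σ * c * σ⁻¹))) *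
          ∏ k ∈ I, om T H (lab k) σ (x * (σ * c * σ⁻¹)) := by
      symm
      refine Fintype.sum_bijective (flip T lab l)
        (Function.Involutive.bijective (flip_flip hinj l)) _ _ ?_
      intro σ
      rw [prod_insert hl, om_flip_self hH hinj hc2 hc3]
      congr 1
      apply prod_congr rfl
      intro k hk
      rw [om_flip_other hH hinj hc2 hc3 x (by rintro rfl; exact hl hk)]
    have h2 : ∑ σ : Perm α, ∏ k ∈ insert l I, om T H (lab k) σ (x * (σ * c * σ⁻¹)) =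
        ∑ σ : Perm α, om T H (lab l) σ (x * (σ * c * σ⁻¹)) *
          ∏ k ∈ I, om T H (lab k) σ (x * (σ * c * σ⁻¹)) := by
      apply sum_congr rfl
      intro σ _
      rw [prod_insert hl]
    have h3 : ∑ σ : Perm α, (2 - om T H (lab l) σ (x * (σ * c * σ⁻¹))) *
          ∏ k ∈ I, om T H (lab k) σ (x * (σ * c * σ⁻¹)) +
        ∑ σ : Perm α, om T H (lab l) σ (x * (σ * c * σ⁻¹)) *
          ∏ k ∈ I, om T H (lab k) σ (x * (σ * c * σ⁻¹)) =
        2 * (Fintype.card α).factorial := by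
      rw [← sum_add_distrib, ← ih, mul_sum]
      apply sum_congr rfl
      intro σ _
      ring
    rw [← h1, ← h2] at h3
    linarith

end Flip

/-! ### Sequential estimates -/

section Seq

lemma lower {P : Finset α} {p : α} (hp : p ∉ P) {F : Perm α → ℝ} (hF0 : ∀ σ, 0 ≤ F σ)
    (hF : ∀ σ σ' : Perm α, (∀ a ∈ P, σ a = σ' a) → F σ = F σ') (W : Finset α) {c : ℝ}
    (hc : c * Fintype.card α ≤ (W.card : ℝ) - P.card) :
    c * ∑ σ, F σ ≤ ∑ σ, F σ * ind (σ p ∈ W) := by
  classical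
  have h := one_step P p hp (fun σ v => F σ * ind (v ∈ W)) (fun σ σ' hσ v => by
    simp only [hF σ σ' hσ])
  have hn : (0 : ℝ) < Fintype.card α := by
    have : 0 < Fintype.card α := Fintype.card_pos_iff.mpr ⟨p⟩
    exact_mod_cast this
  have hS : 0 ≤ ∑ σ, F σ * ind (σ p ∈ W) :=
    sum_nonneg fun σ _ => mul_nonneg (hF0 σ) (ind_nonneg _)
  have h2 : ∑ σ : Perm α, ((W.card : ℝ) - P.card) * F σ ≤
      ∑ σ : Perm α, ∑ v ∈ univ \ P.image σ, F σ * ind (v ∈ W) := by
    apply sum_le_sum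
    intro σ _
    rw [← mul_sum, mul_comm]
    apply mul_le_mul_of_nonneg_left _ (hF0 σ)
    have h3 : ∑ v ∈ univ \ P.image σ, ind (v ∈ W) = ((W \ P.image σ).card : ℝ) := by
      have h4 : ∑ v ∈ univ \ P.image σ, ind (v ∈ W) = ∑ v ∈ W \ P.image σ, (1 : ℝ) := by
        symm
        rw [← sum_subset (s₁ := W \ P.image σ) (s₂ := univ \ P.image σ)
          (f := fun v => ind (v ∈ W))]
        · apply sum_congr rfl
          intro v hv
          exact (ind_true (mem_sdiff.mp hv).1).symm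
        · exact sdiff_subset_sdiff (subset_univ _) (le_refl _)
        · intro v hv hv'
          apply ind_false
          intro hvW
          exact hv' (mem_sdiff.mpr ⟨hvW, (mem_sdiff.mp hv).2⟩)
      rw [h4]; simp
    rw [h3]
    have h5 : W.card ≤ (W \ P.image σ).card + (P.image σ).card := by
      have := card_le_card (show W ⊆ (W \ P.image σ) ∪ P.image σ by
        rw [sdiff_union_self_eq_union]; exact subset_union_left)
      exact this.trans (card_union_le _ _)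
    have h6 : (P.image σ).card ≤ P.card := card_image_le
    have h7 : (W.card : ℝ) ≤ (W \ P.image σ).card + P.card := by exact_mod_cast (by omega)
    linarith
  rw [← h, ← mul_sum] at h2
  have hF1 : 0 ≤ ∑ σ, F σ := sum_nonneg fun σ _ => hF0 σ
  have h8 : (c * ∑ σ, F σ) * Fintype.card α ≤ (∑ σ, F σ * ind (σ p ∈ W)) * Fintype.card α := by
    calc (c * ∑ σ, F σ) * Fintype.card α = (c * Fintype.card α) * ∑ σ, F σ := by ring
      _ ≤ ((W.card : ℝ) - P.card) * ∑ σ, F σ := mul_le_mul_of_nonneg_right hc hF1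
      _ ≤ ((Fintype.card α : ℝ) - P.card) * ∑ σ, F σ * ind (σ p ∈ W) := h2
      _ ≤ (Fintype.card α : ℝ) * ∑ σ, F σ * ind (σ p ∈ W) := by
          apply mul_le_mul_of_nonneg_right _ hS
          have : (0 : ℝ) ≤ P.card := Nat.cast_nonneg _
          linarith
      _ = _ := by ring
  exact le_of_mul_le_mul_right h8 hn

lemma upper {P : Finset α} {p : α} (hp : p ∉ P) {F : Perm α → ℝ} (hF0 : ∀ σ, 0 ≤ F σ)
    (hF : ∀ σ σ' : Perm α, (∀ a ∈ P, σ a = σ' a) → F σ = F σ') (W : Perm α → Finset α)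
    (hW : ∀ σ σ' : Perm α, (∀ a ∈ P, σ a = σ' a) → W σ = W σ') {h c : ℝ}
    (hWc : ∀ σ, ((W σ).card : ℝ) ≤ h) (hc : h ≤ c * ((Fintype.card α : ℝ) - P.card)) :
    ∑ σ, F σ * ind (σ p ∈ W σ) ≤ c * ∑ σ, F σ := by
  classical
  have h1 := one_step P p hp (fun σ v => F σ * ind (v ∈ W σ)) (fun σ σ' hσ v => by
    simp only [hF σ σ' hσ, hW σ σ' hσ])
  have hn : (0 : ℝ) < (Fintype.card α : ℝ) - P.card := by
    have : P.card < Fintype.card α := by
      rw [← Finset.card_univ]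
      exact card_lt_card (ssubset_univ_iff.mpr (fun h => hp (h ▸ mem_univ p)))
    have : (P.card : ℝ) < Fintype.card α := by exact_mod_cast this
    linarith
  have hF1 : 0 ≤ ∑ σ, F σ := sum_nonneg fun σ _ => hF0 σ
  have h2 : ∑ σ : Perm α, ∑ v ∈ univ \ P.image σ, F σ * ind (v ∈ W σ) ≤
      ∑ σ : Perm α, h * F σ := by
    apply sum_le_sum
    intro σ _
    rw [← mul_sum, mul_comm h]
    apply mul_le_mul_of_nonneg_left _ (hF0 σ)
    refine le_trans ?_ (hWc σ)
    calc ∑ v ∈ univ \ P.image σ, ind (v ∈ W σ) ≤ ∑ v : α, ind (v ∈ W σ) :=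
          sum_le_sum_of_subset_of_nonneg (subset_univ _) (fun _ _ _ => ind_nonneg _)
      _ = ((W σ).card : ℝ) := by
          have : ∑ v : α, ind (v ∈ W σ) = ∑ v ∈ W σ, (1 : ℝ) := by
            symm
            rw [← sum_subset (subset_univ (W σ)) (f := fun v => ind (v ∈ W σ))]
            · apply sum_congr rfl
              intro v hv
              exact (ind_true hv).symm
            · intro v _ hv
              exact ind_false hv
          rw [this]; simp
      _ ≤ _ := le_rfl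
  rw [← h1, ← mul_sum] at h2
  have h3 : ((Fintype.card α : ℝ) - P.card) * ∑ σ, F σ * ind (σ p ∈ W σ) ≤
      ((Fintype.card α : ℝ) - P.card) * (c * ∑ σ, F σ) := by
    calc _ ≤ h * ∑ σ, F σ := h2
      _ ≤ (c * ((Fintype.card α : ℝ) - P.card)) * ∑ σ, F σ := mul_le_mul_of_nonneg_right hc hF1
      _ = _ := by ring
  exact le_of_mul_le_mul_left h3 hn

/-- one quadruple -/
lemma step {T : Finset α} {H : Perm α → α → Finset α} {x : Perm α} {a : Fin 4 → α}
    (ha : Function.Injective a) {P : Finset α} (haP : ∀ i, a i ∉ P) {F : Perm α → ℝ}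
    (hF0 : ∀ σ, 0 ≤ F σ) (hF : ∀ σ σ' : Perm α, (∀ a ∈ P, σ a = σ' a) → F σ = F σ')
    {U : Finset α} (hU : ∀ u ∈ U, u ∉ T ∧ u ∈ H x (x u)) {c₁ c₂ η h : ℝ} (hc₁ : 0 ≤ c₁)
    (hc₂ : 0 ≤ c₂) (h1 : c₁ * Fintype.card α ≤ (U.card : ℝ) - P.card)
    (h2 : c₂ * Fintype.card α ≤ ((univ \ T).card : ℝ) - P.card - 3)
    (hh : ∀ v, ((H x v).card : ℝ) ≤ h) (hη : h ≤ η * ((Fintype.card α : ℝ) - P.card - 1)) :
    ∑ σ, F σ * (om T H a σ x)⁻¹ ≤ (1 - c₁ * c₂ ^ 3 / 6 + 2 * η) * ∑ σ, F σ := by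
  classical
  have ne01 : a 0 ≠ a 1 := fun h => by have := ha h; simp at this
  have ne02 : a 0 ≠ a 2 := fun h => by have := ha h; simp at this
  have ne03 : a 0 ≠ a 3 := fun h => by have := ha h; simp at this
  have ne12 : a 1 ≠ a 2 := fun h => by have := ha h; simp at this
  have ne13 : a 1 ≠ a 3 := fun h => by have := ha h; simp at this
  have ne23 : a 2 ≠ a 3 := fun h => by have := ha h; simp at this
  have hF1 : 0 ≤ ∑ σ, F σ := sum_nonneg fun σ _ => hF0 σ
  -- lower bound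
  have L1 := lower (haP 0) hF0 hF U h1
  set F1 : Perm α → ℝ := fun σ => F σ * ind (σ (a 0) ∈ U) with hF1def
  have F10 : ∀ σ, 0 ≤ F1 σ := fun σ => mul_nonneg (hF0 σ) (ind_nonneg _)
  have F1d : ∀ σ σ' : Perm α, (∀ b ∈ insert (a 0) P, σ b = σ' b) → F1 σ = F1 σ' := by
    intro σ σ' h
    simp only [hF1def]
    rw [hF σ σ' (fun b hb => h b (mem_insert_of_mem hb)), h (a 0) (mem_insert_self _ _)]
  have c1 : (insert (a 0) P).card ≤ P.card + 1 := card_insert_le _ _
  have L2 := lower (p := a 1) (P := insert (a 0) P) (by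
      rw [mem_insert]; push Not; exact ⟨ne01.symm, haP 1⟩) F10 F1d (univ \ T) (c := c₂) (by
      have : ((insert (a 0) P).card : ℝ) ≤ P.card + 1 := by exact_mod_cast c1
      linarith)
  set F2 : Perm α → ℝ := fun σ => F1 σ * ind (σ (a 1) ∈ univ \ T) with hF2def
  have F20 : ∀ σ, 0 ≤ F2 σ := fun σ => mul_nonneg (F10 σ) (ind_nonneg _)
  have F2d : ∀ σ σ' : Perm α, (∀ b ∈ insert (a 1) (insert (a 0) P), σ b = σ' b) →
      F2 σ = F2 σ' := by
    intro σ σ' h
    simp only [hF2def]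
    rw [F1d σ σ' (fun b hb => h b (mem_insert_of_mem hb)), h (a 1) (mem_insert_self _ _)]
  have c2 : (insert (a 1) (insert (a 0) P)).card ≤ P.card + 2 := by
    have := card_insert_le (a 1) (insert (a 0) P); omega
  have L3 := lower (p := a 2) (P := insert (a 1) (insert (a 0) P)) (by
      rw [mem_insert, mem_insert]; push Not; exact ⟨ne12.symm, ne02.symm, haP 2⟩) F20 F2d
      (univ \ T) (c := c₂) (by
      have : ((insert (a 1) (insert (a 0) P)).card : ℝ) ≤ P.card + 2 := by exact_mod_cast c2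
      linarith)
  set F3 : Perm α → ℝ := fun σ => F2 σ * ind (σ (a 2) ∈ univ \ T) with hF3def
  have F30 : ∀ σ, 0 ≤ F3 σ := fun σ => mul_nonneg (F20 σ) (ind_nonneg _)
  have F3d : ∀ σ σ' : Perm α, (∀ b ∈ insert (a 2) (insert (a 1) (insert (a 0) P)), σ b = σ' b) →
      F3 σ = F3 σ' := by
    intro σ σ' h
    simp only [hF3def]
    rw [F2d σ σ' (fun b hb => h b (mem_insert_of_mem hb)), h (a 2) (mem_insert_self _ _)]
  have c3 : (insert (a 2) (insert (a 1) (insert (a 0) P))).card ≤ P.card + 3 := by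
    have := card_insert_le (a 2) (insert (a 1) (insert (a 0) P)); omega
  have L4 := lower (p := a 3) (P := insert (a 2) (insert (a 1) (insert (a 0) P))) (by
      rw [mem_insert, mem_insert, mem_insert]; push Not
      exact ⟨ne23.symm, ne13.symm, ne03.symm, haP 3⟩) F30 F3d
      (univ \ T) (c := c₂) (by
      have : ((insert (a 2) (insert (a 1) (insert (a 0) P))).card : ℝ) ≤ P.card + 3 := by
        exact_mod_cast c3
      linarith)
  have Lall : c₁ * c₂ ^ 3 * ∑ σ, F σ ≤ ∑ σ, F3 σ * ind (σ (a 3) ∈ univ \ T) := by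
    calc c₁ * c₂ ^ 3 * ∑ σ, F σ = c₂ * (c₂ * (c₂ * (c₁ * ∑ σ, F σ))) := by ring
      _ ≤ c₂ * (c₂ * (c₂ * ∑ σ, F1 σ)) := by gcongr
      _ ≤ c₂ * (c₂ * ∑ σ, F2 σ) := by gcongr
      _ ≤ c₂ * ∑ σ, F3 σ := by gcongr
      _ ≤ _ := L4
  have Lgood : c₁ * c₂ ^ 3 * ∑ σ, F σ ≤
      ∑ σ, F σ * (ind (∀ i, σ (a i) ∉ T) * ind (σ (a 0) ∈ H x (x (σ (a 0))))) := by
    refine Lall.trans (sum_le_sum fun σ _ => ?_)
    simp only [hF3def, hF2def, hF1def]
    by_cases g0 : σ (a 0) ∈ U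
    · by_cases g1 : σ (a 1) ∈ univ \ T
      · by_cases g2 : σ (a 2) ∈ univ \ T
        · by_cases g3 : σ (a 3) ∈ univ \ T
          · have hg : ∀ i, σ (a i) ∉ T := by
              intro i
              fin_cases i
              · exact (hU _ g0).1
              · exact (mem_sdiff.mp g1).2
              · exact (mem_sdiff.mp g2).2
              · exact (mem_sdiff.mp g3).2
            rw [ind_true g0, ind_true g1, ind_true g2, ind_true g3, ind_true hg,
              ind_true (hU _ g0).2]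
            simp
          · rw [ind_false g3, mul_zero]
            exact mul_nonneg (hF0 σ) (mul_nonneg (ind_nonneg _) (ind_nonneg _))
        · rw [ind_false g2, mul_zero, zero_mul]
          exact mul_nonneg (hF0 σ) (mul_nonneg (ind_nonneg _) (ind_nonneg _))
      · rw [ind_false g1, mul_zero, zero_mul, zero_mul]
        exact mul_nonneg (hF0 σ) (mul_nonneg (ind_nonneg _) (ind_nonneg _))
    · rw [ind_false g0, mul_zero, zero_mul, zero_mul, zero_mul]
      exact mul_nonneg (hF0 σ) (mul_nonneg (ind_nonneg _) (ind_nonneg _))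
  -- upper bounds
  have U1 := upper (p := a 0) (P := insert (a 1) P) (by
      rw [mem_insert]; push Not; exact ⟨ne01, haP 0⟩) hF0
      (fun σ σ' h => hF σ σ' (fun b hb => h b (mem_insert_of_mem hb)))
      (fun σ => H x (x (σ (a 1)))) (fun σ σ' h => by
        simp only [h (a 1) (mem_insert_self _ _)]) (fun σ => hh _) (c := η) (by
      have c1' : (insert (a 1) P).card = P.card + 1 := card_insert_of_notMem (haP 1)
      rw [c1']; push_cast; linarith)
  have U2 := upper (p := a 1) (P := insert (a 0) P) (by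
      rw [mem_insert]; push Not; exact ⟨ne01.symm, haP 1⟩) hF0
      (fun σ σ' h => hF σ σ' (fun b hb => h b (mem_insert_of_mem hb)))
      (fun σ => H x (x (σ (a 0)))) (fun σ σ' h => by
        simp only [h (a 0) (mem_insert_self _ _)]) (fun σ => hh _) (c := η) (by
      have c1' : (insert (a 0) P).card = P.card + 1 := card_insert_of_notMem (haP 0)
      rw [c1']; push_cast; linarith)
  calc ∑ σ, F σ * (om T H a σ x)⁻¹
      ≤ ∑ σ, (F σ - F σ * (ind (∀ i, σ (a i) ∉ T) * ind (σ (a 0) ∈ H x (x (σ (a 0))))) / 6 +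
        F σ * ind (σ (a 0) ∈ H x (x (σ (a 1)))) + F σ * ind (σ (a 1) ∈ H x (x (σ (a 0))))) := by
        apply sum_le_sum
        intro σ _
        have := mul_le_mul_of_nonneg_left (om_inv_le T H a σ x) (hF0 σ)
        linarith
    _ = ∑ σ, F σ - (∑ σ, F σ * (ind (∀ i, σ (a i) ∉ T) *
          ind (σ (a 0) ∈ H x (x (σ (a 0)))))) / 6 +
        ∑ σ, F σ * ind (σ (a 0) ∈ H x (x (σ (a 1)))) +
        ∑ σ, F σ * ind (σ (a 1) ∈ H x (x (σ (a 0)))) := by
        rw [sum_add_distrib, sum_add_distrib, sum_sub_distrib, sum_div]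
    _ ≤ (1 - c₁ * c₂ ^ 3 / 6 + 2 * η) * ∑ σ, F σ := by linarith

lemma om_pos (T : Finset α) (H : Perm α → α → Finset α) (a : Fin 4 → α) (σ x : Perm α) :
    0 < om T H a σ x := lt_of_lt_of_le (by norm_num) (om_ge T H a σ x)

lemma om_dep (T : Finset α) (H : Perm α → α → Finset α) (a : Fin 4 → α) {σ σ' : Perm α}
    (x : Perm α) (h : ∀ i, σ (a i) = σ' (a i)) : om T H a σ x = om T H a σ' x := by
  unfold om
  simp only [h]

/-- all quadruples -/
lemma seq_prod {K : ℕ} {lab : Fin K → Fin 4 → α}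
    (hinj : ∀ l l' i j, lab l i = lab l' j → l = l' ∧ i = j)
    {T : Finset α} {H : Perm α → α → Finset α} {x : Perm α}
    {U : Finset α} (hU : ∀ u ∈ U, u ∉ T ∧ u ∈ H x (x u)) {c₁ c₂ η h : ℝ} (hc₁ : 0 ≤ c₁)
    (hc₂ : 0 ≤ c₂) (h1 : c₁ * Fintype.card α ≤ (U.card : ℝ) - 4 * K)
    (h2 : c₂ * Fintype.card α ≤ ((univ \ T).card : ℝ) - 4 * K - 3)
    (hh : ∀ v, ((H x v).card : ℝ) ≤ h) (hη0 : 0 ≤ η)
    (hη : h ≤ η * ((Fintype.card α : ℝ) - 4 * K - 1))
    (hq : 0 ≤ 1 - c₁ * c₂ ^ 3 / 6 + 2 * η) (I : Finset (Fin K)) :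
    ∑ σ : Perm α, ∏ l ∈ I, (om T H (lab l) σ x)⁻¹ ≤
      (1 - c₁ * c₂ ^ 3 / 6 + 2 * η) ^ I.card * (Fintype.card α).factorial := by
  classical
  induction I using Finset.induction_on with
  | empty => simp [Fintype.card_perm]
  | insert l I hl ih =>
    set P : Finset α := I.biUnion (fun k => univ.image (lab k)) with hP
    have hPc : P.card ≤ 4 * K := by
      calc P.card ≤ ∑ k ∈ I, (univ.image (lab k)).card := card_biUnion_le
        _ ≤ ∑ k ∈ I, 4 := sum_le_sum fun k _ => by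
            refine card_image_le.trans ?_
            simp
        _ = 4 * I.card := by rw [sum_const, smul_eq_mul, mul_comm]
        _ ≤ 4 * K := by
            have := card_le_univ I
            rw [Fintype.card_fin] at this
            omega
    have hPcR : (P.card : ℝ) ≤ 4 * K := by exact_mod_cast hPc
    have hlab : Function.Injective (lab l) := fun i j hij => (hinj _ _ _ _ hij).2
    have hlP : ∀ i, lab l i ∉ P := by
      intro i hi
      rw [hP, mem_biUnion] at hi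
      obtain ⟨k, hk, hk'⟩ := hi
      obtain ⟨j, _, hj⟩ := mem_image.mp hk'
      have := (hinj _ _ _ _ hj).1
      subst this
      exact hl hk
    have hst := step (T := T) (H := H) (x := x) hlab hlP
      (F := fun σ => ∏ k ∈ I, (om T H (lab k) σ x)⁻¹)
      (fun σ => prod_nonneg fun k _ => inv_nonneg.mpr (om_pos _ _ _ _ _).le)
      (fun σ σ' hσ => by
        apply prod_congr rfl
        intro k hk
        rw [om_dep]
        intro i
        apply hσ
        rw [hP, mem_biUnion]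
        exact ⟨k, hk, mem_image_of_mem _ (mem_univ _)⟩)
      hU hc₁ hc₂ (h1.trans (by linarith)) (h2.trans (by linarith)) hh
      (hη.trans (mul_le_mul_of_nonneg_left (by linarith) hη0))
    calc ∑ σ : Perm α, ∏ k ∈ insert l I, (om T H (lab k) σ x)⁻¹
        = ∑ σ : Perm α, (∏ k ∈ I, (om T H (lab k) σ x)⁻¹) * (om T H (lab l) σ x)⁻¹ := by
          apply sum_congr rfl
          intro σ _
          rw [prod_insert hl, mul_comm]
      _ ≤ (1 - c₁ * c₂ ^ 3 / 6 + 2 * η) * ∑ σ : Perm α, ∏ k ∈ I, (om T H (lab k) σ x)⁻¹ := hst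
      _ ≤ (1 - c₁ * c₂ ^ 3 / 6 + 2 * η) * ((1 - c₁ * c₂ ^ 3 / 6 + 2 * η) ^ I.card *
          (Fintype.card α).factorial) := mul_le_mul_of_nonneg_left ih hq
      _ = _ := by rw [card_insert_of_notMem hl, pow_succ]; ring

end Seq

/-- the Cauchy-Schwarz step -/
lemma stay_sq {K : ℕ} {lab : Fin K → Fin 4 → α} {T : Finset α} {H : Perm α → α → Finset α}
    {c : Perm α} (hH : ∀ x y : Perm α, (∀ i ∈ T, x i = y i) → H x = H y)
    (hinj : ∀ l l' i j, lab l i = lab l' j → l = l' ∧ i = j)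
    (hc2 : ∀ l, lab l 2 = c⁻¹ (lab l 0)) (hc3 : ∀ l, lab l 3 = c⁻¹ (lab l 1))
    (B' : Finset (Perm α)) {q : ℝ}
    (hq : ∀ x ∈ B', ∑ σ : Perm α, ∏ l : Fin K, (om T H (lab l) σ x)⁻¹ ≤
      q ^ K * (Fintype.card α).factorial) :
    (∑ σ : Perm α, (stay B' c σ : ℝ)) ^ 2 ≤
      (B'.card * (Fintype.card α).factorial) ^ 2 * q ^ K := by
  classical
  have e1 : ∑ σ : Perm α, (stay B' c σ : ℝ) =
      ∑ z ∈ (univ : Finset (Perm α)) ×ˢ B', ind (z.2 * (z.1 * c * z.1⁻¹) ∈ B') := by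
    rw [sum_product]
    apply sum_congr rfl
    intro σ _
    unfold stay
    rw [card_filter]
    push_cast
    apply sum_congr rfl
    intro x _
    by_cases h : x * (σ * c * σ⁻¹) ∈ B'
    · rw [if_pos h, ind_true h]
    · rw [if_neg h, ind_false h]
  have hpos : ∀ (σ x : Perm α), 0 ≤ ∏ l : Fin K, (om T H (lab l) σ x)⁻¹ := fun σ x =>
    prod_nonneg fun k _ => inv_nonneg.mpr (om_pos _ _ _ _ _).le
  have e2 := sum_sq_le_sum_mul_sum_of_sq_le_mul ((univ : Finset (Perm α)) ×ˢ B')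
    (r := fun z => ind (z.2 * (z.1 * c * z.1⁻¹) ∈ B'))
    (f := fun z => ∏ l : Fin K, om T H (lab l) z.1 (z.2 * (z.1 * c * z.1⁻¹)))
    (g := fun z => ind (z.2 * (z.1 * c * z.1⁻¹) ∈ B') *
      ∏ l : Fin K, (om T H (lab l) z.1 (z.2 * (z.1 * c * z.1⁻¹)))⁻¹)
    (fun z _ => prod_nonneg fun k _ => (om_pos _ _ _ _ _).le)
    (fun z _ => mul_nonneg (ind_nonneg _) (hpos _ _))
    (fun z _ => by
      have h1 : (∏ l : Fin K, om T H (lab l) z.1 (z.2 * (z.1 * c * z.1⁻¹))) *
          ∏ l : Fin K, (om T H (lab l) z.1 (z.2 * (z.1 * c * z.1⁻¹)))⁻¹ = 1 := by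
        rw [← prod_mul_distrib]
        apply prod_eq_one
        intro l _
        exact mul_inv_cancel₀ (om_pos _ _ _ _ _).ne'
      have h2 : ind (z.2 * (z.1 * c * z.1⁻¹) ∈ B') ^ 2 = ind (z.2 * (z.1 * c * z.1⁻¹) ∈ B') := by
        rcases ind_cases (z.2 * (z.1 * c * z.1⁻¹) ∈ B') with h | h <;> rw [h] <;> norm_num
      refine le_of_eq ?_
      calc ind (z.2 * (z.1 * c * z.1⁻¹) ∈ B') ^ 2
          = ind (z.2 * (z.1 * c * z.1⁻¹) ∈ B') * 1 := by rw [h2, mul_one]
        _ = _ := by rw [← h1]; ring)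
  rw [e1]
  refine e2.trans ?_
  have f1 : ∑ z ∈ (univ : Finset (Perm α)) ×ˢ B',
      ∏ l : Fin K, om T H (lab l) z.1 (z.2 * (z.1 * c * z.1⁻¹)) =
      B'.card * (Fintype.card α).factorial := by
    rw [sum_product_right]
    rw [sum_congr rfl (fun x _ => sum_prod_om hH hinj hc2 hc3 x univ), sum_const, nsmul_eq_mul]
  have f2 : ∑ z ∈ (univ : Finset (Perm α)) ×ˢ B', ind (z.2 * (z.1 * c * z.1⁻¹) ∈ B') *
      ∏ l : Fin K, (om T H (lab l) z.1 (z.2 * (z.1 * c * z.1⁻¹)))⁻¹ ≤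
      B'.card * (q ^ K * (Fintype.card α).factorial) := by
    rw [sum_product]
    calc ∑ σ : Perm α, ∑ x ∈ B', ind (x * (σ * c * σ⁻¹) ∈ B') *
          ∏ l : Fin K, (om T H (lab l) σ (x * (σ * c * σ⁻¹)))⁻¹
        ≤ ∑ σ : Perm α, ∑ y ∈ B', ∏ l : Fin K, (om T H (lab l) σ y)⁻¹ := by
          apply sum_le_sum
          intro σ _
          calc ∑ x ∈ B', ind (x * (σ * c * σ⁻¹) ∈ B') *
                ∏ l : Fin K, (om T H (lab l) σ (x * (σ * c * σ⁻¹)))⁻¹
              = ∑ x ∈ B'.filter (fun x => x * (σ * c * σ⁻¹) ∈ B'),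
                ∏ l : Fin K, (om T H (lab l) σ (x * (σ * c * σ⁻¹)))⁻¹ := by
                rw [sum_filter]
                apply sum_congr rfl
                intro x _
                by_cases h : x * (σ * c * σ⁻¹) ∈ B'
                · rw [if_pos h, ind_true h, one_mul]
                · rw [if_neg h, ind_false h, zero_mul]
            _ = ∑ y ∈ (B'.filter (fun x => x * (σ * c * σ⁻¹) ∈ B')).image
                  (fun x => x * (σ * c * σ⁻¹)), ∏ l : Fin K, (om T H (lab l) σ y)⁻¹ := by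
                rw [sum_image]
                intro a _ b _ hab
                exact mul_right_cancel hab
            _ ≤ ∑ y ∈ B', ∏ l : Fin K, (om T H (lab l) σ y)⁻¹ := by
                apply sum_le_sum_of_subset_of_nonneg
                · intro y hy
                  obtain ⟨x, hx, rfl⟩ := mem_image.mp hy
                  exact (mem_filter.mp hx).2
                · intro y _ _
                  exact hpos _ _
      _ = ∑ y ∈ B', ∑ σ : Perm α, ∏ l : Fin K, (om T H (lab l) σ y)⁻¹ := sum_comm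
      _ ≤ ∑ y ∈ B', q ^ K * (Fintype.card α).factorial := sum_le_sum hq
      _ = _ := by rw [sum_const, nsmul_eq_mul]
  rw [f1]
  calc (B'.card : ℝ) * (Fintype.card α).factorial * _
      ≤ (B'.card : ℝ) * (Fintype.card α).factorial *
        (B'.card * (q ^ K * (Fintype.card α).factorial)) :=
        mul_le_mul_of_nonneg_left f2 (by positivity)
    _ = _ := by ring

/-- choice of the labels -/
lemma exists_lab (c : Perm α) (K : ℕ) (hK : 6 * K ≤ c.support.card) :
    ∃ lab : Fin K → Fin 4 → α, (∀ l l' i j, lab l i = lab l' j → l = l' ∧ i = j) ∧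
      (∀ l, lab l 2 = c⁻¹ (lab l 0)) ∧ (∀ l, lab l 3 = c⁻¹ (lab l 1)) := by
  classical
  obtain ⟨P0, hP0, hmax⟩ := exists_max_image
    (c.support.powerset.filter (fun P => Disjoint P (P.image c))) card
    ⟨∅, by simp⟩
  rw [mem_filter, mem_powerset] at hP0
  obtain ⟨hPs, hPd⟩ := hP0
  have hcov : c.support ⊆ P0 ∪ P0.image c ∪ P0.image ⇑(c⁻¹) := by
    intro y hy
    by_contra hcon
    simp only [mem_union, not_or] at hcon
    obtain ⟨⟨y1, y2⟩, y3⟩ := hcon
    have hyc : c y ≠ y := Perm.mem_support.mp hy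
    have hcy : c y ∉ P0 := by
      intro h
      exact y3 (mem_image.mpr ⟨c y, h, by simp⟩)
    have h1 : insert y P0 ∈ c.support.powerset.filter (fun P => Disjoint P (P.image c)) := by
      rw [mem_filter, mem_powerset]
      refine ⟨insert_subset hy hPs, ?_⟩
      rw [image_insert, disjoint_insert_left, disjoint_insert_right]
      refine ⟨?_, hcy, hPd⟩
      rw [mem_insert]
      push Not
      exact ⟨hyc.symm, y2⟩
    have h2 := hmax _ h1
    rw [card_insert_of_notMem y1] at h2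
    omega
  have hcard : c.support.card ≤ 3 * P0.card := by
    have h1 := card_le_card hcov
    have h2 := card_union_le (P0 ∪ P0.image c) (P0.image ⇑(c⁻¹))
    have h3 := card_union_le P0 (P0.image c)
    have h4 : (P0.image c).card ≤ P0.card := card_image_le
    have h5 : (P0.image ⇑(c⁻¹)).card ≤ P0.card := card_image_le
    omega
  obtain ⟨e⟩ : Nonempty (Fin (2 * K) ↪ P0) := by
    apply Function.Embedding.nonempty_of_card_le
    rw [Fintype.card_fin, Fintype.card_coe]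
    omega
  let f : Fin (2 * K) → α := fun i => (e i : α)
  have hf : ∀ i j, f i = f j → i = j := fun i j h => e.injective (Subtype.ext h)
  have hfP : ∀ i, f i ∈ P0 := fun i => (e i).2
  have hfd : ∀ i j, f i ≠ c⁻¹ (f j) := by
    intro i j h
    have h1 : f j ∈ P0.image c := mem_image.mpr ⟨f i, hfP i, by rw [h]; simp⟩
    exact (disjoint_left.mp hPd) (hfP j) h1
  let a : Fin K → Fin (2 * K) := fun l => ⟨2 * l.1, by omega⟩
  let b : Fin K → Fin (2 * K) := fun l => ⟨2 * l.1 + 1, by omega⟩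
  have haa : ∀ l l', a l = a l' → l = l' := fun l l' h => by
    simp only [a, Fin.mk.injEq] at h
    exact Fin.ext (by omega)
  have hbb : ∀ l l', b l = b l' → l = l' := fun l l' h => by
    simp only [b, Fin.mk.injEq] at h
    exact Fin.ext (by omega)
  have hab : ∀ l l', a l ≠ b l' := fun l l' h => by
    simp only [a, b, Fin.mk.injEq] at h
    omega
  refine ⟨fun l => ![f (a l), f (b l), c⁻¹ (f (a l)), c⁻¹ (f (b l))], ?_, fun l => rfl,
    fun l => rfl⟩
  intro l l' i j h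
  fin_cases i <;> fin_cases j
  · exact ⟨haa _ _ (hf _ _ h), rfl⟩
  · exact absurd (hf _ _ h) (hab _ _)
  · exact absurd h (hfd _ _)
  · exact absurd h (hfd _ _)
  · exact absurd (hf _ _ h).symm (hab _ _)
  · exact ⟨hbb _ _ (hf _ _ h), rfl⟩
  · exact absurd h (hfd _ _)
  · exact absurd h (hfd _ _)
  · exact absurd h.symm (hfd _ _)
  · exact absurd h.symm (hfd _ _)
  · exact ⟨haa _ _ (hf _ _ (c⁻¹.injective h)), rfl⟩
  · exact absurd (hf _ _ (c⁻¹.injective h)) (hab _ _)
  · exact absurd h.symm (hfd _ _)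
  · exact absurd h.symm (hfd _ _)
  · exact absurd (hf _ _ (c⁻¹.injective h)).symm (hab _ _)
  · exact ⟨hbb _ _ (hf _ _ (c⁻¹.injective h)), rfl⟩

open Classical in
/-- the good set of positions and the good subset of `B` -/
lemma exists_T {n : ℕ} (δ : ℝ) (h0 : 0 < δ) {N0 : ℕ} (hN0 : 0 < N0) (hN0n : N0 ≤ n) (θ : ℝ)
    (B : Finset (Perm (Fin n)))
    (hB : ∀ E : Finset (Fin n), E.card = n - N0 → ∀ a, a ∉ E →
      δ / 8 * (n.factorial * B.card) ≤ ∑ σ : Perm (Fin n), ((B.filter (fun x =>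
        Heavy B (E.image σ) θ x (σ a))).card : ℝ)) :
    ∃ T : Finset (Fin n), (univ \ T).card = N0 ∧ ∃ B' ⊆ B, δ / 16 * B.card ≤ B'.card ∧
      ∀ x ∈ B', δ / 16 * N0 ≤ (((univ \ T).filter (fun i => Heavy B T θ x i)).card : ℝ) := by
  obtain ⟨E, -, hE⟩ := exists_subset_card_eq (s := (univ : Finset (Fin n)))
    (show n - N0 ≤ (univ : Finset (Fin n)).card by rw [card_univ, Fintype.card_fin]; omega)
  have hEc : (univ \ E).card = N0 := by
    rw [card_sdiff_of_subset (subset_univ _), card_univ, Fintype.card_fin, hE]; omega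
  have h1 : ∑ σ : Perm (Fin n), δ / 8 * N0 * B.card ≤ ∑ σ : Perm (Fin n), ∑ a ∈ univ \ E,
      ((B.filter (fun x => Heavy B (E.image σ) θ x (σ a))).card : ℝ) := by
    rw [sum_comm, sum_const, card_univ, Fintype.card_perm, Fintype.card_fin, nsmul_eq_mul]
    calc (n.factorial : ℝ) * (δ / 8 * N0 * B.card) =
          ∑ a ∈ univ \ E, δ / 8 * (n.factorial * B.card) := by
          rw [sum_const, hEc, nsmul_eq_mul]; ring
      _ ≤ _ := sum_le_sum fun a ha => hB E hE a (mem_sdiff.mp ha).2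
  obtain ⟨σ, -, hσ⟩ := exists_le_of_sum_le (univ_nonempty) h1
  set T := E.image σ with hT
  have hTc : univ \ T = (univ \ E).image σ := by
    ext v
    simp only [mem_sdiff, mem_univ, true_and, mem_image, not_exists, not_and, hT]
    constructor
    · intro h
      exact ⟨σ⁻¹ v, fun hv => h _ hv (by simp), by simp⟩
    · rintro ⟨a, ha, rfl⟩ b hb hab
      exact ha (σ.injective hab ▸ hb)
  have hTcard : (univ \ T).card = N0 := by
    rw [hTc, card_image_of_injective _ σ.injective, hEc]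
  refine ⟨T, hTcard, B.filter (fun x => δ / 16 * N0 ≤
    (((univ \ T).filter (fun i => Heavy B T θ x i)).card : ℝ)), filter_subset _ _, ?_,
    fun x hx => (mem_filter.mp hx).2⟩
  set B' := B.filter (fun x => δ / 16 * N0 ≤
    (((univ \ T).filter (fun i => Heavy B T θ x i)).card : ℝ)) with hB'
  have h2 : ∑ a ∈ univ \ E, ((B.filter (fun x => Heavy B T θ x (σ a))).card : ℝ) =
      ∑ x ∈ B, (((univ \ T).filter (fun i => Heavy B T θ x i)).card : ℝ) := by
    have h3 : ∑ a ∈ univ \ E, (B.filter (fun x => Heavy B T θ x (σ a))).card =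
        ∑ i ∈ univ \ T, (B.filter (fun x => Heavy B T θ x i)).card := by
      rw [hTc, sum_image (fun a _ b _ h => σ.injective h)]
    have h4 : ∑ i ∈ univ \ T, (B.filter (fun x => Heavy B T θ x i)).card =
        ∑ x ∈ B, ((univ \ T).filter (fun i => Heavy B T θ x i)).card := by
      simp only [card_filter]
      exact sum_comm
    exact_mod_cast h3.trans h4
  rw [h2] at hσ
  have h5 : ∑ x ∈ B, (((univ \ T).filter (fun i => Heavy B T θ x i)).card : ℝ) ≤
      B'.card * N0 + B.card * (δ / 16 * N0) := by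
    rw [← sum_filter_add_sum_filter_not B (fun x => δ / 16 * N0 ≤
      (((univ \ T).filter (fun i => Heavy B T θ x i)).card : ℝ))]
    apply add_le_add
    · rw [← hB', ← nsmul_eq_mul, ← sum_const]
      apply sum_le_sum
      intro x _
      have : ((univ \ T).filter (fun i => Heavy B T θ x i)).card ≤ N0 := by
        rw [← hTcard]; exact card_filter_le _ _
      exact_mod_cast this
    · calc _ ≤ ∑ x ∈ B.filter (fun x => ¬ (δ / 16 * N0 ≤
            (((univ \ T).filter (fun i => Heavy B T θ x i)).card : ℝ))), δ / 16 * N0 :=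
            sum_le_sum fun x hx => (not_le.mp (mem_filter.mp hx).2).le
        _ = (B.filter (fun x => ¬ (δ / 16 * N0 ≤
            (((univ \ T).filter (fun i => Heavy B T θ x i)).card : ℝ)))).card *
            (δ / 16 * N0) := by rw [sum_const, nsmul_eq_mul]
        _ ≤ B.card * (δ / 16 * N0) := by
            apply mul_le_mul_of_nonneg_right _ (by positivity)
            exact_mod_cast card_filter_le _ _
  have hN0R : (0 : ℝ) < N0 := by exact_mod_cast hN0
  have h6 : (δ / 16 * B.card) * N0 ≤ B'.card * N0 := by linarith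
  exact le_of_mul_le_mul_right h6 hN0R

lemma heavyPos_congr {B : Finset (Perm α)} {T : Finset α} {θ : ℝ} {x y : Perm α}
    (h : ∀ i ∈ T, x i = y i) : heavyPos B T θ x = heavyPos B T θ y := by
  funext v
  have h1 : cnt B T x = cnt B T y := by
    unfold cnt
    congr 1
    apply filter_congr
    intro z _
    constructor
    · intro hz i hi; rw [hz i hi, h i hi]
    · intro hz i hi; rw [hz i hi, h i hi]
  have h2 : ∀ i, cntv B T x i v = cntv B T y i v := by
    intro i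
    unfold cntv
    congr 1
    apply filter_congr
    intro z _
    constructor
    · rintro ⟨hz, hz'⟩; exact ⟨fun i hi => by rw [hz i hi, h i hi], hz'⟩
    · rintro ⟨hz, hz'⟩; exact ⟨fun i hi => by rw [hz i hi, h i hi], hz'⟩
  unfold heavyPos
  apply filter_congr
  intro i _
  rw [h1, h2]

lemma cnt_pos_of_mem {B : Finset (Perm α)} {T : Finset α} {x : Perm α} (hx : x ∈ B) :
    0 < cnt B T x := card_pos.mpr ⟨x, mem_filter.mpr ⟨hx, fun _ _ => rfl⟩⟩

lemma mem_heavyPos_self {B : Finset (Perm α)} {T : Finset α} {θ : ℝ} {x : Perm α} {i : α}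
    (hi : i ∉ T) (h : Heavy B T θ x i) : i ∈ heavyPos B T θ x (x i) := by
  classical
  unfold heavyPos
  rw [mem_filter]
  refine ⟨mem_sdiff.mpr ⟨mem_univ _, hi⟩, ?_⟩
  have h1 : cntv B T x i (x i) = cnt B (insert i T) x := by
    unfold cntv cnt
    congr 1
    apply filter_congr
    intro z _
    constructor
    · rintro ⟨h1, h2⟩ j hj
      rcases mem_insert.mp hj with rfl | hj
      · exact h2
      · exact h1 j hj
    · intro h
      exact ⟨fun j hj => h j (mem_insert_of_mem hj), h i (mem_insert_self _ _)⟩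
  rw [h1]
  exact h

end Spread

open Spread in
theorem exists_spread (δ : ℝ) (h0 : 0 < δ) (h1 : δ ≤ 1 / 2) : ∃ κ : ℝ, 0 < κ ∧ ∃ n1 : ℕ,
    ∀ n : ℕ, n1 ≤ n →
    ∀ B : Finset (Perm (Fin n)), B.Nonempty → (B.card : ℝ) ≤ (n.factorial : ℝ) ^ (1 - δ) →
    ∃ B' ⊆ B, κ * B.card ≤ B'.card ∧ ∀ c : Perm (Fin n),
      ∑ σ : Perm (Fin n), (stay B' c σ : ℝ) ≤
        B'.card * n.factorial * (κ⁻¹ * Real.exp (-κ * c.support.card)) := by
  classical
  obtain ⟨n2, hn2⟩ := heavy_count δ h0 h1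
  set c₁ : ℝ := δ ^ 2 / 128 with hc₁
  set c₂ : ℝ := δ / 8 with hc₂
  set κ₂ : ℝ := c₁ * c₂ ^ 3 / 12 with hκ₂
  set η : ℝ := c₁ * c₂ ^ 3 / 24 with hη
  set κ' : ℝ := δ ^ 2 / 512 with hκ'
  have hc₁0 : 0 < c₁ := by positivity
  have hc₂0 : 0 < c₂ := by positivity
  have hκ₂0 : 0 < κ₂ := by positivity
  have hη0 : 0 < η := by positivity
  have hκ'0 : 0 < κ' := by positivity
  have hδ2 : δ ^ 2 ≤ 1 / 4 := by nlinarith
  have hδ2' : δ ^ 2 ≤ δ / 2 := by nlinarith
  have hc₁1 : c₁ ≤ 1 := by rw [hc₁]; linarith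
  have hc₂1 : c₂ ≤ 1 := by rw [hc₂]; linarith
  have hcc : c₁ * c₂ ^ 3 ≤ 1 := by
    have : c₂ ^ 3 ≤ 1 := pow_le_one₀ hc₂0.le hc₂1
    calc c₁ * c₂ ^ 3 ≤ 1 * 1 := by gcongr
      _ = 1 := one_mul 1
  have hκ₂1 : κ₂ ≤ 1 / 12 := by rw [hκ₂]; linarith
  set q : ℝ := 1 - c₁ * c₂ ^ 3 / 6 + 2 * η with hq
  have hqeq : q = 1 - κ₂ := by rw [hq, hη, hκ₂]; ring
  have hq0 : 0 ≤ q := by rw [hqeq]; linarith
  have hqexp : q ≤ Real.exp (-κ₂) := by
    rw [hqeq]
    have := Real.add_one_le_exp (-κ₂)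
    linarith
  refine ⟨min (δ / 16) (min (κ₂ * κ' / 2) (Real.exp (-(κ₂ / 2)))), by positivity, ?_⟩
  set κ := min (δ / 16) (min (κ₂ * κ' / 2) (Real.exp (-(κ₂ / 2)))) with hκ
  have hκ0 : 0 < κ := by positivity
  have hκa : κ ≤ δ / 16 := min_le_left _ _
  have hκb : κ ≤ κ₂ * κ' / 2 := (min_le_right _ _).trans (min_le_left _ _)
  have hκc : κ ≤ Real.exp (-(κ₂ / 2)) := (min_le_right _ _).trans (min_le_right _ _)
  refine ⟨max n2 (⌈64 / δ⌉₊ + ⌈(2 / η) ^ (4 / δ)⌉₊ + 1), ?_⟩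
  intro n hn B hBne hBc
  have hnn2 : n2 ≤ n := (le_max_left _ _).trans hn
  have hnr : ⌈64 / δ⌉₊ + ⌈(2 / η) ^ (4 / δ)⌉₊ + 1 ≤ n := (le_max_right _ _).trans hn
  have hn64 : 64 / δ ≤ n := by
    have h3 : (⌈64 / δ⌉₊ : ℝ) ≤ n := by exact_mod_cast (by omega : ⌈64 / δ⌉₊ ≤ n)
    exact (Nat.le_ceil _).trans h3
  have hnη : (2 / η) ^ (4 / δ) ≤ n := by
    have h3 : (⌈(2 / η) ^ (4 / δ)⌉₊ : ℝ) ≤ n := by
      exact_mod_cast (by omega : ⌈(2 / η) ^ (4 / δ)⌉₊ ≤ n)
    exact (Nat.le_ceil _).trans h3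
  have hn1 : (1 : ℝ) ≤ n := by exact_mod_cast (by omega : 1 ≤ n)
  have hn0 : (0 : ℝ) < n := by linarith
  have hδn : 64 ≤ δ * n := by
    rw [div_le_iff₀ h0] at hn64; linarith
  set N0 := ⌊δ * n / 2⌋₊ with hN0
  have hN0a : (N0 : ℝ) ≤ δ * n / 2 := Nat.floor_le (by positivity)
  have hN0b : δ * n / 2 < N0 + 1 := Nat.lt_floor_add_one _
  have hN0c : δ * n / 4 ≤ N0 := by linarith
  have hN0pos : (0 : ℝ) < N0 := by linarith
  have hN0pos' : 0 < N0 := by exact_mod_cast hN0pos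
  have hN0n : (N0 : ℝ) ≤ n := by nlinarith
  have hN0n' : N0 ≤ n := by exact_mod_cast hN0n
  set θ : ℝ := (N0 : ℝ) ^ (-(1 - δ / 4)) with hθ
  have hθ0 : 0 < θ := by positivity
  obtain ⟨T, hT, B', hB'B, hB'c, hB'h⟩ := exists_T δ h0 hN0pos' hN0n' θ B
    (fun E hE a ha => hn2 n hnn2 B hBne hBc E hE a ha)
  refine ⟨B', hB'B, ?_, ?_⟩
  · calc κ * B.card ≤ δ / 16 * B.card := by gcongr
      _ ≤ B'.card := hB'c
  intro c
  set s := c.support.card with hs
  have hsn : s ≤ n := by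
    have := card_le_univ c.support
    rwa [Fintype.card_fin] at this
  set K : ℕ := min (s / 6) ⌊κ' * n⌋₊ with hK
  have hKs : 6 * K ≤ s := by
    have : K ≤ s / 6 := min_le_left _ _
    omega
  have hKn : (K : ℝ) ≤ κ' * n := by
    have h3 : K ≤ ⌊κ' * n⌋₊ := min_le_right _ _
    have h4 : (K : ℝ) ≤ ⌊κ' * n⌋₊ := by exact_mod_cast h3
    exact h4.trans (Nat.floor_le (by positivity))
  have hKlow : κ' * s - 1 ≤ K := by
    have hsn' : (s : ℝ) ≤ n := by exact_mod_cast hsn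
    have hs0 : (0 : ℝ) ≤ s := Nat.cast_nonneg _
    rcases min_choice (s / 6) ⌊κ' * n⌋₊ with h | h
    · rw [hK, h]
      have h3 : s < 6 * (s / 6) + 6 := by omega
      have h4 : (s : ℝ) < 6 * ((s / 6 : ℕ) : ℝ) + 6 := by exact_mod_cast h3
      have h5 : κ' ≤ 1 / 6 := by rw [hκ']; linarith
      nlinarith
    · rw [hK, h]
      have h3 : κ' * n < ⌊κ' * n⌋₊ + 1 := Nat.lt_floor_add_one _
      nlinarith
  obtain ⟨lab, hinj, hl2, hl3⟩ := exists_lab c K hKs
  have hδK : 4 * (K : ℝ) ≤ δ ^ 2 / 128 * n := by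
    rw [hκ'] at hKn; linarith
  have hbound : ∀ x ∈ B', ∑ σ : Perm (Fin n), ∏ l : Fin K,
      (om T (heavyPos B T θ) (lab l) σ x)⁻¹ ≤ q ^ K * (Fintype.card (Fin n)).factorial := by
    intro x hx
    have hxB : x ∈ B := hB'B hx
    have hcnt : 0 < cnt B T x := cnt_pos_of_mem hxB
    have := seq_prod (x := x) (T := T) (H := heavyPos B T θ) hinj
      (U := (univ \ T).filter (fun i => Heavy B T θ x i))
      (fun u hu => by
        rw [mem_filter, mem_sdiff] at hu
        exact ⟨hu.1.2, mem_heavyPos_self hu.1.2 hu.2⟩)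
      (c₁ := c₁) (c₂ := c₂) (η := η) (h := θ⁻¹) hc₁0.le hc₂0.le
      (by
        have h3 := hB'h x hx
        rw [Fintype.card_fin, hc₁]
        have h4 : δ / 16 * (δ * n / 4) ≤ δ / 16 * N0 := by gcongr
        nlinarith)
      (by
        rw [Fintype.card_fin, hT, hc₂]
        have h4 : δ ^ 2 / 128 * n ≤ δ * n / 256 := by
          have : δ ^ 2 * n ≤ δ / 2 * n := by gcongr
          linarith
        linarith)
      (fun v => card_heavyPos_le B T θ hθ0 x hcnt v) hη0.le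
      (by
        rw [Fintype.card_fin]
        have h3 : θ⁻¹ = (N0 : ℝ) ^ (1 - δ / 4) := by
          rw [hθ, Real.rpow_neg hN0pos.le, inv_inv]
        have h4 : (N0 : ℝ) ^ (1 - δ / 4) ≤ (n : ℝ) ^ (1 - δ / 4) :=
          Real.rpow_le_rpow hN0pos.le hN0n (by linarith)
        have h5 : (n : ℝ) ^ (1 - δ / 4) = n / (n : ℝ) ^ (δ / 4) := by
          rw [Real.rpow_sub hn0, Real.rpow_one]
        have h6 : 2 / η ≤ (n : ℝ) ^ (δ / 4) := by
          calc 2 / η = ((2 / η) ^ (4 / δ)) ^ (δ / 4) := by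
                rw [← Real.rpow_mul (by positivity)]
                have : 4 / δ * (δ / 4) = 1 := by field_simp
                rw [this, Real.rpow_one]
            _ ≤ (n : ℝ) ^ (δ / 4) := Real.rpow_le_rpow (by positivity) hnη (by positivity)
        have h7 : (n : ℝ) / (n : ℝ) ^ (δ / 4) ≤ η * (n / 2) := by
          have h8 : (0 : ℝ) < (n : ℝ) ^ (δ / 4) := by positivity
          rw [div_le_iff₀ h8]
          rw [div_le_iff₀ hη0] at h6
          nlinarith
        rw [h3]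
        refine h4.trans (h5.le.trans (h7.trans ?_))
        apply mul_le_mul_of_nonneg_left _ hη0.le
        nlinarith)
      hq0 univ
    rw [card_univ, Fintype.card_fin] at this
    exact this
  have hsq := stay_sq (H := heavyPos B T θ) (T := T) (fun x y h => heavyPos_congr h) hinj hl2 hl3
    B' (q := q) hbound
  rw [Fintype.card_fin] at hsq
  set S := ∑ σ : Perm (Fin n), (stay B' c σ : ℝ) with hS
  have hS0 : 0 ≤ S := sum_nonneg fun _ _ => Nat.cast_nonneg _
  set A : ℝ := B'.card * n.factorial with hA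
  have hA0 : 0 ≤ A := by positivity
  have hqK : q ^ K ≤ Real.exp (-(κ₂ * K / 2)) ^ 2 := by
    calc q ^ K ≤ Real.exp (-κ₂) ^ K := pow_le_pow_left₀ hq0 hqexp _
      _ = Real.exp (-(κ₂ * K / 2)) ^ 2 := by
          rw [← Real.exp_nat_mul, ← Real.exp_nat_mul]
          congr 1
          push_cast
          ring
  have hSle : S ≤ A * Real.exp (-(κ₂ * K / 2)) := by
    have h3 : S ^ 2 ≤ (A * Real.exp (-(κ₂ * K / 2))) ^ 2 := by
      calc S ^ 2 ≤ A ^ 2 * q ^ K := hsq
        _ ≤ A ^ 2 * Real.exp (-(κ₂ * K / 2)) ^ 2 := by gcongr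
        _ = _ := by ring
    exact (pow_le_pow_iff_left₀ hS0 (by positivity) (by norm_num)).mp h3
  refine hSle.trans ?_
  apply mul_le_mul_of_nonneg_left _ hA0
  have h3 : Real.exp (-(κ₂ * K / 2)) ≤ Real.exp (κ₂ / 2) * Real.exp (-κ * s) := by
    rw [← Real.exp_add]
    apply Real.exp_le_exp.mpr
    have hs0 : (0 : ℝ) ≤ s := Nat.cast_nonneg _
    have h4 : κ * s ≤ κ₂ * κ' / 2 * s := by gcongr
    nlinarith
  refine h3.trans ?_
  apply mul_le_mul_of_nonneg_right _ (Real.exp_pos _).le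
  rw [le_inv_comm₀ (Real.exp_pos _) hκ0, ← Real.exp_neg]
  exact hκc

end Pool.Agent.MP_f20ab1_al
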