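import Pool.Agent.MP_f20ab1_al.SmallSupport
import Pool.Agent.MP_f20ab1_al.Spread

set_option linter.unusedVariables false
set_option linter.unusedSectionVars false

open Equiv Finset
open scoped Pointwise

/-!
Growth when `C' ≤ log A.card ≤ C n`.

Sketch.  `M = log A.card`, `r = ρ M` with `ρ = ρ(δ, C)` small.  Suppose first that some `a ∈ A` has
at least `A.card ^ (1/2)` elements `a' ∈ A` with `(a' * a⁻¹).support.card ≤ r`.  Let
`F = {a' * a⁻¹}` for these.  For a set `D0` of `N0 = ⌊δ n / 2⌋₊` labels and `c ∈ F`, the number of `σ`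
with `c.support ⊆ σ D0` is at least `n! * ((N0 - r) / n) ^ r` (repeated use of `one_step`, `r` is at
most `δ n / 8`), so some `D = σ D0` has at least `F.card * (δ/4)^(ρ M) ≥ A.card ^ (1/4)` elements
`c ∈ F` with support in `D`; apply `small_support` to these and translate back.
Otherwise every `a ∈ A` has less than `A.card ^ (1/2)` elements `a'` with
`(a' * a⁻¹).support.card ≤ r`; take `B'` from `exists_spread` and use `energy` with `Bs σ = B'` and
`S = {σ | sign σ = 1}`: the sum over `σ, y, y'` of `stay` is at most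
`n! B'.card A.card^2 (A.card^(-1/2) + κ⁻¹ exp (-κ ρ M))`; `C'` is chosen so that the constants do not
matter.
-/

namespace Pool.Agent.MP_f20ab1_al

namespace Medium

section Count

variable {α : Type*} [Fintype α] [DecidableEq α]

/-- number of permutations mapping `S` into `D0` -/
def into (D0 S : Finset α) : ℕ := (univ.filter (fun τ : Perm α => ∀ j ∈ S, τ j ∈ D0)).card

lemma into_step (D0 P : Finset α) (p : α) (hp : p ∉ P) :
    ((Fintype.card α : ℝ) - P.card) * into D0 (insert p P) =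
      ((D0.card : ℝ) - P.card) * into D0 P := by
  have h := one_step P p hp (fun τ v => if (∀ j ∈ P, τ j ∈ D0) ∧ v ∈ D0 then (1 : ℝ) else 0) (by
    intro σ σ' hσ v
    have : (∀ j ∈ P, σ j ∈ D0) ↔ (∀ j ∈ P, σ' j ∈ D0) :=
      forall₂_congr fun j hj => by rw [hσ j hj]
    simp only [this])
  have h1 : (∑ τ : Perm α, if (∀ j ∈ P, τ j ∈ D0) ∧ τ p ∈ D0 then (1 : ℝ) else 0) =
      into D0 (insert p P) := by
    rw [sum_boole, into]
    congr 2
    ext τ
    simp only [mem_filter, mem_univ, true_and, mem_insert, forall_eq_or_imp]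
    tauto
  have h2 : ∀ τ : Perm α, (∑ v ∈ univ \ P.image τ,
      if (∀ j ∈ P, τ j ∈ D0) ∧ v ∈ D0 then (1 : ℝ) else 0) =
      if (∀ j ∈ P, τ j ∈ D0) then ((D0.card : ℝ) - P.card) else 0 := by
    intro τ
    split_ifs with hτ
    · rw [sum_boole]
      have h3 : (univ \ P.image τ).filter (fun v => (∀ j ∈ P, τ j ∈ D0) ∧ v ∈ D0) =
          D0 \ P.image τ := by
        ext v; simp only [mem_filter, mem_sdiff, mem_univ, true_and]; tauto
      have h4 : P.image τ ⊆ D0 := by
        intro v hv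
        obtain ⟨j, hj, rfl⟩ := mem_image.1 hv
        exact hτ j hj
      rw [h3, card_sdiff_of_subset h4, Nat.cast_sub (card_le_card h4),
        card_image_of_injective _ τ.injective]
    · simp [hτ]
  rw [h1] at h
  rw [h, sum_congr rfl (fun τ _ => h2 τ), ← sum_filter, sum_const, nsmul_eq_mul, into, mul_comm]

lemma into_ge (D0 : Finset α) (s : ℕ) (hs : s ≤ D0.card) :
    ∀ S : Finset α, S.card ≤ s →
      (((D0.card : ℝ) - s) / Fintype.card α) ^ S.card * (Fintype.card α).factorial ≤ into D0 S := by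
  intro S
  induction S using Finset.induction_on with
  | empty =>
    intro _
    rw [into]
    simp [Fintype.card_perm]
  | insert p P hp ih =>
    intro hcard
    rw [card_insert_of_notMem hp] at hcard ⊢
    have ih' := ih (by omega)
    have hstep := into_step D0 P p hp
    have hn : (0 : ℝ) < Fintype.card α := by
      have : 0 < Fintype.card α := Fintype.card_pos_iff.mpr ⟨p⟩
      exact_mod_cast this
    have hs' : (s : ℝ) ≤ D0.card := by exact_mod_cast hs
    have hP : ((P.card : ℝ)) + 1 ≤ s := by exact_mod_cast hcard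
    have h0 : (0 : ℝ) ≤ ((D0.card : ℝ) - s) / Fintype.card α := div_nonneg (by linarith) hn.le
    have h1 : (0 : ℝ) ≤ into D0 (insert p P) := by positivity
    have h2 : (0 : ℝ) ≤ into D0 P := by positivity
    have h3 : ((D0.card : ℝ) - s) * into D0 P ≤ Fintype.card α * into D0 (insert p P) := by
      have hPn : (0 : ℝ) ≤ P.card := by positivity
      nlinarith
    rw [pow_succ']
    calc ((D0.card : ℝ) - s) / Fintype.card α * (((D0.card : ℝ) - s) / Fintype.card α) ^ P.card *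
          (Fintype.card α).factorial
        = ((D0.card : ℝ) - s) / Fintype.card α *
          ((((D0.card : ℝ) - s) / Fintype.card α) ^ P.card * (Fintype.card α).factorial) := by ring
      _ ≤ ((D0.card : ℝ) - s) / Fintype.card α * into D0 P := mul_le_mul_of_nonneg_left ih' h0
      _ = ((D0.card : ℝ) - s) * into D0 P / Fintype.card α := by ring
      _ ≤ into D0 (insert p P) := by
        rw [div_le_iff₀ hn]
        linarith

/-- Averaging over `σ`: some image of `D0` contains the supports of many elements of `F`. -/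
lemma exists_image (D0 : Finset α) (F : Finset (Perm α)) (q : ℝ) (hq : ∀ c ∈ F,
    q * (Fintype.card α).factorial ≤ into D0 c.support) :
    ∃ σ : Perm α, q * F.card ≤ (F.filter (fun c => c.support ⊆ D0.image σ)).card := by
  by_contra hcon
  push Not at hcon
  have h1 : ∑ σ : Perm α, ((F.filter (fun c => c.support ⊆ D0.image σ)).card : ℝ) =
      ∑ c ∈ F, (into D0 c.support : ℝ) := by
    have : ∀ σ : Perm α, ((F.filter (fun c => c.support ⊆ D0.image σ)).card : ℝ) =
        ∑ c ∈ F, if c.support ⊆ D0.image σ then (1 : ℝ) else 0 := fun σ => by rw [sum_boole]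
    rw [sum_congr rfl fun σ _ => this σ, sum_comm]
    refine sum_congr rfl fun c _ => ?_
    rw [sum_boole, into]
    congr 1
    refine card_bij (fun σ _ => σ⁻¹) ?_ ?_ ?_
    · intro σ hσ
      simp only [mem_filter, mem_univ, true_and] at hσ ⊢
      intro j hj
      obtain ⟨i, hi, rfl⟩ := mem_image.1 (hσ hj)
      simpa using hi
    · intro σ _ σ' _ h
      exact inv_injective h
    · intro τ hτ
      simp only [mem_filter, mem_univ, true_and] at hτ
      refine ⟨τ⁻¹, ?_, inv_inv τ⟩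
      simp only [mem_filter, mem_univ, true_and]
      intro j hj
      exact mem_image.2 ⟨τ j, hτ j hj, by simp⟩
  have h2 : ∑ σ : Perm α, ((F.filter (fun c => c.support ⊆ D0.image σ)).card : ℝ) <
      ∑ σ : Perm α, q * F.card :=
    sum_lt_sum_of_nonempty ⟨1, mem_univ _⟩ fun σ _ => hcon σ
  have h3 : ∑ c ∈ F, q * (Fintype.card α).factorial ≤ ∑ c ∈ F, (into D0 c.support : ℝ) :=
    sum_le_sum hq
  rw [sum_const, nsmul_eq_mul] at h3
  rw [h1, sum_const, card_univ, Fintype.card_perm, nsmul_eq_mul] at h2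
  linarith

end Count

/-- The first case: many elements of `A` are close to one of them. -/
theorem close_case (δ : ℝ) (h0 : 0 < δ) (h1 : δ ≤ 1 / 2) (ρ : ℝ) (hρ : 0 < ρ)
    (hρ2 : ρ * Real.log (4 / δ) ≤ 1 / 4) : ∃ ε : ℝ, 0 < ε ∧
    ∃ n1 : ℕ, ∀ n : ℕ, n1 ≤ n →
    ∀ B : Finset (Perm (Fin n)), B.Nonempty → (B.card : ℝ) ≤ (n.factorial : ℝ) ^ (1 - δ) →
    ∀ A : Finset (Perm (Fin n)), A.Nonempty → ρ * Real.log A.card ≤ δ * n / 8 →
    ∀ a : Perm (Fin n), (A.card : ℝ) ^ (1 / 2 : ℝ) ≤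
      (A.filter (fun a' => ((a' * a⁻¹).support.card : ℝ) ≤ ρ * Real.log A.card)).card →
    ∃ σ : Perm (Fin n), Perm.sign σ = 1 ∧
      (B.card : ℝ) * (A.card : ℝ) ^ ε ≤ ((B * A.image (fun y => σ * y * σ⁻¹)).card : ℝ) := by
  obtain ⟨ε₁, hε₁, n₁, hss⟩ := small_support δ h0 h1
  refine ⟨ε₁ / 4, by positivity, max n₁ ⌈8 / δ⌉₊, fun n hn B hBne hB A hA hr a ha => ?_⟩
  have hn1 : n₁ ≤ n := (le_max_left _ _).trans hn
  have hn2 : 8 / δ ≤ n := (Nat.le_ceil _).trans (by exact_mod_cast (le_max_right _ _).trans hn)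
  have hn8 : 8 ≤ δ * n := by
    rw [div_le_iff₀ h0] at hn2
    linarith
  have hnpos : (0 : ℝ) < n := by
    by_contra hcon
    push Not at hcon
    nlinarith
  set M : ℝ := Real.log A.card with hM
  have hApos : (0 : ℝ) < A.card := by exact_mod_cast hA.card_pos
  have hA1 : (1 : ℝ) ≤ A.card := by exact_mod_cast hA.card_pos
  have hM0 : 0 ≤ M := Real.log_nonneg hA1
  set A₁ := A.filter (fun a' => ((a' * a⁻¹).support.card : ℝ) ≤ ρ * M) with hA₁
  set F := A₁.image (fun a' => a' * a⁻¹) with hF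
  have hFcard : F.card = A₁.card := card_image_of_injective _ (fun x y h => by simpa using h)
  set N0 := ⌊δ * n / 2⌋₊ with hN0
  have hN0le : (N0 : ℝ) ≤ δ * n / 2 := Nat.floor_le (by positivity)
  have hN0ge : δ * n / 2 - 1 < N0 := Nat.sub_one_lt_floor _
  have hN0n : N0 ≤ n := by
    have : (N0 : ℝ) ≤ n := by nlinarith
    exact_mod_cast this
  obtain ⟨D0, hD0sub, hD0⟩ := exists_subset_card_eq (s := (univ : Finset (Fin n))) (n := N0)
    (by simpa using hN0n)
  set s : ℕ := ⌊ρ * M⌋₊ with hs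
  have hrM : 0 ≤ ρ * M := by positivity
  have hsle : (s : ℝ) ≤ ρ * M := Nat.floor_le hrM
  have hsN : s ≤ D0.card := by
    rw [hD0]
    have : (s : ℝ) < N0 := by linarith
    exact_mod_cast this.le
  set q : ℝ := (δ / 4) ^ (ρ * M) with hq
  have hδ4 : 0 < δ / 4 := by positivity
  have hδ41 : δ / 4 ≤ 1 := by linarith
  obtain ⟨σ₀, hσ₀⟩ := exists_image D0 F q (by
    intro c hc
    obtain ⟨a', ha', rfl⟩ := mem_image.1 hc
    have hc' : ((a' * a⁻¹).support.card : ℝ) ≤ ρ * M := (mem_filter.1 ha').2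
    have hcs : (a' * a⁻¹).support.card ≤ s := Nat.le_floor hc'
    refine le_trans ?_ (into_ge D0 s hsN _ hcs)
    refine mul_le_mul_of_nonneg_right ?_ (by positivity)
    rw [Fintype.card_fin, hD0]
    have e1 : δ / 4 ≤ ((N0 : ℝ) - s) / n := by
      rw [le_div_iff₀ hnpos]
      linarith
    calc q ≤ (δ / 4) ^ ((a' * a⁻¹).support.card : ℝ) :=
          Real.rpow_le_rpow_of_exponent_ge hδ4 hδ41 hc'
      _ = (δ / 4) ^ (a' * a⁻¹).support.card := Real.rpow_natCast _ _
      _ ≤ _ := pow_le_pow_left₀ hδ4.le e1 _)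
  set F' := F.filter (fun c => c.support ⊆ D0.image σ₀) with hF'
  obtain ⟨σ, hσ, hgr⟩ := hss n hn1 B hBne hB (D0.image σ₀)
    (by rw [card_image_of_injective _ σ₀.injective, hD0]) F' (by
      intro y hy i hi
      by_contra hne
      exact hi ((mem_filter.1 hy).2 (Perm.mem_support.mpr hne)))
  refine ⟨σ, hσ, ?_⟩
  -- the size of `F'`
  have hF'card : (A.card : ℝ) ^ (1 / 4 : ℝ) ≤ F'.card := by
    refine le_trans ?_ hσ₀
    have e1 : (A.card : ℝ) ^ (1 / 2 : ℝ) ≤ F.card := by rw [hFcard]; exact ha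
    have e2 : (A.card : ℝ) ^ (-(1 / 4) : ℝ) ≤ q := by
      rw [hq, Real.rpow_def_of_pos hApos, Real.rpow_def_of_pos hδ4, ← hM]
      apply Real.exp_le_exp.mpr
      have e3 : Real.log (δ / 4) = -Real.log (4 / δ) := by
        rw [← Real.log_inv, inv_div]
      rw [e3]
      nlinarith
    calc (A.card : ℝ) ^ (1 / 4 : ℝ) = (A.card : ℝ) ^ (-(1 / 4) : ℝ) * (A.card : ℝ) ^ (1 / 2 : ℝ) := by
          rw [← Real.rpow_add hApos]; norm_num
      _ ≤ q * F.card := mul_le_mul e2 e1 (by positivity) (by positivity)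
  -- transfer to `A`
  have hsub : B * F'.image (fun y => σ * y * σ⁻¹) ⊆
      (B * A.image (fun y => σ * y * σ⁻¹)).image (fun z => z * (σ * a⁻¹ * σ⁻¹)) := by
    intro z hz
    obtain ⟨b, hb, w, hw, rfl⟩ := mem_mul.1 hz
    obtain ⟨y, hy, rfl⟩ := mem_image.1 hw
    obtain ⟨a', ha', rfl⟩ := mem_image.1 (mem_filter.1 hy).1
    refine mem_image.2 ⟨b * (σ * a' * σ⁻¹), mul_mem_mul hb (mem_image.2 ⟨a', (mem_filter.1 ha').1, rfl⟩), ?_⟩
    group
  have hcard : (B * F'.image (fun y => σ * y * σ⁻¹)).card ≤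
      (B * A.image (fun y => σ * y * σ⁻¹)).card := (card_le_card hsub).trans card_image_le
  have hcard' : ((B * F'.image (fun y => σ * y * σ⁻¹)).card : ℝ) ≤
      ((B * A.image (fun y => σ * y * σ⁻¹)).card : ℝ) := by exact_mod_cast hcard
  refine le_trans ?_ (hgr.trans hcard')
  refine mul_le_mul_of_nonneg_left ?_ (by positivity)
  calc (A.card : ℝ) ^ (ε₁ / 4) = ((A.card : ℝ) ^ (1 / 4 : ℝ)) ^ ε₁ := by
        rw [← Real.rpow_mul hApos.le]; ring_nf
    _ ≤ (F'.card : ℝ) ^ ε₁ := Real.rpow_le_rpow (by positivity) hF'card hε₁.le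

end Medium

open Medium in
theorem medium_case (δ : ℝ) (h0 : 0 < δ) (h1 : δ ≤ 1 / 2) (C : ℝ) : ∃ C' : ℝ, ∃ ε : ℝ, 0 < ε ∧
    ∃ n1 : ℕ, ∀ n : ℕ, n1 ≤ n →
    ∀ B : Finset (Perm (Fin n)), B.Nonempty → (B.card : ℝ) ≤ (n.factorial : ℝ) ^ (1 - δ) →
    ∀ A : Finset (Perm (Fin n)), C' ≤ Real.log A.card → Real.log A.card ≤ C * n →
    ∃ σ : Perm (Fin n), Perm.sign σ = 1 ∧
      (B.card : ℝ) * (A.card : ℝ) ^ ε ≤ ((B * A.image (fun y => σ * y * σ⁻¹)).card : ℝ) := by
  -- the constant `ρ`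
  have hlog : 0 < Real.log (4 / δ) := by
    apply Real.log_pos
    rw [lt_div_iff₀ h0]
    linarith
  set ρ : ℝ := min (δ / (8 * (|C| + 1))) (1 / (4 * Real.log (4 / δ))) with hρdef
  have hC1 : 0 < |C| + 1 := by positivity
  have hρ : 0 < ρ := lt_min (by positivity) (by positivity)
  have hρ1 : ρ * (8 * (|C| + 1)) ≤ δ := by
    have h := min_le_left (δ / (8 * (|C| + 1))) (1 / (4 * Real.log (4 / δ)))
    rw [← hρdef, le_div_iff₀ (by positivity)] at h
    exact h
  have hρ2 : ρ * Real.log (4 / δ) ≤ 1 / 4 := by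
    have h := min_le_right (δ / (8 * (|C| + 1))) (1 / (4 * Real.log (4 / δ)))
    rw [← hρdef, le_div_iff₀ (by positivity)] at h
    linarith
  obtain ⟨ε₁, hε₁, n₁, hclose⟩ := close_case δ h0 h1 ρ hρ hρ2
  obtain ⟨κ, hκ, n₂, hspread⟩ := exists_spread δ h0 h1
  -- the constant `C'`
  have htend : Filter.Tendsto (fun M : ℝ => 2 * (Real.exp (-(1 / 4) * M) +
      κ⁻¹ * Real.exp (-(κ * ρ / 2) * M))) Filter.atTop (nhds (2 * (0 + κ⁻¹ * 0))) := by
    have hexp : ∀ c : ℝ, 0 < c → Filter.Tendsto (fun M : ℝ => Real.exp (-c * M)) Filter.atTop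
        (nhds 0) := by
      intro c hc
      refine Real.tendsto_exp_atBot.comp ?_
      have : Filter.Tendsto (fun M : ℝ => c * M) Filter.atTop Filter.atTop :=
        Filter.tendsto_id.const_mul_atTop hc
      refine (Filter.tendsto_neg_atTop_atBot.comp this).congr fun M => ?_
      simp
    exact ((hexp _ (by norm_num)).add ((hexp _ (by positivity)).const_mul _)).const_mul _
  rw [mul_zero, add_zero, mul_zero] at htend
  obtain ⟨C₀, hC₀⟩ := Filter.eventually_atTop.mp (htend.eventually_lt_const hκ)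
  refine ⟨max C₀ 1, min (ε₁) (min (1 / 4) (κ * ρ / 2)), by positivity, max (max n₁ n₂) 2,
    fun n hn B hBne hB A hA1 hA2 => ?_⟩
  set ε : ℝ := min (ε₁) (min (1 / 4) (κ * ρ / 2)) with hεdef
  have hε1 : ε ≤ ε₁ := min_le_left _ _
  have hε2 : ε ≤ 1 / 4 := (min_le_right _ _).trans (min_le_left _ _)
  have hε3 : ε ≤ κ * ρ / 2 := (min_le_right _ _).trans (min_le_right _ _)
  have hn1 : n₁ ≤ n := (le_max_left _ _).trans ((le_max_left _ _).trans hn)
  have hn2 : n₂ ≤ n := (le_max_right _ _).trans ((le_max_left _ _).trans hn)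
  have hn3 : 2 ≤ n := (le_max_right _ _).trans hn
  set M : ℝ := Real.log A.card with hM
  have hMC : C₀ ≤ M := (le_max_left _ _).trans hA1
  have hM1 : 1 ≤ M := (le_max_right _ _).trans hA1
  have hAne : A.Nonempty := by
    by_contra hcon
    rw [not_nonempty_iff_eq_empty] at hcon
    rw [hcon] at hM
    simp at hM
    linarith
  have hApos : (0 : ℝ) < A.card := by exact_mod_cast hAne.card_pos
  have hA1' : (1 : ℝ) ≤ A.card := by exact_mod_cast hAne.card_pos
  have hr : ρ * M ≤ δ * n / 8 := by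
    have hn0 : (0 : ℝ) ≤ n := by positivity
    have e1 : M ≤ (|C| + 1) * n := hA2.trans (by nlinarith [le_abs_self C])
    have e2 : ρ * M ≤ ρ * ((|C| + 1) * n) := mul_le_mul_of_nonneg_left e1 hρ.le
    nlinarith
  by_cases hcase : ∃ a ∈ A, (A.card : ℝ) ^ (1 / 2 : ℝ) ≤
      (A.filter (fun a' => ((a' * a⁻¹).support.card : ℝ) ≤ ρ * M)).card
  · obtain ⟨a, -, ha⟩ := hcase
    obtain ⟨σ, hσ, h⟩ := hclose n hn1 B hBne hB A hAne hr a ha
    refine ⟨σ, hσ, le_trans ?_ h⟩
    exact mul_le_mul_of_nonneg_left (Real.rpow_le_rpow_of_exponent_le hA1' hε1) (by positivity)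
  push Not at hcase
  by_contra hcon
  push Not at hcon
  obtain ⟨B', hB'sub, hB'card, hstay⟩ := hspread n hn2 B hBne hB
  set Z : ℝ := (B.card : ℝ) * (A.card : ℝ) ^ ε with hZ
  set S : Finset (Perm (Fin n)) := univ.filter (fun σ => Perm.sign σ = 1) with hS
  have hen := energy S (fun _ => B') A Z (by
    intro σ hσ
    have h2 := hcon σ (mem_filter.1 hσ).2
    refine le_trans ?_ h2.le
    exact_mod_cast card_le_card (mul_subset_mul_right hB'sub))
  -- the size of `S`
  have hScard : (2 : ℝ) * S.card = n.factorial := by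
    have : Nontrivial (Fin n) := Fin.nontrivial_iff_two_le.mpr hn3
    have h2 := two_mul_card_alternatingGroup (α := Fin n)
    rw [Fintype.card_perm, Fintype.card_fin] at h2
    have h3 : Fintype.card (alternatingGroup (Fin n)) = S.card := by
      rw [hS, ← Fintype.card_subtype]
      exact Fintype.card_congr (Equiv.refl _)
    rw [h3] at h2
    exact_mod_cast h2
  -- the total number of pairs
  set fac : ℝ := (n.factorial : ℝ) with hfac
  have hfacpos : 0 < fac := by rw [hfac]; exact_mod_cast n.factorial_pos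
  have hpairs : ∑ σ ∈ S, ∑ y ∈ A, ∑ y' ∈ A, (stay B' (y * y'⁻¹) σ : ℝ) ≤
      B'.card * fac * ((A.card : ℝ) ^ (3 / 2 : ℝ) +
        (A.card : ℝ) ^ 2 * (κ⁻¹ * Real.exp (-κ * (ρ * M)))) := by
    have e1 : ∀ y' ∈ A, ∑ y ∈ A, ∑ σ : Perm (Fin n), (stay B' (y * y'⁻¹) σ : ℝ) ≤
        B'.card * fac * ((A.card : ℝ) ^ (1 / 2 : ℝ) +
          A.card * (κ⁻¹ * Real.exp (-κ * (ρ * M)))) := by
      intro y' hy'
      have hcl := hcase y' hy'
      rw [← sum_filter_add_sum_filter_not A
        (fun y => ((y * y'⁻¹).support.card : ℝ) ≤ ρ * M), mul_add]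
      refine add_le_add ?_ ?_
      · refine (sum_le_card_nsmul _ _ (B'.card * fac) ?_).trans ?_
        · intro y _
          refine (sum_le_card_nsmul _ _ (B'.card : ℝ) ?_).trans ?_
          · intro σ _
            exact_mod_cast card_filter_le _ _
          · rw [card_univ, Fintype.card_perm, Fintype.card_fin, nsmul_eq_mul, mul_comm]
        · rw [nsmul_eq_mul, mul_comm]
          exact mul_le_mul_of_nonneg_left hcl.le (by positivity)
      · refine (sum_le_card_nsmul _ _
          (B'.card * fac * (κ⁻¹ * Real.exp (-κ * (ρ * M)))) ?_).trans ?_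
        · intro y hy
          refine (hstay (y * y'⁻¹)).trans ?_
          have hfar : ρ * M < ((y * y'⁻¹).support.card : ℝ) := by
            have := (mem_filter.1 hy).2
            push Not at this
            exact this
          refine mul_le_mul_of_nonneg_left ?_ (by positivity)
          refine mul_le_mul_of_nonneg_left ?_ (by positivity)
          apply Real.exp_le_exp.mpr
          nlinarith
        · rw [nsmul_eq_mul]
          have e2 : ((A.filter (fun y => ¬ ((y * y'⁻¹).support.card : ℝ) ≤ ρ * M)).card : ℝ) ≤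
              A.card := by exact_mod_cast card_filter_le _ _
          calc _ ≤ (A.card : ℝ) * (B'.card * fac * (κ⁻¹ * Real.exp (-κ * (ρ * M)))) :=
                mul_le_mul_of_nonneg_right e2 (by positivity)
            _ = _ := by ring
    calc ∑ σ ∈ S, ∑ y ∈ A, ∑ y' ∈ A, (stay B' (y * y'⁻¹) σ : ℝ)
        ≤ ∑ σ : Perm (Fin n), ∑ y ∈ A, ∑ y' ∈ A, (stay B' (y * y'⁻¹) σ : ℝ) :=
          sum_le_univ_sum_of_nonneg fun σ => by positivity
      _ = ∑ y' ∈ A, ∑ y ∈ A, ∑ σ : Perm (Fin n), (stay B' (y * y'⁻¹) σ : ℝ) := by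
          rw [sum_comm]
          rw [sum_congr rfl fun y _ => sum_comm]
          rw [sum_comm]
      _ ≤ ∑ y' ∈ A, B'.card * fac * ((A.card : ℝ) ^ (1 / 2 : ℝ) +
          A.card * (κ⁻¹ * Real.exp (-κ * (ρ * M)))) := sum_le_sum e1
      _ = _ := by
          rw [sum_const, nsmul_eq_mul]
          have e3 : (A.card : ℝ) ^ (3 / 2 : ℝ) = A.card * (A.card : ℝ) ^ (1 / 2 : ℝ) := by
            rw [show (3 / 2 : ℝ) = 1 + 1 / 2 by norm_num, Real.rpow_add hApos, Real.rpow_one]
          rw [e3]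
          ring
  rw [sum_const, nsmul_eq_mul] at hen
  set a : ℝ := (A.card : ℝ) with ha
  set b : ℝ := (B.card : ℝ) with hb
  set b' : ℝ := (B'.card : ℝ) with hb'
  have hbpos : 0 < b := by rw [hb]; exact_mod_cast hBne.card_pos
  have hb'pos : 0 < b' := lt_of_lt_of_le (by positivity) hB'card
  have hspos : (0 : ℝ) < S.card := by linarith
  have hZpos : 0 < Z := by positivity
  have hmain : ((S.card : ℝ) * b' * a) ^ 2 ≤ Z * S.card * (b' * fac * (a ^ (3 / 2 : ℝ) +
        a ^ 2 * (κ⁻¹ * Real.exp (-κ * (ρ * M))))) :=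
    hen.trans (mul_le_mul_of_nonneg_left hpairs (by positivity))
  have e32 : a ^ (3 / 2 : ℝ) = a ^ 2 * a ^ (-(1 / 2) : ℝ) := by
    rw [← Real.rpow_natCast a 2, ← Real.rpow_add hApos]
    norm_num
  rw [e32, ← hScard] at hmain
  have hfin : b' ≤ 2 * Z * (a ^ (-(1 / 2) : ℝ) + κ⁻¹ * Real.exp (-κ * (ρ * M))) := by
    have hpos : 0 < (S.card : ℝ) ^ 2 * b' * a ^ 2 := by positivity
    refine le_of_mul_le_mul_left ?_ hpos
    calc (S.card : ℝ) ^ 2 * b' * a ^ 2 * b' = ((S.card : ℝ) * b' * a) ^ 2 := by ring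
      _ ≤ _ := hmain
      _ = _ := by ring
  have hκb : κ * b ≤ b * (2 * (a ^ ε * a ^ (-(1 / 2) : ℝ) +
      κ⁻¹ * (a ^ ε * Real.exp (-κ * (ρ * M))))) := by
    refine (hB'card.trans hfin).trans (le_of_eq ?_)
    rw [hZ]; ring
  have hκ2 : κ ≤ 2 * (a ^ ε * a ^ (-(1 / 2) : ℝ) + κ⁻¹ * (a ^ ε * Real.exp (-κ * (ρ * M)))) := by
    refine le_of_mul_le_mul_left ?_ hbpos
    rw [mul_comm b κ]
    exact hκb
  have e4 : a ^ ε * a ^ (-(1 / 2) : ℝ) ≤ Real.exp (-(1 / 4) * M) := by
    rw [← Real.rpow_add hApos, Real.rpow_def_of_pos hApos, ← hM]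
    apply Real.exp_le_exp.mpr
    have h := mul_le_mul_of_nonneg_left hε2 (zero_le_one.trans hM1)
    linarith
  have e5 : a ^ ε * Real.exp (-κ * (ρ * M)) ≤ Real.exp (-(κ * ρ / 2) * M) := by
    rw [Real.rpow_def_of_pos hApos, ← hM, ← Real.exp_add]
    apply Real.exp_le_exp.mpr
    have h := mul_le_mul_of_nonneg_left hε3 (zero_le_one.trans hM1)
    linarith
  have e6 := hC₀ M hMC
  have e7 : κ⁻¹ * (a ^ ε * Real.exp (-κ * (ρ * M))) ≤ κ⁻¹ * Real.exp (-(κ * ρ / 2) * M) :=
    mul_le_mul_of_nonneg_left e5 (by positivity)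
  linarith

end Pool.Agent.MP_f20ab1_al
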