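import Pool.Agent.MP_f20ab1_al.SmallSupport

set_option linter.unusedVariables false
set_option linter.unusedSectionVars false

open Equiv Finset
open scoped Pointwise

/-!
Bounded `A`, and bounded degree.

Sketch of `small_case`.  Take `a ≠ a'` in `A`, `c = a' * a⁻¹ ≠ 1`.  Choose `i` with `c i ≠ i` and
`j ≠ k` outside `{i, c i}`, `h = swap i j * swap i k` (a 3-cycle, even), not commuting with `c`.
`w = c * (h⁻¹ * c⁻¹ * h) ≠ 1` has at most 6 points in its support.  By `small_support` for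
`{1, w}` there is an even `σ` with `(B ∪ B σwσ⁻¹).card ≥ 2^ε B.card`, that is
`(B σwσ⁻¹ \ B).card ≥ (2^ε - 1) B.card`.  With `φ u = (B u \ B).card = (B \ B u).card` one has
`φ (u v) ≤ φ u + φ v`, `φ u⁻¹ = φ u`, so `φ (σcσ⁻¹) + φ (σh⁻¹ c h σ⁻¹) ≥ (2^ε - 1) B.card`, hence for `σ' = σ`
or `σ' = σ h⁻¹`, `(B ∪ B σ'cσ'⁻¹).card ≥ (1 + (2^ε - 1)/2) B.card`; translate back to `{a, a'}`.

Sketch of `bounded_degree`.  `B` is nonempty, not everything, `a ≠ a'` in `A`.  If
`(B * A^g).card = B.card` for all `g` then `B a^g = B a'^g`, so `B` is invariant under right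
multiplication by all conjugates of `a' * a⁻¹`, hence by the normal closure, which is everything
(`alternatingGroup.isSimpleGroup`).  So some `g` has
`(B * A^g).card ≥ B.card + 1 ≥ B.card * (1 + 1/N)`, `N = card (alternatingGroup (Fin n))`; take
`ε = log (1 + 1/N) / log N`.
-/

namespace Pool.Agent.MP_f20ab1_al

namespace SmallAux

section phi

variable {G : Type*} [Group G] [DecidableEq G]

/-- number of elements of `B u` outside `B` -/
def phi (B : Finset G) (u : G) : ℕ := (B.image (fun x => x * u) \ B).card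

theorem card_mulRight (B : Finset G) (u : G) : (B.image (fun x => x * u)).card = B.card :=
  card_image_of_injective _ (mul_left_injective u)

theorem phi_mul (B : Finset G) (u v : G) : phi B (u * v) ≤ phi B u + phi B v := by
  unfold phi
  have h : B.image (fun x => x * (u * v)) \ B ⊆
      (B.image (fun x => x * u) \ B).image (fun x => x * v) ∪ (B.image (fun x => x * v) \ B) := by
    intro x hx
    rw [mem_sdiff, mem_image] at hx
    obtain ⟨⟨b, hb, rfl⟩, hx⟩ := hx
    rw [mem_union]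
    by_cases hbu : b * u ∈ B
    · right
      rw [mem_sdiff, mem_image]
      exact ⟨⟨b * u, hbu, by rw [mul_assoc]⟩, hx⟩
    · left
      rw [mem_image]
      exact ⟨b * u, mem_sdiff.mpr ⟨mem_image_of_mem _ hb, hbu⟩, by rw [mul_assoc]⟩
  refine (card_le_card h).trans ((card_union_le _ _).trans ?_)
  rw [card_mulRight]

theorem phi_inv (B : Finset G) (u : G) : phi B u⁻¹ = phi B u := by
  unfold phi
  have h1 : (B.image (fun x => x * u⁻¹) \ B).card = (B \ B.image (fun x => x * u)).card := by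
    rw [← card_mulRight (B.image (fun x => x * u⁻¹) \ B) u,
      image_sdiff _ _ (mul_left_injective u), image_image]
    congr 2
    ext x
    simp
  rw [h1]
  exact card_sdiff_comm (card_mulRight B u).symm

theorem card_add_phi_le (B A : Finset G) {a a' : G} (ha : a ∈ A) (ha' : a' ∈ A) :
    B.card + phi B (a' * a⁻¹) ≤ (B * A).card := by
  have h1 : (B ∪ B.image (fun x => x * (a' * a⁻¹))).card = B.card + phi B (a' * a⁻¹) := by
    rw [phi, union_comm, ← card_sdiff_add_card, add_comm]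
  rw [← h1, ← card_mulRight _ a]
  refine card_le_card ?_
  intro x hx
  rw [mem_image] at hx
  obtain ⟨y, hy, rfl⟩ := hx
  rw [mem_union, mem_image] at hy
  rcases hy with hy | ⟨b, hb, rfl⟩
  · exact mul_mem_mul hy ha
  · have : b * (a' * a⁻¹) * a = b * a' := by group
    rw [this]
    exact mul_mem_mul hb ha'

theorem card_pair_le (B : Finset G) (v : G) : (B * {1, v}).card ≤ B.card + phi B v := by
  have h1 : (B ∪ B.image (fun x => x * v)).card = B.card + phi B v := by
    rw [phi, union_comm, ← card_sdiff_add_card, add_comm]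
  rw [← h1]
  refine card_le_card ?_
  intro x hx
  rw [mem_mul] at hx
  obtain ⟨b, hb, y, hy, rfl⟩ := hx
  rw [mem_insert, mem_singleton] at hy
  rw [mem_union]
  rcases hy with rfl | rfl
  · left; rwa [mul_one]
  · right; exact mem_image_of_mem _ hb

end phi

/-- an even permutation with small support that does not commute with `c` -/
theorem exists_three_cycle {n : ℕ} (hn : 4 ≤ n) (c : Perm (Fin n)) (hc : c ≠ 1) :
    ∃ (h : Perm (Fin n)) (S : Finset (Fin n)), S.card ≤ 3 ∧ (∀ i, i ∉ S → h i = i) ∧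
      Perm.sign h = 1 ∧ c * h ≠ h * c := by
  obtain ⟨i, hi⟩ : ∃ i, c i ≠ i := by
    by_contra hcon
    push Not at hcon
    exact hc (Equiv.ext hcon)
  have hcard : 1 < (univ \ {i, c i} : Finset (Fin n)).card := by
    have h1 : ({i, c i} : Finset (Fin n)).card ≤ 2 := card_le_two
    have h2 := le_card_sdiff ({i, c i} : Finset (Fin n)) univ
    rw [card_univ, Fintype.card_fin] at h2
    omega
  obtain ⟨j, hj, k, hk, hjk⟩ := one_lt_card.mp hcard
  simp only [mem_sdiff, mem_univ, true_and, mem_insert, mem_singleton, not_or] at hj hk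
  refine ⟨swap i j * swap i k, {i, j, k}, card_le_three, ?_, ?_, ?_⟩
  · intro x hx
    simp only [mem_insert, mem_singleton, not_or] at hx
    rw [Perm.mul_apply, swap_apply_of_ne_of_ne hx.1 hx.2.2, swap_apply_of_ne_of_ne hx.1 hx.2.1]
  · rw [Perm.sign_mul, Perm.sign_swap (Ne.symm hj.1), Perm.sign_swap (Ne.symm hk.1)]
    rfl
  · intro h
    have h1 := congrArg (fun p : Perm (Fin n) => p i) h
    simp only [Perm.mul_apply, swap_apply_left] at h1
    rw [swap_apply_of_ne_of_ne hk.1 (Ne.symm hjk)] at h1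
    rw [swap_apply_of_ne_of_ne hi (Ne.symm hk.2),
      swap_apply_of_ne_of_ne hi (Ne.symm hj.2)] at h1
    exact hk.1 (c.injective h1)

theorem small_case_aux (δ : ℝ) (h0 : 0 < δ) (h1 : δ ≤ 1 / 2) : ∃ κ : ℝ, 0 < κ ∧
    ∃ n1 : ℕ, ∀ n : ℕ, n1 ≤ n →
    ∀ B : Finset (Perm (Fin n)), B.Nonempty → (B.card : ℝ) ≤ (n.factorial : ℝ) ^ (1 - δ) →
    ∀ A : Finset (Perm (Fin n)), 1 < A.card →
    ∃ σ : Perm (Fin n), Perm.sign σ = 1 ∧
      (1 + κ) * (B.card : ℝ) ≤ ((B * A.image (fun y => σ * y * σ⁻¹)).card : ℝ) := by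
  obtain ⟨ε0, hε0, n1, H⟩ := small_support δ h0 h1
  have h2 : (1 : ℝ) < 2 ^ ε0 := Real.one_lt_rpow (by norm_num) hε0
  refine ⟨(2 ^ ε0 - 1) / 2, by linarith, max n1 (max 4 ⌈12 / δ⌉₊), ?_⟩
  intro n hn B hB hBc A hA
  have hn1 : n1 ≤ n := (le_max_left _ _).trans hn
  have hn4 : 4 ≤ n := ((le_max_left _ _).trans (le_max_right _ _)).trans hn
  have hn12 : ⌈12 / δ⌉₊ ≤ n := ((le_max_right _ _).trans (le_max_right _ _)).trans hn
  obtain ⟨a, ha, a', ha', haa'⟩ := one_lt_card.mp hA
  set c : Perm (Fin n) := a' * a⁻¹ with hc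
  have hc1 : c ≠ 1 := by
    intro h
    rw [hc, mul_inv_eq_one] at h
    exact haa' h.symm
  obtain ⟨h, S, hS3, hS, hsign, hcomm⟩ := exists_three_cycle hn4 c hc1
  set w : Perm (Fin n) := c * (h⁻¹ * c⁻¹ * h) with hw
  have hw1 : w ≠ 1 := by
    intro h'
    apply hcomm
    have e1 : c * h⁻¹ = h⁻¹ * c := by
      have e2 : w = (c * h⁻¹) * (h⁻¹ * c)⁻¹ := by rw [hw]; group
      rw [e2, mul_inv_eq_one] at h'
      exact h'
    have e3 : h * c = h * (c * h⁻¹) * h := by group
    rw [e3, e1]; group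
  set D : Finset (Fin n) := S ∪ S.image c with hD
  have hDcard : D.card ≤ ⌊δ * n / 2⌋₊ := by
    have h3 : D.card ≤ 6 := by
      refine (card_union_le _ _).trans ?_
      have := card_image_le (s := S) (f := c)
      omega
    refine h3.trans (Nat.le_floor ?_)
    have h4 : 12 / δ ≤ n := (Nat.le_ceil _).trans (by exact_mod_cast hn12)
    rw [div_le_iff₀ h0] at h4
    push_cast
    linarith
  have hhinv : ∀ i, i ∉ S → h⁻¹ i = i := by
    intro i hi
    rw [Perm.inv_eq_iff_eq]
    exact (hS i hi).symm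
  have hwD : ∀ i, i ∉ D → w i = i := by
    intro i hi
    rw [hD, mem_union, not_or] at hi
    have h5 : c⁻¹ i ∉ S := by
      intro h6
      apply hi.2
      rw [mem_image]
      exact ⟨_, h6, by simp⟩
    rw [hw]
    simp only [Perm.mul_apply]
    rw [hS i hi.1, hhinv _ h5]
    simp
  obtain ⟨σ, hσ, hbig⟩ := H n hn1 B hB hBc D hDcard {1, w} (by
    intro y hy i hi
    rw [mem_insert, mem_singleton] at hy
    rcases hy with rfl | rfl
    · rfl
    · exact hwD i hi)
  have hcard2 : (({1, w} : Finset (Perm (Fin n))).card : ℝ) = 2 := by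
    rw [card_pair (Ne.symm hw1)]; norm_num
  rw [hcard2] at hbig
  have himg : ({1, w} : Finset (Perm (Fin n))).image (fun y => σ * y * σ⁻¹) =
      {1, σ * w * σ⁻¹} := by
    rw [image_insert, image_singleton]; simp
  rw [himg] at hbig
  have hphi : (B.card : ℝ) * 2 ^ ε0 ≤ B.card + phi B (σ * w * σ⁻¹) := by
    refine hbig.trans ?_
    exact_mod_cast card_pair_le B (σ * w * σ⁻¹)
  have hsplit : phi B (σ * w * σ⁻¹) ≤ phi B (σ * c * σ⁻¹) + phi B ((σ * h⁻¹) * c * (σ * h⁻¹)⁻¹) := by
    have e1 : σ * w * σ⁻¹ = (σ * c * σ⁻¹) * ((σ * h⁻¹) * c * (σ * h⁻¹)⁻¹)⁻¹ := by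
      rw [hw]; group
    rw [e1]
    refine (phi_mul _ _ _).trans ?_
    rw [phi_inv]
  have hkey : ∀ τ : Perm (Fin n), (B.card : ℝ) + phi B (τ * c * τ⁻¹) ≤
      ((B * A.image (fun y => τ * y * τ⁻¹)).card : ℝ) := by
    intro τ
    have e1 : τ * c * τ⁻¹ = (τ * a' * τ⁻¹) * (τ * a * τ⁻¹)⁻¹ := by rw [hc]; group
    rw [e1]
    exact_mod_cast card_add_phi_le B _ (mem_image_of_mem (fun y => τ * y * τ⁻¹) ha)
      (mem_image_of_mem (fun y => τ * y * τ⁻¹) ha')
  have hsplit' : (phi B (σ * w * σ⁻¹) : ℝ) ≤ phi B (σ * c * σ⁻¹) +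
      phi B ((σ * h⁻¹) * c * (σ * h⁻¹)⁻¹) := by exact_mod_cast hsplit
  by_cases hcase : (2 ^ ε0 - 1) / 2 * (B.card : ℝ) ≤ phi B (σ * c * σ⁻¹)
  · refine ⟨σ, hσ, le_trans ?_ (hkey σ)⟩
    linarith
  · push Not at hcase
    refine ⟨σ * h⁻¹, ?_, le_trans ?_ (hkey (σ * h⁻¹))⟩
    · rw [Perm.sign_mul, hσ, Perm.sign_inv, hsign]; rfl
    · linarith

theorem card_le_one_case {G : Type*} [Group G] [DecidableEq G] (B A : Finset G) {ε : ℝ}
    (hε : 0 < ε) (h : A.card ≤ 1) (f : G → G) :
    (B.card : ℝ) * (A.card : ℝ) ^ ε ≤ ((B * A.image f).card : ℝ) := by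
  rcases Nat.le_one_iff_eq_zero_or_eq_one.mp h with h | h
  · rw [h, Nat.cast_zero, Real.zero_rpow hε.ne', mul_zero]
    positivity
  · rw [h, Nat.cast_one, Real.one_rpow, mul_one]
    obtain ⟨a, rfl⟩ := card_eq_one.mp h
    rw [image_singleton]
    have : B * {f a} = B.image (fun x => x * f a) := by
      ext x; simp only [Finset.mem_mul, mem_image, mem_singleton, exists_eq_left]
    rw [this, card_mulRight]

end SmallAux

open SmallAux

theorem small_case (δ : ℝ) (h0 : 0 < δ) (h1 : δ ≤ 1 / 2) (C : ℝ) : ∃ ε : ℝ, 0 < ε ∧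
    ∃ n1 : ℕ, ∀ n : ℕ, n1 ≤ n →
    ∀ B : Finset (Perm (Fin n)), B.Nonempty → (B.card : ℝ) ≤ (n.factorial : ℝ) ^ (1 - δ) →
    ∀ A : Finset (Perm (Fin n)), Real.log A.card ≤ C →
    ∃ σ : Perm (Fin n), Perm.sign σ = 1 ∧
      (B.card : ℝ) * (A.card : ℝ) ^ ε ≤ ((B * A.image (fun y => σ * y * σ⁻¹)).card : ℝ) := by
  obtain ⟨κ, hκ, n1, H⟩ := small_case_aux δ h0 h1
  have hlog : 0 < Real.log (1 + κ) := Real.log_pos (by linarith)
  have hmax : 0 < max C 1 := lt_of_lt_of_le one_pos (le_max_right _ _)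
  have hε : 0 < Real.log (1 + κ) / max C 1 := div_pos hlog hmax
  refine ⟨Real.log (1 + κ) / max C 1, hε, n1, ?_⟩
  intro n hn B hB hBc A hA
  rcases Nat.lt_or_ge 1 A.card with hA1 | hA1
  · obtain ⟨σ, hσ, h⟩ := H n hn B hB hBc A hA1
    refine ⟨σ, hσ, le_trans ?_ h⟩
    rw [mul_comm]
    refine mul_le_mul_of_nonneg_right ?_ (by positivity)
    have hpos : (0 : ℝ) < A.card := by exact_mod_cast (by omega : 0 < A.card)
    rw [Real.rpow_def_of_pos hpos]
    have h2 : Real.log A.card * (Real.log (1 + κ) / max C 1) ≤ Real.log (1 + κ) := by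
      calc Real.log A.card * (Real.log (1 + κ) / max C 1)
          ≤ max C 1 * (Real.log (1 + κ) / max C 1) := by
            refine mul_le_mul_of_nonneg_right (hA.trans (le_max_left _ _)) hε.le
        _ = Real.log (1 + κ) := by field_simp
    calc Real.exp (Real.log A.card * (Real.log (1 + κ) / max C 1))
        ≤ Real.exp (Real.log (1 + κ)) := Real.exp_le_exp.mpr h2
      _ = 1 + κ := Real.exp_log (by linarith)
  · exact ⟨1, Perm.sign_one, card_le_one_case B A hε hA1 _⟩

theorem bounded_degree (n : ℕ) (hn : 5 ≤ n) : ∃ ε : ℝ, 0 < ε ∧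
    ∀ A B : Finset (alternatingGroup (Fin n)), B ≠ univ →
    ∃ g : alternatingGroup (Fin n),
      (B.card : ℝ) * (A.card : ℝ) ^ ε ≤ ((B * A.image (fun a => g⁻¹ * a * g)).card : ℝ) := by
  classical
  have hsimple : IsSimpleGroup (alternatingGroup (Fin n)) :=
    alternatingGroup.isSimpleGroup (by simpa using hn)
  have hnt : Nontrivial (alternatingGroup (Fin n)) := hsimple.toNontrivial
  set N : ℕ := Fintype.card (alternatingGroup (Fin n)) with hN
  have hN1 : 1 < N := Fintype.one_lt_card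
  have hN1' : (1 : ℝ) < N := by exact_mod_cast hN1
  have hN0 : (0 : ℝ) < N := by linarith
  have hlogN : 0 < Real.log N := Real.log_pos hN1'
  have hlog : 0 < Real.log (1 + 1 / N) := Real.log_pos (by
    have : 0 < 1 / (N : ℝ) := by positivity
    linarith)
  have hε : 0 < Real.log (1 + 1 / N) / Real.log N := div_pos hlog hlogN
  refine ⟨Real.log (1 + 1 / N) / Real.log N, hε, ?_⟩
  intro A B hBu
  rcases Nat.lt_or_ge 1 A.card with hA1 | hA1
  · rcases B.eq_empty_or_nonempty with rfl | hB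
    · exact ⟨1, by simp⟩
    have hmain : ∃ g : alternatingGroup (Fin n),
        B.card + 1 ≤ (B * A.image (fun a => g⁻¹ * a * g)).card := by
      by_contra hcon
      push Not at hcon
      obtain ⟨a, ha, a', ha', haa'⟩ := one_lt_card.mp hA1
      have hphi : ∀ g : alternatingGroup (Fin n), phi B (g⁻¹ * (a' * a⁻¹) * g) = 0 := by
        intro g
        have h2 := card_add_phi_le B (A.image (fun a => g⁻¹ * a * g))
          (mem_image_of_mem (fun a => g⁻¹ * a * g) ha) (mem_image_of_mem (fun a => g⁻¹ * a * g) ha')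
        have e1 : (g⁻¹ * a' * g) * (g⁻¹ * a * g)⁻¹ = g⁻¹ * (a' * a⁻¹) * g := by group
        rw [e1] at h2
        have h3 := hcon g
        omega
      -- the normal subgroup
      let K : Subgroup (alternatingGroup (Fin n)) :=
        { carrier := {x | ∀ g b, b ∈ B → b * (g⁻¹ * x * g) ∈ B ∧ b * (g⁻¹ * x * g)⁻¹ ∈ B}
          one_mem' := by
            intro g b hb
            simpa using hb
          mul_mem' := by
            intro x y hx hy g b hb
            have e1 : g⁻¹ * (x * y) * g = (g⁻¹ * x * g) * (g⁻¹ * y * g) := by group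
            refine ⟨?_, ?_⟩
            · rw [e1, ← mul_assoc]
              exact (hy g _ (hx g b hb).1).1
            · rw [e1, mul_inv_rev, ← mul_assoc]
              exact (hx g _ (hy g b hb).2).2
          inv_mem' := by
            intro x hx g b hb
            have e1 : g⁻¹ * x⁻¹ * g = (g⁻¹ * x * g)⁻¹ := by group
            rw [e1, inv_inv]
            exact ⟨(hx g b hb).2, (hx g b hb).1⟩ }
      have hKn : K.Normal := by
        refine ⟨fun x hx y g b hb => ?_⟩
        have e1 : g⁻¹ * (y * x * y⁻¹) * g = (y⁻¹ * g)⁻¹ * x * (y⁻¹ * g) := by group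
        rw [e1]
        exact hx (y⁻¹ * g) b hb
      have hcK : a' * a⁻¹ ∈ K := by
        intro g b hb
        have h2 := hphi g
        have h3 := phi_inv B (g⁻¹ * (a' * a⁻¹) * g)
        rw [h2] at h3
        unfold phi at h2 h3
        rw [card_eq_zero, sdiff_eq_empty_iff_subset] at h2 h3
        exact ⟨h2 (mem_image_of_mem (fun x => x * (g⁻¹ * (a' * a⁻¹) * g)) hb),
          h3 (mem_image_of_mem (fun x => x * (g⁻¹ * (a' * a⁻¹) * g)⁻¹) hb)⟩
      have hKtop : K = ⊤ := by
        rcases hKn.eq_bot_or_eq_top with h | h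
        · exfalso
          rw [h, Subgroup.mem_bot, mul_inv_eq_one] at hcK
          exact haa' hcK.symm
        · exact h
      apply hBu
      rw [eq_univ_iff_forall]
      intro x
      obtain ⟨b, hb⟩ := hB
      have hx : b⁻¹ * x ∈ K := by rw [hKtop]; trivial
      have := (hx 1 b hb).1
      simpa using this
    obtain ⟨g, hg⟩ := hmain
    refine ⟨g, le_trans ?_ (show ((B.card + 1 : ℕ) : ℝ) ≤ _ from by exact_mod_cast hg)⟩
    have hAN : (A.card : ℝ) ≤ N := by
      have := card_le_univ A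
      exact_mod_cast this
    have hBN : (B.card : ℝ) ≤ N := by
      have := card_le_univ B
      exact_mod_cast this
    have h4 : (A.card : ℝ) ^ (Real.log (1 + 1 / N) / Real.log N) ≤ 1 + 1 / N := by
      calc (A.card : ℝ) ^ (Real.log (1 + 1 / N) / Real.log N)
          ≤ (N : ℝ) ^ (Real.log (1 + 1 / N) / Real.log N) :=
            Real.rpow_le_rpow (by positivity) hAN hε.le
        _ = Real.exp (Real.log (1 + 1 / N)) := by
            rw [Real.rpow_def_of_pos hN0]
            congr 1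
            field_simp
        _ = 1 + 1 / N := Real.exp_log (by positivity)
    calc (B.card : ℝ) * (A.card : ℝ) ^ (Real.log (1 + 1 / N) / Real.log N)
        ≤ B.card * (1 + 1 / N) := by gcongr
      _ = B.card + B.card / N := by ring
      _ ≤ B.card + 1 := by
          gcongr
          rw [div_le_one hN0]
          exact hBN
      _ = ((B.card + 1 : ℕ) : ℝ) := by push_cast; ring
  · exact ⟨1, card_le_one_case B A hε hA1 _⟩

end Pool.Agent.MP_f20ab1_al
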