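import Pool.Agent.MP_f20ab1_al.Large
import Pool.Agent.MP_f20ab1_al.Medium
import Pool.Agent.MP_f20ab1_al.Small

set_option linter.unusedVariables false
set_option linter.unusedSectionVars false

open Equiv Finset
open scoped Pointwise

/-!
Combination of the cases.
-/

namespace Pool.Agent.MP_f20ab1_al

theorem large_degree (δ : ℝ) (h0 : 0 < δ) (h1 : δ ≤ 1 / 2) : ∃ ε : ℝ, 0 < ε ∧ ∃ n1 : ℕ,
    ∀ n : ℕ, n1 ≤ n →
    ∀ B : Finset (Perm (Fin n)), B.Nonempty → (B.card : ℝ) ≤ (n.factorial : ℝ) ^ (1 - δ) →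
    ∀ A : Finset (Perm (Fin n)),
    ∃ σ : Perm (Fin n), Perm.sign σ = 1 ∧
      (B.card : ℝ) * (A.card : ℝ) ^ ε ≤ ((B * A.image (fun y => σ * y * σ⁻¹)).card : ℝ) := by
  obtain ⟨C, ε1, hε1, n1, H1⟩ := large_case δ h0 h1
  obtain ⟨C', ε2, hε2, n2, H2⟩ := medium_case δ h0 h1 C
  obtain ⟨ε3, hε3, n3, H3⟩ := small_case δ h0 h1 C'
  refine ⟨min ε1 (min ε2 ε3), by positivity, max n1 (max n2 n3), ?_⟩
  intro n hn B hB hBc A
  have hn1 : n1 ≤ n := le_trans (le_max_left _ _) hn
  have hn2 : n2 ≤ n := le_trans (le_trans (le_max_left _ _) (le_max_right _ _)) hn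
  have hn3 : n3 ≤ n := le_trans (le_trans (le_max_right _ _) (le_max_right _ _)) hn
  have key : ∀ ε : ℝ, min ε1 (min ε2 ε3) ≤ ε →
      (B.card : ℝ) * (A.card : ℝ) ^ (min ε1 (min ε2 ε3)) ≤ (B.card : ℝ) * (A.card : ℝ) ^ ε := by
    intro ε hε
    refine mul_le_mul_of_nonneg_left ?_ (by positivity)
    rcases Nat.eq_zero_or_pos A.card with h | h
    · have h4 : 0 < min ε1 (min ε2 ε3) := by positivity
      rw [h, Nat.cast_zero, Real.zero_rpow h4.ne', Real.zero_rpow (h4.trans_le hε).ne']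
    · exact Real.rpow_le_rpow_of_exponent_le (by exact_mod_cast h) hε
  by_cases hC : C * n ≤ Real.log A.card
  · obtain ⟨σ, hσ, h⟩ := H1 n hn1 B hB hBc A hC
    exact ⟨σ, hσ, (key ε1 (min_le_left _ _)).trans h⟩
  · push Not at hC
    by_cases hC' : C' ≤ Real.log A.card
    · obtain ⟨σ, hσ, h⟩ := H2 n hn2 B hB hBc A hC' hC.le
      exact ⟨σ, hσ, (key ε2 (le_trans (min_le_right _ _) (min_le_left _ _))).trans h⟩
    · push Not at hC'
      obtain ⟨σ, hσ, h⟩ := H3 n hn3 B hB hBc A hC'.le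
      exact ⟨σ, hσ, (key ε3 (le_trans (min_le_right _ _) (min_le_right _ _))).trans h⟩

/-- the asymmetric growth statement for one value of `δ` at most `1/2` -/
theorem growth (δ : ℝ) (h0 : 0 < δ) (h1 : δ ≤ 1 / 2) : ∃ ε : ℝ, 0 < ε ∧
    ∀ n : ℕ, 5 ≤ n → ∀ A B : Finset (alternatingGroup (Fin n)),
    (B.card : ℝ) ≤ (Fintype.card (alternatingGroup (Fin n)) : ℝ) ^ (1 - δ) →
    ∃ g : alternatingGroup (Fin n),
      (B.card : ℝ) * (A.card : ℝ) ^ ε ≤ ((B * A.image (fun a => g⁻¹ * a * g)).card : ℝ) := by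
  obtain ⟨ε1, hε1, n1, H1⟩ := large_degree δ h0 h1
  choose! e he H using bounded_degree
  -- minimum over the small degrees
  have hmin : ∃ ε2 : ℝ, 0 < ε2 ∧ ∀ n, 5 ≤ n → n < n1 → ε2 ≤ e n := by
    have : ∀ m : ℕ, ∃ ε2 : ℝ, 0 < ε2 ∧ ∀ n, 5 ≤ n → n < m → ε2 ≤ e n := by
      intro m
      induction m with
      | zero => exact ⟨1, one_pos, fun n _ h => absurd h (Nat.not_lt_zero _)⟩
      | succ m ih =>
        obtain ⟨ε2, h2, h3⟩ := ih
        by_cases hm : 5 ≤ m
        · refine ⟨min ε2 (e m), lt_min h2 (he m hm), fun n hn hn' => ?_⟩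
          rcases Nat.lt_succ_iff_lt_or_eq.1 hn' with h | rfl
          · exact (min_le_left _ _).trans (h3 n hn h)
          · exact min_le_right _ _
        · exact ⟨ε2, h2, fun n hn hn' => h3 n hn (by omega)⟩
    exact this n1
  obtain ⟨ε2, hε2, H2⟩ := hmin
  refine ⟨min ε1 ε2, lt_min hε1 hε2, ?_⟩
  intro n hn A B hB
  have key : ∀ ε : ℝ, min ε1 ε2 ≤ ε →
      (B.card : ℝ) * (A.card : ℝ) ^ (min ε1 ε2) ≤ (B.card : ℝ) * (A.card : ℝ) ^ ε := by
    intro ε hε
    refine mul_le_mul_of_nonneg_left ?_ (by positivity)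
    rcases Nat.eq_zero_or_pos A.card with h | h
    · have h4 : 0 < min ε1 ε2 := lt_min hε1 hε2
      rw [h, Nat.cast_zero, Real.zero_rpow h4.ne', Real.zero_rpow (h4.trans_le hε).ne']
    · exact Real.rpow_le_rpow_of_exponent_le (by exact_mod_cast h) hε
  have hcard : 1 < Fintype.card (alternatingGroup (Fin n)) := by
    have : Nontrivial (alternatingGroup (Fin n)) :=
      alternatingGroup.nontrivial_of_three_le_card (by simp; omega)
    exact Fintype.one_lt_card
  by_cases hn1 : n1 ≤ n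
  · rcases B.eq_empty_or_nonempty with rfl | hBne
    · exact ⟨1, by simp⟩
    · let ι : alternatingGroup (Fin n) →* Perm (Fin n) := (alternatingGroup (Fin n)).subtype
      have hι : Function.Injective ι := Subtype.val_injective
      have h1' : ((B.image ι).card : ℝ) ≤ (n.factorial : ℝ) ^ (1 - δ) := by
        rw [card_image_of_injective _ hι]
        refine hB.trans ?_
        refine Real.rpow_le_rpow (by positivity) ?_ (by linarith)
        have : Fintype.card (alternatingGroup (Fin n)) ≤ Fintype.card (Perm (Fin n)) :=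
          Fintype.card_le_of_injective _ hι
        rw [Fintype.card_perm, Fintype.card_fin] at this
        exact_mod_cast this
      obtain ⟨σ, hσ, h⟩ := H1 n hn1 (B.image ι) (hBne.image _) h1' (A.image ι)
      let g : alternatingGroup (Fin n) := ⟨σ, Perm.mem_alternatingGroup.2 hσ⟩
      refine ⟨g⁻¹, ?_⟩
      rw [card_image_of_injective _ hι, card_image_of_injective _ hι] at h
      refine (key ε1 (min_le_left _ _)).trans (h.trans ?_)
      have h5 : B.image ι * (A.image ι).image (fun y => σ * y * σ⁻¹) =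
          (B * A.image (fun a => (g⁻¹)⁻¹ * a * g⁻¹)).image ι := by
        rw [Finset.image_mul, image_image, image_image]
        rfl
      rw [h5, card_image_of_injective _ hι]
  · have hBu : B ≠ univ := by
      rintro rfl
      rw [card_univ] at hB
      have h6 : (1:ℝ) < Fintype.card (alternatingGroup (Fin n)) := by exact_mod_cast hcard
      have h7 : (Fintype.card (alternatingGroup (Fin n)) : ℝ) ^ (1 - δ) <
          (Fintype.card (alternatingGroup (Fin n)) : ℝ) ^ (1 : ℝ) :=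
        Real.rpow_lt_rpow_of_exponent_lt h6 (by linarith)
      rw [Real.rpow_one] at h7
      linarith
    obtain ⟨g, hg⟩ := H n hn A B hBu
    exact ⟨g, (key (e n) ((min_le_right _ _).trans (H2 n hn (by omega)))).trans hg⟩

end Pool.Agent.MP_f20ab1_al
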