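import Mathlib

set_option linter.unusedVariables false
set_option linter.unusedSectionVars false

open Equiv Finset
open scoped Pointwise

namespace Pool.Agent.MP_f20ab1_al

variable {α : Type*} [Fintype α] [DecidableEq α]

/-- number of elements of `B` which agree with `x` on `T` -/
def cnt (B : Finset (Perm α)) (T : Finset α) (x : Perm α) : ℕ :=
  (B.filter (fun x' => ∀ i ∈ T, x' i = x i)).card

/-- number of elements of `B` which agree with `x` on `T` and take the value `v` at `i` -/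
def cntv (B : Finset (Perm α)) (T : Finset α) (x : Perm α) (i v : α) : ℕ :=
  (B.filter (fun x' => (∀ j ∈ T, x' j = x j) ∧ x' i = v)).card

/-- number of colourings with `q` colours invariant under `w` -/
def inv (q : ℕ) (w : Perm α) : ℕ := (univ.filter (fun φ : α → Fin q => φ ∘ w = φ)).card

/-- sum over all `σ` and `x ∈ B` of the logarithm of the number of elements of `B` which agree
with `x` on `σ E` -/
noncomputable def Phi (B : Finset (Perm α)) (E : Finset α) : ℝ :=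
  ∑ σ : Perm α, ∑ x ∈ B, Real.log (cnt B (E.image σ) x)

/-- One-step averaging: if `Ψ σ v` depends on `σ` only through its restriction to `P`, then the
sum of `Ψ σ (σ p)` is the sum over `σ` of the average of `Ψ σ v` over the values `v` outside
`σ P`. -/
theorem one_step (P : Finset α) (p : α) (hp : p ∉ P) (Ψ : Perm α → α → ℝ)
    (hΨ : ∀ σ σ' : Perm α, (∀ a ∈ P, σ a = σ' a) → ∀ v, Ψ σ v = Ψ σ' v) :
    ((Fintype.card α : ℝ) - P.card) * ∑ σ : Perm α, Ψ σ (σ p) =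
      ∑ σ : Perm α, ∑ v ∈ univ \ P.image σ, Ψ σ v := by
  have h1 : ∀ q ∈ univ \ P, ∑ σ : Perm α, Ψ σ (σ q) = ∑ σ : Perm α, Ψ σ (σ p) := by
    intro q hq
    have hq' : q ∉ P := (mem_sdiff.1 hq).2
    refine Fintype.sum_equiv (Equiv.mulRight (swap p q)) _ _ ?_
    intro σ
    simp only [Equiv.coe_mulRight, Perm.mul_apply, swap_apply_left]
    apply hΨ
    intro a ha
    rw [Perm.mul_apply, swap_apply_of_ne_of_ne]
    · rintro rfl; exact hp ha
    · rintro rfl; exact hq' ha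
  have h2 : ∑ q ∈ univ \ P, ∑ σ : Perm α, Ψ σ (σ q) =
      ((Fintype.card α : ℝ) - P.card) * ∑ σ : Perm α, Ψ σ (σ p) := by
    rw [sum_congr rfl h1, sum_const, nsmul_eq_mul, card_sdiff_of_subset (subset_univ _),
      card_univ, Nat.cast_sub (card_le_univ _)]
  rw [← h2, sum_comm]
  refine sum_congr rfl (fun σ _ => ?_)
  have h3 : univ \ P.image σ = (univ \ P).image σ := by
    ext v
    simp only [mem_sdiff, mem_univ, true_and, mem_image, not_exists, not_and]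
    constructor
    · intro h
      exact ⟨σ⁻¹ v, fun hv => h _ hv (by simp), by simp⟩
    · rintro ⟨a, ha, rfl⟩ b hb hab
      exact ha (σ.injective hab ▸ hb)
  rw [h3, sum_image (fun a _ b _ h => σ.injective h)]

/-- number of pairs `(x, σ)` with `x` and `x * (σ c σ⁻¹)` both in `B`, for given `σ` -/
def stay (B : Finset (Perm α)) (c σ : Perm α) : ℕ :=
  (B.filter (fun x => x * (σ * c * σ⁻¹) ∈ B)).card

theorem mulEnergy_eq (B A : Finset (Perm α)) (σ : Perm α) :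
    Finset.mulEnergy B (A.image (fun y => σ * y * σ⁻¹)) =
      ∑ y ∈ A, ∑ y' ∈ A, stay B (y * y'⁻¹) σ := by
  have h0 : ∀ y y' : Perm α, y ≠ y' → σ * y * σ⁻¹ ≠ σ * y' * σ⁻¹ := by
    intro y y' h h'
    exact h (by simpa using h')
  rw [Finset.mulEnergy]
  rw [← sum_product']
  simp only [stay]
  rw [← card_sigma]
  refine card_bij' (fun p _ => ⟨(σ⁻¹ * p.2.1 * σ, σ⁻¹ * p.2.2 * σ), p.1.1⟩)
    (fun q _ => ((q.2, q.2 * (σ * (q.1.1 * q.1.2⁻¹) * σ⁻¹)), (σ * q.1.1 * σ⁻¹, σ * q.1.2 * σ⁻¹)))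
    ?_ ?_ ?_ ?_
  · rintro ⟨⟨x, x'⟩, ⟨u, u'⟩⟩ h
    simp only [mem_filter, mem_product, mem_image] at h
    obtain ⟨⟨⟨hx, hx'⟩, ⟨y, hy, rfl⟩, ⟨y', hy', rfl⟩⟩, h⟩ := h
    simp only [mem_sigma, mem_product, mem_filter]
    refine ⟨⟨by simpa [mul_assoc] using hy, by simpa [mul_assoc] using hy'⟩, hx, ?_⟩
    have : x * (σ * (σ⁻¹ * (σ * y * σ⁻¹) * σ * (σ⁻¹ * (σ * y' * σ⁻¹) * σ)⁻¹) * σ⁻¹) = x' := by
      rw [eq_comm, ← eq_mul_inv_iff_mul_eq] at h
      rw [h]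
      group
    rw [this]
    exact hx'
  · rintro ⟨⟨y, y'⟩, x⟩ h
    simp only [mem_sigma, mem_product, mem_filter] at h
    simp only [mem_filter, mem_product, mem_image]
    refine ⟨⟨⟨h.2.1, h.2.2⟩, ⟨y, h.1.1, rfl⟩, ⟨y', h.1.2, rfl⟩⟩, ?_⟩
    group
  · rintro ⟨⟨x, x'⟩, ⟨u, u'⟩⟩ h
    simp only [mem_filter, mem_product, mem_image] at h
    obtain ⟨⟨⟨hx, hx'⟩, ⟨y, hy, rfl⟩, ⟨y', hy', rfl⟩⟩, h⟩ := h
    have h3 : x * (σ * (σ⁻¹ * (σ * y * σ⁻¹) * σ * (σ⁻¹ * (σ * y' * σ⁻¹) * σ)⁻¹) * σ⁻¹) = x' := by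
      rw [eq_comm, ← eq_mul_inv_iff_mul_eq] at h
      rw [h]
      group
    simp only [h3]
    simp [mul_assoc]
  · rintro ⟨⟨y, y'⟩, x⟩ h
    simp [mul_assoc]

/-- the energy bound, summed over a family of `σ` with varying subsets of `B` -/
theorem energy (S : Finset (Perm α)) (Bs : Perm α → Finset (Perm α)) (A : Finset (Perm α))
    (Z : ℝ) (hZ : ∀ σ ∈ S, ((Bs σ * A.image (fun y => σ * y * σ⁻¹)).card : ℝ) ≤ Z) :
    ((∑ σ ∈ S, ((Bs σ).card : ℝ)) * A.card) ^ 2 ≤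
      Z * S.card * ∑ σ ∈ S, ∑ y ∈ A, ∑ y' ∈ A, (stay (Bs σ) (y * y'⁻¹) σ : ℝ) := by
  have h1 : ∀ σ ∈ S, (((Bs σ).card : ℝ) * A.card) ^ 2 ≤
      Z * ∑ y ∈ A, ∑ y' ∈ A, (stay (Bs σ) (y * y'⁻¹) σ : ℝ) := by
    intro σ hσ
    have h := Finset.le_card_mul_mul_mulEnergy (Bs σ) (A.image (fun y => σ * y * σ⁻¹))
    rw [mulEnergy_eq, card_image_of_injective _ (fun y y' h => by simpa using h)] at h
    have h' : (((Bs σ).card : ℝ) ^ 2 * (A.card : ℝ) ^ 2) ≤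
        ((Bs σ * A.image (fun y => σ * y * σ⁻¹)).card : ℝ) *
          ∑ y ∈ A, ∑ y' ∈ A, (stay (Bs σ) (y * y'⁻¹) σ : ℝ) := by exact_mod_cast h
    rw [mul_pow]
    exact h'.trans (mul_le_mul_of_nonneg_right (hZ σ hσ) (by positivity))
  calc ((∑ σ ∈ S, ((Bs σ).card : ℝ)) * A.card) ^ 2
      = (∑ σ ∈ S, ((Bs σ).card : ℝ) * A.card) ^ 2 := by rw [sum_mul]
    _ ≤ S.card * ∑ σ ∈ S, (((Bs σ).card : ℝ) * A.card) ^ 2 := sq_sum_le_card_mul_sum_sq
    _ ≤ S.card * ∑ σ ∈ S, Z * ∑ y ∈ A, ∑ y' ∈ A, (stay (Bs σ) (y * y'⁻¹) σ : ℝ) :=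
        mul_le_mul_of_nonneg_left (sum_le_sum h1) (by positivity)
    _ = _ := by rw [← mul_sum]; ring

end Pool.Agent.MP_f20ab1_al
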