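import Pool.Agent.MP_f20ab1_al.Basic

set_option linter.unusedVariables false
set_option linter.unusedSectionVars false

open Equiv Finset
open scoped Pointwise

/-!
`card_commute_le`: choose a representative in each orbit of `w`; a `k` commuting with `w` is
determined by its values at representatives, so `#{k | k w = w k}` is at most the number of
`w`-invariant functions `α → Fin (q^3)`, which is `(inv q w)^3` (functions to `Fin q × Fin q × Fin q`).
-/

namespace Pool.Agent.MP_f20ab1_al

variable {α : Type*} [Fintype α] [DecidableEq α]

/-- representative of the orbit of `x` -/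
noncomputable def rep (w : Perm α) (x : α) : α :=
  (Quotient.mk (Perm.SameCycle.setoid w) x).out

theorem rep_sameCycle (w : Perm α) (x : α) : w.SameCycle (rep w x) x :=
  Quotient.exact (s := Perm.SameCycle.setoid w) (Quotient.out_eq _)

theorem rep_apply (w : Perm α) (x : α) : rep w (w x) = rep w x := by
  unfold rep
  congr 1
  apply Quotient.sound (s := Perm.SameCycle.setoid w)
  show w.SameCycle (w x) x
  exact ⟨-1, by simp⟩

theorem card_commute_le (w : Perm α) (q : ℕ) (hq : Fintype.card α ≤ q ^ 3) :
    (univ.filter (fun k : Perm α => k * w = w * k)).card ≤ inv q w ^ 3 := by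
  have hcard : Fintype.card α ≤ Fintype.card (Fin q × Fin q × Fin q) := by
    simp only [Fintype.card_prod, Fintype.card_fin]
    calc Fintype.card α ≤ q ^ 3 := hq
      _ = q * (q * q) := by ring
  obtain ⟨e⟩ := Function.Embedding.nonempty_of_card_le hcard
  set S := univ.filter (fun φ : α → Fin q => φ ∘ w = φ) with hS
  have h3 : (S ×ˢ S ×ˢ S).card = inv q w ^ 3 := by
    rw [card_product, card_product]
    show inv q w * (inv q w * inv q w) = _
    ring
  rw [← h3]
  refine card_le_card_of_injOn (fun k => (fun x => (e (k (rep w x))).1,
    fun x => (e (k (rep w x))).2.1, fun x => (e (k (rep w x))).2.2)) ?_ ?_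
  · intro k _
    simp only [coe_product, Set.mem_prod, mem_coe, hS, mem_filter, mem_univ, true_and]
    refine ⟨?_, ?_, ?_⟩ <;> ext x <;> simp [rep_apply]
  · intro k hk k' hk' h
    simp only [mem_coe, mem_filter, mem_univ, true_and] at hk hk'
    simp only [Prod.mk.injEq] at h
    obtain ⟨h1, h2, h3⟩ := h
    have key : ∀ x, k (rep w x) = k' (rep w x) := by
      intro x
      apply e.injective
      exact Prod.ext (congrFun h1 x) (Prod.ext (congrFun h2 x) (congrFun h3 x))
    ext x
    obtain ⟨i, hi⟩ := rep_sameCycle w x
    have hc : Commute k (w ^ i) := Commute.zpow_right (show Commute k w from hk) i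
    have hc' : Commute k' (w ^ i) := Commute.zpow_right (show Commute k' w from hk') i
    calc k x = (k * w ^ i) (rep w x) := by rw [Perm.mul_apply, hi]
      _ = (w ^ i) (k (rep w x)) := by rw [hc.eq, Perm.mul_apply]
      _ = (w ^ i) (k' (rep w x)) := by rw [key]
      _ = (k' * w ^ i) (rep w x) := by rw [hc'.eq, Perm.mul_apply]
      _ = k' x := by rw [Perm.mul_apply, hi]

end Pool.Agent.MP_f20ab1_al
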