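import Pool.Agent.MP_f20ab1_al.Basic

set_option linter.unusedVariables false
set_option linter.unusedSectionVars false

open Equiv Finset
open scoped Pointwise

namespace Pool.Agent.MP_f20ab1_al

section Abstract

variable {ι : Type*}

/-- one step of the martingale identity -/
theorem martingale_step (A : Finset ι) (r : ι → ι → Prop) [DecidableRel r]
    (hrefl : ∀ y, r y y) (hsymm : ∀ y y', r y y' → r y' y)
    (htrans : ∀ x y z, r x y → r y z → r x z)
    (g w : ι → ℝ) (hw : ∀ y ∈ A, 0 < w y)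
    (hg : ∀ y ∈ A, ∀ y' ∈ A, r y' y → g y' = g y) :
    ∑ y ∈ A, g y * (w y / ((∑ y' ∈ A.filter (fun y' => r y' y), w y') /
      ((A.filter (fun y' => r y' y)).card : ℝ))) = ∑ y ∈ A, g y := by
  classical
  set W : ι → ℝ := fun y => ∑ y' ∈ A.filter (fun y' => r y' y), w y' with hW
  have hWpos : ∀ y ∈ A, 0 < W y := by
    intro y hy
    exact sum_pos (fun y' hy' => hw y' (mem_filter.1 hy').1) ⟨y, mem_filter.2 ⟨hy, hrefl y⟩⟩
  have hfil : ∀ y y', r y' y → A.filter (fun x => r x y') = A.filter (fun x => r x y) := by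
    intro y y' h
    apply filter_congr
    intro x _
    exact ⟨fun hx => htrans _ _ _ hx h, fun hx => htrans _ _ _ hx (hsymm _ _ h)⟩
  have hWeq : ∀ y y', r y' y → W y' = W y := by
    intro y y' h
    simp only [hW, hfil y y' h]
  calc ∑ y ∈ A, g y * (w y / (W y / ((A.filter (fun y' => r y' y)).card : ℝ)))
      = ∑ y ∈ A, ∑ y' ∈ A, if r y' y then g y * w y / W y else 0 := by
        refine sum_congr rfl (fun y hy => ?_)
        rw [← sum_filter, sum_const, nsmul_eq_mul]
        have := (hWpos y hy).ne'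
        have hc : ((A.filter (fun y' => r y' y)).card : ℝ) ≠ 0 := by
          have : 0 < (A.filter (fun y' => r y' y)).card :=
            card_pos.2 ⟨y, mem_filter.2 ⟨hy, hrefl y⟩⟩
          positivity
        field_simp
    _ = ∑ y' ∈ A, ∑ y ∈ A, if r y' y then g y * w y / W y else 0 := sum_comm
    _ = ∑ y' ∈ A, g y' := by
        refine sum_congr rfl (fun y' hy' => ?_)
        have h1 : ∑ y ∈ A, (if r y' y then g y * w y / W y else 0) =
            ∑ y ∈ A.filter (fun y => r y y'), g y' / W y' * w y := by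
          rw [sum_filter]
          refine sum_congr rfl (fun y hy => ?_)
          by_cases h : r y' y
          · rw [if_pos h, if_pos (hsymm _ _ h), hg y hy y' hy' h, hWeq y y' h]; ring
          · rw [if_neg h, if_neg (fun h' => h (hsymm _ _ h'))]
        rw [h1, ← mul_sum]
        have := (hWpos y' hy').ne'
        change g y' / W y' * W y' = g y'
        field_simp

/-- the sum of the reciprocals of conditional probabilities -/
theorem sum_inv_prob (A : Finset ι) (r : ι → ι → Prop) [DecidableRel r]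
    (hrefl : ∀ y, r y y) (hsymm : ∀ y y', r y y' → r y' y)
    (htrans : ∀ x y z, r x y → r y z → r x z)
    {κ : Type*} [Fintype κ] [DecidableEq κ] (f : ι → κ) :
    ∑ y ∈ A, ((A.filter (fun y' => r y' y)).card : ℝ) /
      ((A.filter (fun y' => r y' y ∧ f y' = f y)).card : ℝ) ≤ Fintype.card κ * A.card := by
  classical
  set c : ι → ℝ := fun y => ((A.filter (fun y' => r y' y ∧ f y' = f y)).card : ℝ) with hc
  calc ∑ y ∈ A, ((A.filter (fun y' => r y' y)).card : ℝ) / c y
      = ∑ y ∈ A, ∑ y' ∈ A, if r y' y then 1 / c y else 0 := by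
        refine sum_congr rfl (fun y hy => ?_)
        rw [← sum_filter, sum_const, nsmul_eq_mul]
        ring
    _ = ∑ y' ∈ A, ∑ y ∈ A, if r y' y then 1 / c y else 0 := sum_comm
    _ ≤ ∑ y' ∈ A, (Fintype.card κ : ℝ) := by
        refine sum_le_sum (fun y' hy' => ?_)
        have h1 : ∑ y ∈ A, (if r y' y then 1 / c y else 0) =
            ∑ k : κ, ∑ y ∈ A.filter (fun y => r y y' ∧ f y = k), 1 / c y := by
          rw [← sum_fiberwise (s := A) (g := f)]
          refine sum_congr rfl (fun k _ => ?_)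
          rw [← sum_filter, filter_filter]
          refine sum_congr ?_ (fun _ _ => rfl)
          ext y
          simp only [mem_filter]
          constructor
          · rintro ⟨h1, h2, h3⟩; exact ⟨h1, hsymm _ _ h3, h2⟩
          · rintro ⟨h1, h2, h3⟩; exact ⟨h1, h3, hsymm _ _ h2⟩
        rw [h1]
        have h2 : ∀ k : κ, ∑ y ∈ A.filter (fun y => r y y' ∧ f y = k), 1 / c y ≤ 1 := by
          intro k
          have h3 : ∀ y ∈ A.filter (fun y => r y y' ∧ f y = k), 1 / c y =
              1 / ((A.filter (fun y => r y y' ∧ f y = k)).card : ℝ) := by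
            intro y hy
            obtain ⟨hy1, hy2, hy3⟩ := mem_filter.1 hy
            simp only [hc]
            congr 3
            apply filter_congr
            intro x _
            rw [hy3]
            exact ⟨fun h => ⟨htrans _ _ _ h.1 hy2, h.2⟩,
              fun h => ⟨htrans _ _ _ h.1 (hsymm _ _ hy2), h.2⟩⟩
          rw [sum_congr rfl h3, sum_const, nsmul_eq_mul]
          rcases Nat.eq_zero_or_pos (A.filter (fun y => r y y' ∧ f y = k)).card with h | h
          · rw [h]; simp
          · have : ((A.filter (fun y => r y y' ∧ f y = k)).card : ℝ) ≠ 0 := by positivity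
            field_simp
            exact le_refl _
        calc ∑ k : κ, ∑ y ∈ A.filter (fun y => r y y' ∧ f y = k), 1 / c y
            ≤ ∑ k : κ, (1:ℝ) := sum_le_sum (fun k _ => h2 k)
          _ = Fintype.card κ := by simp
    _ = Fintype.card κ * A.card := by rw [sum_const, nsmul_eq_mul]; ring

end Abstract

section General

variable {α : Type*} [Fintype α] [DecidableEq α]

theorem cnt_pos {A : Finset (Perm α)} {T : Finset α} {y : Perm α}
    (hy : y ∈ A) : 0 < cnt A T y :=
  card_pos.2 ⟨y, mem_filter.2 ⟨hy, fun _ _ => rfl⟩⟩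

theorem cnt_mono {A : Finset (Perm α)} {T T' : Finset α} {y : Perm α}
    (h : T ⊆ T') : cnt A T' y ≤ cnt A T y :=
  card_le_card (fun x hx => by
    rw [mem_filter] at hx ⊢
    exact ⟨hx.1, fun i hi => hx.2 i (h hi)⟩)

end General

section Tree

variable {n : ℕ}

/-- labels below `k` -/
def Tk (n k : ℕ) : Finset (Fin n) := univ.filter (fun i => i.val < k)

theorem mem_Tk {k : ℕ} {i : Fin n} : i ∈ Tk n k ↔ i.val < k := by simp [Tk]

theorem Tk_succ {k : ℕ} (hk : k < n) : Tk n (k + 1) = insert ⟨k, hk⟩ (Tk n k) := by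
  ext i
  simp only [mem_Tk, mem_insert, Fin.ext_iff]
  omega

/-- agreement on the labels below `k` -/
def ag (k : ℕ) (y' y : Perm (Fin n)) : Prop := ∀ i ∈ Tk n k, y' i = y i

instance (k : ℕ) : DecidableRel (ag (n := n) k) := fun _ _ => by unfold ag; infer_instance

theorem ag_refl (k : ℕ) (y : Perm (Fin n)) : ag k y y := fun _ _ => rfl
theorem ag_symm (k : ℕ) (y y' : Perm (Fin n)) (h : ag k y y') : ag k y' y :=
  fun i hi => (h i hi).symm
theorem ag_trans (k : ℕ) (x y z : Perm (Fin n)) (h : ag k x y) (h' : ag k y z) : ag k x z :=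
  fun i hi => (h i hi).trans (h' i hi)

theorem cnt_eq' {α : Type*} [Fintype α] [DecidableEq α] (B : Finset (Perm α)) (T : Finset α)
    (x : Perm α) (p : Perm α → Prop) [DecidablePred p]
    (hp : ∀ x', p x' ↔ ∀ i ∈ T, x' i = x i) : cnt B T x = (B.filter p).card := by
  unfold cnt
  congr 1
  ext x'
  simp only [mem_filter, hp]

theorem cnt_Tk (A : Finset (Perm (Fin n))) (k : ℕ) (y : Perm (Fin n)) :
    cnt A (Tk n k) y = (A.filter (fun y' => ag k y' y)).card :=
  cnt_eq' _ _ _ _ (fun _ => Iff.rfl)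

theorem cnt_Tk_succ (A : Finset (Perm (Fin n))) (j : Fin n) (y : Perm (Fin n)) :
    cnt A (Tk n (j.val + 1)) y = (A.filter (fun y' => ag j.val y' y ∧ y' j = y j)).card := by
  apply cnt_eq'
  intro y'
  rw [Tk_succ j.2]
  simp only [mem_insert, forall_eq_or_imp, ag]
  tauto

/-- average of the weight of label `j` over the class of `y` at level `j` -/
noncomputable def Zw (A : Finset (Perm (Fin n))) (wt : Fin n → Fin n → ℝ) (j : Fin n)
    (y : Perm (Fin n)) : ℝ :=
  (∑ y' ∈ A.filter (fun y' => ag j.val y' y), wt j (y' j)) /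
    ((A.filter (fun y' => ag j.val y' y)).card : ℝ)

theorem Zw_congr (A : Finset (Perm (Fin n))) (wt : Fin n → Fin n → ℝ) (j : Fin n)
    (y y' : Perm (Fin n)) (h : ag j.val y' y) : Zw A wt j y' = Zw A wt j y := by
  have h1 : A.filter (fun x => ag j.val x y') = A.filter (fun x => ag j.val x y) := by
    apply filter_congr
    intro x _
    exact ⟨fun hx => ag_trans _ _ _ _ hx h, fun hx => ag_trans _ _ _ _ hx (ag_symm _ _ _ h)⟩
  simp only [Zw, h1]

theorem sum_prod_eq (A : Finset (Perm (Fin n))) (wt : Fin n → Fin n → ℝ)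
    (hwt : ∀ j a, 0 < wt j a) (k : ℕ) (hk : k ≤ n) :
    ∑ y ∈ A, ∏ j ∈ Tk n k, (wt j (y j) / Zw A wt j y) = A.card := by
  induction k with
  | zero => simp [Tk]
  | succ k ih =>
    have hk' : k < n := hk
    rw [← ih hk'.le]
    have h1 := martingale_step A (ag k) (ag_refl k) (ag_symm k) (ag_trans k)
      (fun y => ∏ j ∈ Tk n k, (wt j (y j) / Zw A wt j y))
      (fun y => wt ⟨k, hk'⟩ (y ⟨k, hk'⟩)) (fun y _ => hwt _ _) ?_
    · rw [← h1]
      refine sum_congr rfl (fun y hy => ?_)
      rw [Tk_succ hk', prod_insert (by simp [mem_Tk]), mul_comm]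
      rfl
    · intro y hy y' hy' h
      refine prod_congr rfl (fun j hj => ?_)
      rw [h j hj, Zw_congr A wt j y y' (fun i hi => h i ?_)]
      rw [mem_Tk] at hi hj ⊢
      omega

theorem sum_prod_univ (A : Finset (Perm (Fin n))) (wt : Fin n → Fin n → ℝ)
    (hwt : ∀ j a, 0 < wt j a) :
    ∑ y ∈ A, ∏ j : Fin n, (wt j (y j) / Zw A wt j y) = A.card := by
  have h := sum_prod_eq A wt hwt n le_rfl
  have h1 : Tk n n = univ := by
    ext i; simp [mem_Tk]
  rwa [h1] at h

/-- conditional probability of the value of `y` at the label `j`, given the smaller labels -/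
noncomputable def nu (A : Finset (Perm (Fin n))) (j : Fin n) (y : Perm (Fin n)) : ℝ :=
  (cnt A (Tk n (j.val + 1)) y : ℝ) / cnt A (Tk n j.val) y

theorem nu_pos {A : Finset (Perm (Fin n))} {y : Perm (Fin n)} (hy : y ∈ A) (j : Fin n) :
    0 < nu A j y := by
  have h1 := cnt_pos (T := Tk n (j.val + 1)) hy
  have h2 := cnt_pos (T := Tk n j.val) hy
  unfold nu
  positivity

theorem nu_le_one {A : Finset (Perm (Fin n))} {y : Perm (Fin n)} (hy : y ∈ A) (j : Fin n) :
    nu A j y ≤ 1 := by
  have h2 := cnt_pos (T := Tk n j.val) hy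
  unfold nu
  rw [div_le_one (by exact_mod_cast h2)]
  exact_mod_cast cnt_mono (fun i hi => by rw [mem_Tk] at hi ⊢; omega)

theorem prod_nu {A : Finset (Perm (Fin n))} {y : Perm (Fin n)} (hy : y ∈ A) :
    ∏ j : Fin n, nu A j y = (A.card : ℝ)⁻¹ := by
  have h0 : ∀ k ≤ n, ∏ j ∈ Tk n k, nu A j y = (cnt A (Tk n k) y : ℝ) / A.card := by
    intro k
    induction k with
    | zero =>
      intro _
      have h1 : cnt A (Tk n 0) y = A.card := by
        unfold cnt
        congr 1
        ext y'
        simp [mem_Tk]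
      have h2 : (A.card : ℝ) ≠ 0 := by
        have := card_pos.2 ⟨y, hy⟩
        positivity
      rw [h1, div_self h2]
      simp [Tk]
    | succ k ih =>
      intro hk
      rw [Tk_succ hk, prod_insert (by simp [mem_Tk]), ih (by omega), ← Tk_succ hk]
      have h2 := cnt_pos (T := Tk n k) hy
      have h2' : (cnt A (Tk n k) y : ℝ) ≠ 0 := by positivity
      unfold nu
      field_simp
  have h1 := h0 n le_rfl
  have h2 : Tk n n = univ := by
    ext i; simp [mem_Tk]
  rw [h2] at h1
  rw [h1]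
  have h3 : cnt A univ y = 1 := by
    unfold cnt
    rw [card_eq_one]
    refine ⟨y, ?_⟩
    ext y'
    simp only [mem_filter, mem_univ, forall_true_left, mem_singleton]
    constructor
    · rintro ⟨_, h⟩; exact Equiv.ext h
    · rintro rfl; exact ⟨hy, fun _ => rfl⟩
  rw [h3]
  simp

theorem sum_log_nu {A : Finset (Perm (Fin n))} {y : Perm (Fin n)} (hy : y ∈ A) :
    ∑ j : Fin n, Real.log (nu A j y)⁻¹ = Real.log A.card := by
  have h1 := congrArg Real.log (prod_nu hy)
  rw [Real.log_prod (fun j _ => (nu_pos hy j).ne'), Real.log_inv] at h1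
  simp only [Real.log_inv]
  rw [sum_neg_distrib, h1, neg_neg]

theorem sum_nu_inv_le (A : Finset (Perm (Fin n))) (j : Fin n) :
    ∑ y ∈ A, (nu A j y)⁻¹ ≤ n * A.card := by
  have h := sum_inv_prob A (ag j.val) (ag_refl _) (ag_symm _) (ag_trans _)
    (fun y : Perm (Fin n) => y j)
  rw [Fintype.card_fin] at h
  refine le_trans (le_of_eq ?_) h
  refine sum_congr rfl (fun y _ => ?_)
  rw [nu, cnt_Tk_succ, cnt_Tk, inv_div]

theorem Zw_pos {A : Finset (Perm (Fin n))} {wt : Fin n → Fin n → ℝ} (hwt : ∀ j a, 0 < wt j a)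
    {y : Perm (Fin n)} (hy : y ∈ A) (j : Fin n) : 0 < Zw A wt j y := by
  have h1 : y ∈ A.filter (fun y' => ag j.val y' y) := mem_filter.2 ⟨hy, ag_refl _ _⟩
  refine div_pos (sum_pos (fun y' _ => hwt _ _) ⟨y, h1⟩) ?_
  exact_mod_cast card_pos.2 ⟨y, h1⟩

theorem log_growth (B A : Finset (Perm (Fin n))) (hB : B.Nonempty) (hA : A.Nonempty)
    (σ : Perm (Fin n)) (wt : Perm (Fin n) → Fin n → Fin n → ℝ) (hwt : ∀ z j a, 0 < wt z j a) :
    ∑ x ∈ B, ∑ y ∈ A, ∑ j, (Real.log (wt (x * (σ * y * σ⁻¹)) j (y j)) -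
        Real.log (Zw A (wt (x * (σ * y * σ⁻¹))) j y)) ≤
      B.card * A.card *
        (Real.log (B * A.image (fun y => σ * y * σ⁻¹)).card - Real.log B.card) := by
  classical
  set Z := B * A.image (fun y => σ * y * σ⁻¹) with hZ
  let Rt : Perm (Fin n) → Perm (Fin n) → ℝ := fun z y =>
    ∏ j : Fin n, (wt z j (y j) / Zw A (wt z) j y)
  have hRt : ∀ z, ∀ y ∈ A, 0 < Rt z y := fun z y hy =>
    prod_pos (fun j _ => div_pos (hwt _ _ _) (Zw_pos (hwt z) hy j))
  have hZne : Z.Nonempty := hB.mul (hA.image _)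
  have hbc : (0:ℝ) < B.card := by exact_mod_cast hB.card_pos
  have hac : (0:ℝ) < A.card := by exact_mod_cast hA.card_pos
  have hzc : (0:ℝ) < Z.card := by exact_mod_cast hZne.card_pos
  have h1 : ∑ x ∈ B, ∑ y ∈ A, Rt (x * (σ * y * σ⁻¹)) y ≤ Z.card * A.card := by
    rw [← sum_product']
    have h2 : ∑ p ∈ B ×ˢ A, Rt (p.1 * (σ * p.2 * σ⁻¹)) p.2 =
        ∑ q ∈ (B ×ˢ A).image (fun p : Perm (Fin n) × Perm (Fin n) =>
          (p.1 * (σ * p.2 * σ⁻¹), p.2)), Rt q.1 q.2 := by
      rw [sum_image]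
      rintro ⟨x, y⟩ _ ⟨x', y'⟩ _ h
      simp only [Prod.mk.injEq] at h
      obtain ⟨h1, rfl⟩ := h
      rw [mul_left_inj] at h1
      rw [h1]
    rw [h2]
    have h3 : ∑ q ∈ Z ×ˢ A, Rt q.1 q.2 = Z.card * A.card := by
      rw [sum_product]
      simp only [Rt]
      rw [sum_congr rfl (fun z _ => sum_prod_univ A (wt z) (hwt z)), sum_const, nsmul_eq_mul]
    rw [← h3]
    apply sum_le_sum_of_subset_of_nonneg
    · intro q hq
      rw [mem_image] at hq
      obtain ⟨⟨x, y⟩, hxy, rfl⟩ := hq
      rw [mem_product] at hxy ⊢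
      exact ⟨mul_mem_mul hxy.1 (mem_image_of_mem _ hxy.2), hxy.2⟩
    · intro q hq _
      exact (hRt _ _ (mem_product.1 hq).2).le
  have h4 : ∀ x ∈ B, ∀ y ∈ A, ∑ j, (Real.log (wt (x * (σ * y * σ⁻¹)) j (y j)) -
        Real.log (Zw A (wt (x * (σ * y * σ⁻¹))) j y)) ≤
      Real.log Z.card - Real.log B.card + (Rt (x * (σ * y * σ⁻¹)) y * (B.card / Z.card) - 1) := by
    intro x _ y hy
    set z := x * (σ * y * σ⁻¹)
    have h5 : ∑ j, (Real.log (wt z j (y j)) - Real.log (Zw A (wt z) j y)) =
        Real.log (Rt z y) := by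
      simp only [Rt]
      rw [Real.log_prod (fun j _ => (div_pos (hwt _ _ _) (Zw_pos (hwt z) hy j)).ne')]
      refine sum_congr rfl (fun j _ => ?_)
      rw [Real.log_div (hwt _ _ _).ne' (Zw_pos (hwt z) hy j).ne']
    rw [h5]
    have h6 := Real.log_le_sub_one_of_pos (x := Rt z y * (B.card / Z.card))
      (mul_pos (hRt z y hy) (by positivity))
    rw [Real.log_mul (hRt z y hy).ne' (by positivity), Real.log_div hbc.ne' hzc.ne'] at h6
    linarith
  calc _ ≤ ∑ x ∈ B, ∑ y ∈ A, (Real.log Z.card - Real.log B.card +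
        (Rt (x * (σ * y * σ⁻¹)) y * (B.card / Z.card) - 1)) :=
        sum_le_sum (fun x hx => sum_le_sum (fun y hy => h4 x hx y hy))
    _ = B.card * A.card * (Real.log Z.card - Real.log B.card) +
        ((∑ x ∈ B, ∑ y ∈ A, Rt (x * (σ * y * σ⁻¹)) y) * (B.card / Z.card)
          - B.card * A.card) := by
        simp only [sum_add_distrib, sum_sub_distrib, sum_const, nsmul_eq_mul, mul_one,
          sum_mul]
        ring
    _ ≤ B.card * A.card * (Real.log Z.card - Real.log B.card) +
        ((Z.card * A.card) * (B.card / Z.card) - B.card * A.card) := by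
        have := mul_le_mul_of_nonneg_right h1 (show (0:ℝ) ≤ B.card / Z.card by positivity)
        linarith
    _ = B.card * A.card * (Real.log Z.card - Real.log B.card) := by
        field_simp
        ring

end Tree

end Pool.Agent.MP_f20ab1_al
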