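import Pool.Agent.MP_f20ab1_al.Basic

set_option linter.unusedVariables false
set_option linter.unusedSectionVars false

open Equiv Finset
open scoped Pointwise

/-!
Colourings invariant under `c⁻¹ * (π * c * π⁻¹)`.

`sum_inv_le`: let `d = card α`, `w = c⁻¹ * (π * c * π⁻¹)`.  For `φ : α → Fin q` put `χ = φ ∘ π`;
then `φ ∘ w = φ` iff `(φ, φ ∘ c⁻¹) ∘ π = (χ, χ ∘ c⁻¹)`.  So the sum is the number of
`(φ, χ, π)` with that property.  For given `(φ, χ)` the number of `π` is `0` unless the types
`M a b = #{i | φ i = a, φ (c⁻¹ i) = b}` of `φ` and `χ` agree, and then it is at most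
`∏ (M a b)!` (`DomMulAct.stabilizer_card`).  Hence the sum is at most
`∑_M N_M^2 ∏ (M a b)!`, over functions `M : Fin q × Fin q → Fin (d+1)` with total sum `d`, where
`N_M` is the number of `φ` of type `M`.  With `s a b = sqrt (M a b / d)`, each `φ` of type `M` has
`∏ i, s (φ i) (φ (c⁻¹ i)) = ∏ a b, s a b ^ M a b`, and
`∑_φ ∏ i, s (φ i) (φ (c⁻¹ i)) ≤ (sqrt q)^f` with `f` the number of fixed points of `c`
(trace bound, see below), so `N_M^2 ≤ q^f d^d / ∏ (M a b)^(M a b)` and
`N_M^2 ∏ (M a b)! ≤ q^f d^d`.
Trace bound, general form, by induction on the finite type (remove a point): for matrices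
`X i : Fin q → Fin q → ℝ` with nonnegative entries, `n i ≥` Frobenius norm of `X i`,
`t i ≥` trace of `X i`:
`∑_φ ∏ i, X i (φ i) (φ (c i)) ≤ ∏ i, if c i = i then t i else n i`.
Removing the point `o` with `c i = o`, `c o = j`, `i ≠ o`: replace `X i` by `X i * X o`
(matrix product), whose Frobenius norm and (when `i = j`) trace are at most `n i * n o`.
-/

namespace Pool.Agent.MP_f20ab1_al

namespace InvAux

universe u

/-- Frobenius norm of a product -/
theorem frob_mul {q : ℕ} (X Y : Fin q → Fin q → ℝ) {n m : ℝ}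
    (hX : ∑ a, ∑ b, X a b ^ 2 ≤ n ^ 2) (hY : ∑ a, ∑ b, Y a b ^ 2 ≤ m ^ 2) :
    ∑ a, ∑ b, (∑ k, X a k * Y k b) ^ 2 ≤ (n * m) ^ 2 := by
  have h1 : ∀ a b, (∑ k, X a k * Y k b) ^ 2 ≤ (∑ k, X a k ^ 2) * ∑ k, Y k b ^ 2 :=
    fun a b => Finset.sum_mul_sq_le_sq_mul_sq _ _ _
  calc ∑ a, ∑ b, (∑ k, X a k * Y k b) ^ 2
      ≤ ∑ a, ∑ b, (∑ k, X a k ^ 2) * ∑ k, Y k b ^ 2 :=
        sum_le_sum fun a _ => sum_le_sum fun b _ => h1 a b
    _ = (∑ a, ∑ k, X a k ^ 2) * ∑ b, ∑ k, Y k b ^ 2 := by
        rw [sum_mul_sum]
    _ = (∑ a, ∑ k, X a k ^ 2) * ∑ k, ∑ b, Y k b ^ 2 := by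
        rw [sum_comm (s := univ) (t := univ) (f := fun b k => Y k b ^ 2)]
    _ ≤ n ^ 2 * m ^ 2 := by
        apply mul_le_mul hX hY
        · exact sum_nonneg fun _ _ => sum_nonneg fun _ _ => sq_nonneg _
        · positivity
    _ = (n * m) ^ 2 := by ring

theorem trace_mul {q : ℕ} (X Y : Fin q → Fin q → ℝ) {n m : ℝ} (hn : 0 ≤ n) (hm : 0 ≤ m)
    (hX : ∑ a, ∑ b, X a b ^ 2 ≤ n ^ 2) (hY : ∑ a, ∑ b, Y a b ^ 2 ≤ m ^ 2) :
    ∑ a, ∑ k, X a k * Y k a ≤ n * m := by
  have h1 : (∑ p : Fin q × Fin q, X p.1 p.2 * Y p.2 p.1) ^ 2 ≤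
      (∑ p : Fin q × Fin q, X p.1 p.2 ^ 2) * ∑ p : Fin q × Fin q, Y p.2 p.1 ^ 2 :=
    Finset.sum_mul_sq_le_sq_mul_sq _ _ _
  rw [Fintype.sum_prod_type, Fintype.sum_prod_type, Fintype.sum_prod_type] at h1
  simp only at h1
  rw [sum_comm (s := univ) (t := univ) (f := fun a b => Y b a ^ 2)] at h1
  refine le_of_sq_le_sq ?_ (by positivity)
  calc (∑ a, ∑ k, X a k * Y k a) ^ 2 ≤ _ := h1
    _ ≤ n ^ 2 * m ^ 2 := by
        apply mul_le_mul hX hY
        · exact sum_nonneg fun _ _ => sum_nonneg fun _ _ => sq_nonneg _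
        · positivity
    _ = (n * m) ^ 2 := by ring

/-- the trace bound for a permutation of a finite type -/
def TB (q : ℕ) (α : Type u) [Fintype α] : Prop :=
  ∀ [DecidableEq α] (c : Perm α) (X : α → Fin q → Fin q → ℝ) (n t : α → ℝ),
    (∀ i a b, 0 ≤ X i a b) → (∀ i, 0 ≤ n i) → (∀ i, 0 ≤ t i) →
    (∀ i, ∑ a, ∑ b, X i a b ^ 2 ≤ n i ^ 2) → (∀ i, ∑ a, X i a a ≤ t i) →
    ∑ φ : α → Fin q, ∏ i, X i (φ i) (φ (c i)) ≤ ∏ i, if c i = i then t i else n i

theorem TB_equiv {q : ℕ} {α β : Type u} [Fintype α] [Fintype β] (e : α ≃ β) (h : TB q α) :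
    TB q β := by
  classical
  intro _ c X n t hX hn ht hF hT
  have h1 := h (e.symm.permCongr c) (fun i => X (e i)) (fun i => n (e i)) (fun i => t (e i))
    (fun i => hX _) (fun i => hn _) (fun i => ht _) (fun i => hF _) (fun i => hT _)
  have h2 : ∑ φ : β → Fin q, ∏ i, X i (φ i) (φ (c i)) =
      ∑ ψ : α → Fin q, ∏ i, X (e i) (ψ i) (ψ (e.symm.permCongr c i)) := by
    refine Fintype.sum_equiv (e.symm.arrowCongr (Equiv.refl _)) _ _ fun φ => ?_
    rw [← Equiv.prod_comp e]
    refine prod_congr rfl fun i _ => ?_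
    simp [Equiv.arrowCongr, Equiv.permCongr_apply]
  have h3 : (∏ i : β, if c i = i then t i else n i) =
      ∏ i : α, if e.symm.permCongr c i = i then t (e i) else n (e i) := by
    rw [← Equiv.prod_comp e]
    refine prod_congr rfl fun i _ => ?_
    have : (e.symm.permCongr c i = i) ↔ (c (e i) = e i) := by
      rw [Equiv.permCongr_apply, Equiv.symm_symm, Equiv.symm_apply_eq]
    simp only [this]
  rw [h2, h3]
  convert h1

theorem TB_empty {q : ℕ} : TB q PEmpty.{u + 1} := by
  intro _ c X n t hX hn ht hF hT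
  simp

theorem TB_option {q : ℕ} (α : Type u) [Fintype α] (h : TB q α) : TB q (Option α) := by
  classical
  intro inst c X n t hX hn ht hF hT
  have key : ∀ g : (Option α → Fin q) → ℝ, ∑ φ : Option α → Fin q, g φ =
      ∑ ψ : α → Fin q, ∑ a : Fin q, g (Equiv.piOptionEquivProd.symm (a, ψ)) := by
    intro g
    rw [← Equiv.sum_comp (Equiv.piOptionEquivProd (β := fun _ : Option α => Fin q)).symm,
      Fintype.sum_prod_type, sum_comm]
  have e_none : ∀ (a : Fin q) (ψ : α → Fin q),
      (Equiv.piOptionEquivProd (β := fun _ : Option α => Fin q)).symm (a, ψ) none = a :=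
    fun _ _ => rfl
  have e_some : ∀ (a : Fin q) (ψ : α → Fin q) (i : α),
      (Equiv.piOptionEquivProd (β := fun _ : Option α => Fin q)).symm (a, ψ) (some i) = ψ i :=
    fun _ _ _ => rfl
  rw [key]
  simp only [Fintype.prod_option, e_none, e_some]
  by_cases hc : c none = none
  · -- `none` is a fixed point
    have hsome : ∀ i : α, c (some i) = some (removeNone c i) := by
      intro i
      have : c (some i) ≠ none := by
        intro h0
        have := c.injective (h0.trans hc.symm)
        simp at this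
      obtain ⟨x, hx⟩ := Option.ne_none_iff_exists'.mp this
      exact (removeNone_some c ⟨x, hx⟩).symm
    simp only [hsome, hc, e_none, e_some]
    have h1 := h (removeNone c) (fun i => X (some i)) (fun i => n (some i)) (fun i => t (some i))
      (fun i => hX _) (fun i => hn _) (fun i => ht _) (fun i => hF _) (fun i => hT _)
    simp only [Option.some.injEq, if_true]
    have h2 : ∑ ψ : α → Fin q, ∑ a : Fin q,
        X none a a * ∏ i, X (some i) (ψ i) (ψ (removeNone c i)) =
        (∑ a, X none a a) * ∑ ψ : α → Fin q, ∏ i, X (some i) (ψ i) (ψ (removeNone c i)) := by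
      rw [mul_sum]
      refine sum_congr rfl fun ψ _ => ?_
      rw [sum_mul]
    rw [h2]
    refine mul_le_mul (hT none) ?_ ?_ (ht none)
    · convert h1
    · exact sum_nonneg fun _ _ => prod_nonneg fun _ _ => hX _ _ _
  · obtain ⟨j, hj⟩ := Option.ne_none_iff_exists'.mp hc
    obtain ⟨i0, hi0⟩ : ∃ i0 : α, c (some i0) = none := by
      have : c.symm none ≠ none := by
        intro h0
        rw [Equiv.symm_apply_eq] at h0
        exact hc h0.symm
      obtain ⟨x, hx⟩ := Option.ne_none_iff_exists'.mp this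
      exact ⟨x, by rw [← hx]; simp⟩
    have hsome : ∀ i : α, i ≠ i0 → c (some i) = some (removeNone c i) := by
      intro i hi
      have : c (some i) ≠ none := by
        intro h0
        have := c.injective (h0.trans hi0.symm)
        exact hi (Option.some.inj this)
      obtain ⟨x, hx⟩ := Option.ne_none_iff_exists'.mp this
      exact (removeNone_some c ⟨x, hx⟩).symm
    have hj' : removeNone c i0 = j := by
      have := removeNone_none c hi0
      rw [hj] at this
      exact Option.some.inj this
    -- the new matrices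
    set X' : α → Fin q → Fin q → ℝ := fun i =>
      if i = i0 then fun a b => ∑ k, X (some i0) a k * X none k b else X (some i) with hX'
    set n' : α → ℝ := fun i => if i = i0 then n (some i0) * n none else n (some i) with hn'
    set t' : α → ℝ := fun i => if i = i0 then n (some i0) * n none else t (some i) with ht'
    have h1 := h (removeNone c) X' n' t' (by
        intro i a b
        simp only [hX']
        split_ifs
        · exact sum_nonneg fun k _ => mul_nonneg (hX _ _ _) (hX _ _ _)
        · exact hX _ _ _) (by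
        intro i
        simp only [hn']
        split_ifs
        · exact mul_nonneg (hn _) (hn _)
        · exact hn _) (by
        intro i
        simp only [ht']
        split_ifs
        · exact mul_nonneg (hn _) (hn _)
        · exact ht _) (by
        intro i
        simp only [hn', hX']
        split_ifs
        · exact frob_mul _ _ (hF _) (hF _)
        · exact hF _) (by
        intro i
        simp only [ht', hX']
        split_ifs
        · exact trace_mul _ _ (hn _) (hn _) (hF _) (hF _)
        · exact hT _)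
    have h2 : ∀ ψ : α → Fin q, ∑ a : Fin q,
        X none a ((Equiv.piOptionEquivProd (β := fun _ : Option α => Fin q)).symm (a, ψ) (c none)) *
          ∏ i, X (some i) (ψ i)
            ((Equiv.piOptionEquivProd (β := fun _ : Option α => Fin q)).symm (a, ψ) (c (some i))) =
        ∏ i, X' i (ψ i) (ψ (removeNone c i)) := by
      intro ψ
      rw [← mul_prod_erase univ (fun i => X' i (ψ i) (ψ (removeNone c i))) (mem_univ i0)]
      have h3 : X' i0 (ψ i0) (ψ (removeNone c i0)) =
          ∑ k, X (some i0) (ψ i0) k * X none k (ψ j) := by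
        simp only [hX', if_true, hj']
      rw [h3, sum_mul]
      refine sum_congr rfl fun a _ => ?_
      rw [← mul_prod_erase univ _ (mem_univ i0)]
      simp only [hj, hi0, e_none, e_some]
      have h4 : ∏ x ∈ univ.erase i0, X (some x) (ψ x)
          ((Equiv.piOptionEquivProd (β := fun _ : Option α => Fin q)).symm (a, ψ) (c (some x))) =
          ∏ x ∈ univ.erase i0, X' x (ψ x) (ψ (removeNone c x)) := by
        refine prod_congr rfl fun x hx => ?_
        have hx' : x ≠ i0 := (mem_erase.mp hx).1
        simp only [hX', if_neg hx', hsome x hx', e_some]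
      rw [h4]
      ring
    rw [sum_congr rfl fun ψ _ => h2 ψ]
    refine h1.trans (le_of_eq ?_)
    have hne : ¬ c none = none := hc
    rw [if_neg hne]
    rw [← mul_prod_erase univ (fun i => if removeNone c i = i then t' i else n' i) (mem_univ i0),
      ← mul_prod_erase univ (fun i => if c (some i) = some i then t (some i) else n (some i))
        (mem_univ i0)]
    have h5 : (if removeNone c i0 = i0 then t' i0 else n' i0) = n (some i0) * n none := by
      simp [ht', hn']
    have h6 : (if c (some i0) = some i0 then t (some i0) else n (some i0)) = n (some i0) := by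
      rw [hi0]; simp
    have h7 : ∏ x ∈ univ.erase i0, (if removeNone c x = x then t' x else n' x) =
        ∏ x ∈ univ.erase i0, (if c (some x) = some x then t (some x) else n (some x)) := by
      refine prod_congr rfl fun x hx => ?_
      have hx' : x ≠ i0 := (mem_erase.mp hx).1
      simp only [hsome x hx', Option.some.injEq, ht', hn', if_neg hx']
    simp only [h5, h6, h7]
    ring

theorem trace_bound {q : ℕ} (α : Type u) [Fintype α] : TB q α :=
  Fintype.induction_empty_option (P := fun α _ => TB q α)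
    (fun α β _ e h => @TB_equiv q α β (Fintype.ofEquiv β e.symm) _ e h)
    TB_empty (fun α _ h => TB_option α h) α

variable {α : Type*} [Fintype α] [DecidableEq α]

/-- the pair colouring -/
def col (c : Perm α) {q : ℕ} (φ : α → Fin q) : α → Fin q × Fin q := fun i => (φ i, φ (c⁻¹ i))

/-- the type of a colouring -/
def typ (c : Perm α) {q : ℕ} (φ : α → Fin q) : Fin q × Fin q → ℕ :=
  fun p => (univ.filter (fun i => col c φ i = p)).card

theorem count_perm {F : Type*} [Fintype F] [DecidableEq F] (f g : α → F) :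
    (univ.filter (fun π : Perm α => f ∘ π = g)).card ≤
      if (fun p => (univ.filter (fun i => f i = p)).card) =
        (fun p => (univ.filter (fun i => g i = p)).card) then
        ∏ p, ((univ.filter (fun i => g i = p)).card).factorial else 0 := by
  classical
  rcases (univ.filter (fun π : Perm α => f ∘ π = g)).eq_empty_or_nonempty with h | ⟨π₀, h⟩
  · rw [h]; simp
  · have h0 : f ∘ π₀ = g := by simpa using h
    have htyp : (fun p => (univ.filter (fun i => f i = p)).card) =
        (fun p => (univ.filter (fun i => g i = p)).card) := by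
      funext p
      symm
      refine card_bij (fun i _ => π₀ i) ?_ ?_ ?_
      · intro i hi
        simp only [mem_filter, mem_univ, true_and] at hi ⊢
        rw [← hi, ← h0]; rfl
      · intro i _ j _ hij
        exact π₀.injective hij
      · intro j hj
        simp only [mem_filter, mem_univ, true_and] at hj
        refine ⟨π₀⁻¹ j, ?_, by simp⟩
        simp only [mem_filter, mem_univ, true_and]
        rw [← h0]
        simpa using hj
    rw [if_pos htyp]
    have hstab := DomMulAct.stabilizer_card (f := g)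
    have h2 : (univ.filter (fun π : Perm α => f ∘ π = g)).card =
        Fintype.card {τ : Perm α // g ∘ τ = g} := by
      rw [Fintype.card_subtype]
      refine card_bij' (fun π _ => π₀⁻¹ * π) (fun τ _ => π₀ * τ) ?_ ?_ ?_ ?_
      · intro π hπ
        simp only [mem_filter, mem_univ, true_and] at hπ ⊢
        rw [← hπ]
        funext i
        have h3 := congrFun (hπ.trans h0.symm) (π₀⁻¹ (π i))
        simpa using h3
      · intro τ hτ
        simp only [mem_filter, mem_univ, true_and] at hτ ⊢
        funext i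
        have h3 := congrFun hτ i
        simp only [Function.comp_apply, Perm.mul_apply] at h3 ⊢
        rw [← h3, ← h0]; rfl
      · intro π _; simp
      · intro τ _; simp
    rw [h2, hstab]
    refine le_of_eq (prod_congr rfl fun p _ => ?_)
    rw [Fintype.card_subtype]

theorem cond_iff (c π : Perm α) {q : ℕ} (φ : α → Fin q) :
    φ ∘ (c⁻¹ * (π * c * π⁻¹) : Perm α) = φ ↔ col c φ ∘ π = col c (φ ∘ π) := by
  constructor
  · intro h
    funext i
    simp only [col, Function.comp_apply, Prod.mk.injEq, true_and]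
    have := congrFun h (π (c⁻¹ i))
    simpa using this
  · intro h
    funext i
    have := congrFun h (c (π⁻¹ i))
    simp only [col, Function.comp_apply, Prod.mk.injEq, true_and] at this
    simpa using this

/-- the key estimate for one type -/
theorem type_bound (c : Perm α) {q : ℕ} (φ₀ : α → Fin q) :
    (univ.filter (fun φ : α → Fin q => typ c φ = typ c φ₀)).card ^ 2 *
      ∏ p, (typ c φ₀ p).factorial ≤
      q ^ (univ.filter (fun i => c i = i)).card * Fintype.card α ^ Fintype.card α := by
  classical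
  set M : Fin q × Fin q → ℕ := typ c φ₀ with hM
  set d : ℕ := Fintype.card α with hd
  set N : ℕ := (univ.filter (fun φ : α → Fin q => typ c φ = M)).card with hN
  set f : ℕ := (univ.filter (fun i => c i = i)).card with hf
  have hsum : ∑ p, M p = d := by
    have := card_eq_sum_card_fiberwise (s := (univ : Finset α)) (t := (univ : Finset (Fin q × Fin q)))
      (f := col c φ₀) (fun _ _ => by simp)
    rw [hd, ← card_univ, this]
    rfl
  set s : Fin q → Fin q → ℝ := fun a b => Real.sqrt ((M (a, b) : ℝ) / d) with hs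
  have hs0 : ∀ a b, 0 ≤ s a b := fun a b => Real.sqrt_nonneg _
  have hssq : ∀ a b, s a b ^ 2 = (M (a, b) : ℝ) / d := fun a b => Real.sq_sqrt (by positivity)
  have hfrob : ∑ a, ∑ b, s a b ^ 2 ≤ (1 : ℝ) ^ 2 := by
    simp only [hssq]
    rw [← Fintype.sum_prod_type (f := fun p : Fin q × Fin q => (M p : ℝ) / d), ← sum_div,
      ← Nat.cast_sum, hsum, one_pow]
    exact div_self_le_one _
  have htr : ∑ a, s a a ≤ Real.sqrt q := by
    refine Real.le_sqrt_of_sq_le ?_
    have h1 : (∑ a : Fin q, (1 : ℝ) * s a a) ^ 2 ≤ (∑ _a : Fin q, (1 : ℝ) ^ 2) * ∑ a, s a a ^ 2 :=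
      Finset.sum_mul_sq_le_sq_mul_sq _ _ _
    simp only [one_mul, one_pow, sum_const, card_univ, Fintype.card_fin, nsmul_eq_mul, mul_one] at h1
    refine h1.trans ?_
    have h2 : ∑ a, s a a ^ 2 ≤ 1 := by
      refine le_trans (sum_le_sum fun a _ => ?_) (hfrob.trans (by norm_num))
      exact single_le_sum (f := fun b => s a b ^ 2) (fun _ _ => sq_nonneg _) (mem_univ a)
    calc (q : ℝ) * ∑ a, s a a ^ 2 ≤ q * 1 := by gcongr
      _ = q := mul_one _
  have htb := trace_bound (q := q) α c⁻¹ (fun _ => s) (fun _ => 1) (fun _ => Real.sqrt q)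
    (fun _ => hs0) (fun _ => zero_le_one) (fun _ => Real.sqrt_nonneg _) (fun _ => hfrob)
    (fun _ => htr)
  have hR : (∏ i : α, if c⁻¹ i = i then Real.sqrt q else 1) = Real.sqrt q ^ f := by
    have h1 : univ.filter (fun i : α => c⁻¹ i = i) = univ.filter (fun i => c i = i) := by
      ext i
      simp only [mem_filter, mem_univ, true_and]
      rw [Perm.inv_eq_iff_eq]
      exact eq_comm
    rw [prod_ite, prod_const, prod_const_one, mul_one, h1]
  rw [hR] at htb
  -- products for colourings of the given type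
  set P : ℝ := ∏ p : Fin q × Fin q, s p.1 p.2 ^ M p with hP
  have hprod : ∀ φ : α → Fin q, typ c φ = M → ∏ i, s (φ i) (φ (c⁻¹ i)) = P := by
    intro φ hφ
    have h1 : ∏ i, s (φ i) (φ (c⁻¹ i)) = ∏ i, (fun p : Fin q × Fin q => s p.1 p.2) (col c φ i) := rfl
    rw [h1, ← Finset.prod_fiberwise_of_maps_to (s := univ) (t := univ) (g := col c φ)
      (fun _ _ => mem_univ _)]
    refine prod_congr rfl fun p _ => ?_
    rw [prod_congr rfl (g := fun _ => s p.1 p.2) (by
      intro i hi
      simp only [mem_filter, mem_univ, true_and] at hi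
      simp only [hi]), prod_const, ← hφ]
    rfl
  have hP0 : 0 ≤ P := prod_nonneg fun p _ => pow_nonneg (hs0 _ _) _
  have hNP : (N : ℝ) * P ≤ Real.sqrt q ^ f := by
    refine le_trans ?_ htb
    have h1 : (N : ℝ) * P = ∑ φ ∈ univ.filter (fun φ : α → Fin q => typ c φ = M),
        ∏ i, s (φ i) (φ (c⁻¹ i)) := by
      rw [sum_congr rfl (g := fun _ => P) (by
        intro φ hφ
        simp only [mem_filter, mem_univ, true_and] at hφ
        exact hprod φ hφ), sum_const, nsmul_eq_mul]
    rw [h1]
    exact sum_le_sum_of_subset_of_nonneg (filter_subset _ _)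
      (fun φ _ _ => prod_nonneg fun _ _ => hs0 _ _)
  have hsq : (N : ℝ) ^ 2 * P ^ 2 ≤ (q : ℝ) ^ f := by
    have h1 : ((N : ℝ) * P) ^ 2 ≤ (Real.sqrt q ^ f) ^ 2 := by
      gcongr
    rw [mul_pow, ← pow_mul, mul_comm f 2, pow_mul, Real.sq_sqrt (by positivity)] at h1
    exact h1
  have hP2 : P ^ 2 * (d : ℝ) ^ d = ∏ p : Fin q × Fin q, (M p : ℝ) ^ M p := by
    rw [hP, ← prod_pow]
    have h1 : (d : ℝ) ^ d = ∏ p : Fin q × Fin q, (d : ℝ) ^ M p := by
      rw [prod_pow_eq_pow_sum, hsum]
    rw [h1, ← prod_mul_distrib]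
    refine prod_congr rfl fun p _ => ?_
    rw [← pow_mul, mul_comm (M p) 2, pow_mul, hssq, ← mul_pow]
    rcases Nat.eq_zero_or_pos d with h0 | h0
    · have : M p = 0 := by
        have := single_le_sum (f := M) (fun _ _ => Nat.zero_le _) (mem_univ p)
        omega
      rw [this]; simp
    · have : (d : ℝ) ≠ 0 := by exact_mod_cast h0.ne'
      rw [div_mul_cancel₀ _ this]
  have hfact : ∏ p, (((M p).factorial : ℕ) : ℝ) ≤ ∏ p : Fin q × Fin q, (M p : ℝ) ^ M p := by
    refine prod_le_prod (fun _ _ => by positivity) fun p _ => ?_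
    exact_mod_cast Nat.factorial_le_pow (M p)
  have hfinal : (N : ℝ) ^ 2 * ∏ p, (((M p).factorial : ℕ) : ℝ) ≤ (q : ℝ) ^ f * (d : ℝ) ^ d := by
    calc (N : ℝ) ^ 2 * ∏ p, (((M p).factorial : ℕ) : ℝ)
        ≤ (N : ℝ) ^ 2 * (P ^ 2 * (d : ℝ) ^ d) := by rw [hP2]; gcongr
      _ = ((N : ℝ) ^ 2 * P ^ 2) * (d : ℝ) ^ d := by ring
      _ ≤ (q : ℝ) ^ f * (d : ℝ) ^ d := by gcongr
  exact_mod_cast hfinal

end InvAux

open InvAux

variable {α : Type*} [Fintype α] [DecidableEq α]

theorem sum_inv_le (c : Perm α) (q : ℕ) :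
    ∑ π : Perm α, inv q (c⁻¹ * (π * c * π⁻¹)) ≤
      q ^ (univ.filter (fun i => c i = i)).card * Fintype.card α ^ Fintype.card α *
        (Fintype.card α + 1) ^ (q ^ 2) := by
  classical
  set R : ℕ := q ^ (univ.filter (fun i => c i = i)).card * Fintype.card α ^ Fintype.card α with hR
  -- step A
  have hA : ∑ π : Perm α, inv q (c⁻¹ * (π * c * π⁻¹)) ≤
      ∑ φ : α → Fin q, ∑ χ : α → Fin q,
        (univ.filter (fun π : Perm α => col c φ ∘ π = col c χ)).card := by
    have h1 : ∀ π : Perm α, inv q (c⁻¹ * (π * c * π⁻¹)) ≤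
        ∑ φ : α → Fin q, ∑ χ : α → Fin q, if col c φ ∘ π = col c χ then 1 else 0 := by
      intro π
      unfold inv
      rw [card_filter]
      refine sum_le_sum fun φ _ => ?_
      split_ifs with h
      · rw [cond_iff] at h
        refine le_trans ?_ (single_le_sum (f := fun χ : α → Fin q =>
          if col c φ ∘ π = col c χ then 1 else 0) (fun _ _ => Nat.zero_le _) (mem_univ (φ ∘ π)))
        simp only [h, if_true, le_refl]
      · exact Nat.zero_le _
    refine (sum_le_sum fun π _ => h1 π).trans (le_of_eq ?_)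
    rw [sum_comm]
    refine sum_congr rfl fun φ _ => ?_
    rw [sum_comm]
    refine sum_congr rfl fun χ _ => ?_
    rw [card_filter]
  refine hA.trans ?_
  -- step B
  have hB : ∀ φ : α → Fin q, ∑ χ : α → Fin q,
      (univ.filter (fun π : Perm α => col c φ ∘ π = col c χ)).card ≤
      (univ.filter (fun χ : α → Fin q => typ c χ = typ c φ)).card *
        ∏ p, (typ c φ p).factorial := by
    intro φ
    rw [← smul_eq_mul, ← sum_const, sum_filter]
    refine sum_le_sum fun χ _ => ?_
    refine (count_perm (col c φ) (col c χ)).trans ?_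
    by_cases h : typ c χ = typ c φ
    · rw [if_pos h, if_pos (show (fun p => (univ.filter (fun i => col c φ i = p)).card) =
        (fun p => (univ.filter (fun i => col c χ i = p)).card) from h.symm)]
      refine le_of_eq (prod_congr rfl fun p _ => ?_)
      rw [← h]; rfl
    · rw [if_neg h, if_neg (show ¬ (fun p => (univ.filter (fun i => col c φ i = p)).card) =
        (fun p => (univ.filter (fun i => col c χ i = p)).card) from fun h' => h h'.symm)]
  refine (sum_le_sum fun φ _ => hB φ).trans ?_
  -- step C: group by type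
  set T : Finset (Fin q × Fin q → ℕ) := univ.image (fun φ : α → Fin q => typ c φ) with hT
  have hgroup : ∑ φ : α → Fin q, (univ.filter (fun χ : α → Fin q => typ c χ = typ c φ)).card *
        ∏ p, (typ c φ p).factorial =
      ∑ M ∈ T, (univ.filter (fun χ : α → Fin q => typ c χ = M)).card ^ 2 *
        ∏ p, (M p).factorial := by
    rw [← Finset.sum_fiberwise_of_maps_to (s := univ) (t := T) (g := fun φ : α → Fin q => typ c φ)
      (fun φ _ => mem_image_of_mem _ (mem_univ φ))]
    refine sum_congr rfl fun M _ => ?_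
    rw [sum_congr rfl (g := fun _ => (univ.filter (fun χ : α → Fin q => typ c χ = M)).card *
        ∏ p, (M p).factorial) (by
      intro φ hφ
      simp only [mem_filter, mem_univ, true_and] at hφ
      simp only [hφ]), sum_const, smul_eq_mul]
    ring
  rw [hgroup]
  have hTcard : T.card ≤ (Fintype.card α + 1) ^ (q ^ 2) := by
    have hsub : T ⊆ Fintype.piFinset (fun _ : Fin q × Fin q => range (Fintype.card α + 1)) := by
      intro M hM
      rw [hT, mem_image] at hM
      obtain ⟨φ, _, rfl⟩ := hM
      rw [Fintype.mem_piFinset]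
      intro p
      rw [mem_range, Nat.lt_succ_iff]
      exact card_le_univ _
    refine (card_le_card hsub).trans (le_of_eq ?_)
    rw [Fintype.card_piFinset]
    simp [sq]
  calc ∑ M ∈ T, (univ.filter (fun χ : α → Fin q => typ c χ = M)).card ^ 2 * ∏ p, (M p).factorial
      ≤ ∑ M ∈ T, R := by
        refine sum_le_sum fun M hM => ?_
        rw [hT, mem_image] at hM
        obtain ⟨φ, _, rfl⟩ := hM
        exact type_bound c φ
    _ = T.card * R := by rw [sum_const, smul_eq_mul]
    _ ≤ (Fintype.card α + 1) ^ (q ^ 2) * R := Nat.mul_le_mul_right _ hTcard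
    _ = R * (Fintype.card α + 1) ^ (q ^ 2) := mul_comm _ _

end Pool.Agent.MP_f20ab1_al
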