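import Pool.Agent.MP_f20ab1_al.Commute
import Pool.Agent.MP_f20ab1_al.Invariant

set_option linter.unusedVariables false
set_option linter.unusedSectionVars false

open Equiv Finset
open scoped Pointwise

/-!
Superexponential decay for conjugates of elements with few fixed points.

Sketch. `d = card α`, `S = ∑ σ, stay U c σ = ∑_{x ∈ U} #{σ | x σcσ⁻¹ ∈ U}`.  By Cauchy-Schwarz
`S^2 ≤ U.card * ∑_{x : Perm α} #{σ | x σcσ⁻¹ ∈ U}^2
     = U.card * #{(y, σ, σ') | y ∈ U, y (σcσ⁻¹)⁻¹ (σ'cσ'⁻¹) ∈ U}`; substitute `σ' = σ π`: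
`(σcσ⁻¹)⁻¹ (σ'cσ'⁻¹) = σ w σ⁻¹` with `w = c⁻¹ * (π * c * π⁻¹)`.  For fixed `y, w`,
`#{σ | y σwσ⁻¹ ∈ U} ≤ min (d!) (U.card * #{k | k w = w k}) ≤ (d!)^(2/3) (U.card * #{k | ...})^(1/3)`,
and `#{k | k w = w k} ≤ (inv q w)^3` when `d ≤ q^3` (`card_commute_le`).  Hence
`S^2 ≤ U.card^2 * (d!)^(2/3) * U.card^(1/3) * ∑ π, inv q (c⁻¹ * (π * c * π⁻¹))
     ≤ U.card^2 * (d!)^(2/3) * U.card^(1/3) * q^f * d^d * (d+1)^(q^2)` (`sum_inv_le`),
with `f` the number of fixed points.  Take `q = ⌈d^(1/3)⌉`, use `d! ≥ (d/e)^d` and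
`U.card ≤ (d!)^(1-δ)`, `f ≤ δ d / 2`:
`S^2 / (U.card * d!)^2 ≤ exp (-(δ/3)(d log d - d) + (δ/2) d (log d / 3 + log 2) + d + 4 d^(2/3) log (d+1))`.
-/

namespace Pool.Agent.MP_f20ab1_al

section count

variable {α : Type} [Fintype α] [DecidableEq α]

/-- indicator function of `U` -/
noncomputable def ind (U : Finset (Perm α)) (x : Perm α) : ℝ := if x ∈ U then 1 else 0

theorem sum_stay_eq (U : Finset (Perm α)) (c : Perm α) :
    ∑ σ : Perm α, (stay U c σ : ℝ) = ∑ x ∈ U, ∑ σ : Perm α, ind U (x * (σ * c * σ⁻¹)) := by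
  rw [sum_comm]
  refine sum_congr rfl fun σ _ => ?_
  rw [stay, card_filter]
  push_cast
  rfl

theorem sum_sq_eq (U : Finset (Perm α)) (c : Perm α) :
    ∑ x : Perm α, (∑ σ : Perm α, ind U (x * (σ * c * σ⁻¹))) ^ 2 =
      ∑ π : Perm α, ∑ y ∈ U, ∑ σ : Perm α, ind U (y * (σ * (c⁻¹ * (π * c * π⁻¹)) * σ⁻¹)) := by
  have h1 : ∀ x : Perm α, (∑ σ : Perm α, ind U (x * (σ * c * σ⁻¹))) ^ 2 =
      ∑ σ : Perm α, ∑ π : Perm α, ind U (x * (σ * c * σ⁻¹)) *
        ind U (x * ((σ * π) * c * (σ * π)⁻¹)) := by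
    intro x
    rw [sq, sum_mul_sum]
    refine sum_congr rfl fun σ _ => ?_
    exact (Fintype.sum_equiv (Equiv.mulLeft σ) _ _ fun π => rfl).symm
  simp only [h1]
  rw [sum_comm]
  have h2 : ∀ σ : Perm α, ∑ x : Perm α, ∑ π : Perm α, ind U (x * (σ * c * σ⁻¹)) *
        ind U (x * ((σ * π) * c * (σ * π)⁻¹)) =
      ∑ π : Perm α, ∑ y ∈ U, ind U (y * (σ * (c⁻¹ * (π * c * π⁻¹)) * σ⁻¹)) := by
    intro σ
    rw [sum_comm]
    refine sum_congr rfl fun π _ => ?_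
    have h3 : ∑ y ∈ U, ind U (y * (σ * (c⁻¹ * (π * c * π⁻¹)) * σ⁻¹)) =
        ∑ y : Perm α, ind U y * ind U (y * (σ * (c⁻¹ * (π * c * π⁻¹)) * σ⁻¹)) := by
      simp only [ind, ite_mul, one_mul, zero_mul]
      rw [sum_ite_mem, univ_inter]
    rw [h3]
    refine Fintype.sum_equiv (Equiv.mulRight (σ * c * σ⁻¹)) _ _ fun x => ?_
    simp only [Equiv.coe_mulRight]
    congr 2
    group
  simp only [h2]
  rw [sum_comm]
  refine sum_congr rfl fun π _ => ?_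
  rw [sum_comm]

theorem fiber_bound (U : Finset (Perm α)) (y w : Perm α) :
    (univ.filter (fun σ : Perm α => y * (σ * w * σ⁻¹) ∈ U)).card ≤
      (univ.filter (fun k : Perm α => k * w = w * k)).card * U.card := by
  refine card_le_mul_card_image_of_maps_to (f := fun σ : Perm α => y * (σ * w * σ⁻¹))
    (fun σ hσ => (mem_filter.1 hσ).2) _ ?_
  intro u _
  rw [filter_filter]
  by_cases hne : ∃ σ0 : Perm α, y * (σ0 * w * σ0⁻¹) = u
  · obtain ⟨σ0, h0⟩ := hne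
    refine card_le_card_of_injOn (fun σ => σ0⁻¹ * σ) ?_ ?_
    · intro σ hσ
      simp only [coe_filter, mem_univ, true_and, Set.mem_ofPred_eq] at hσ ⊢
      have h1 : σ * w * σ⁻¹ = σ0 * w * σ0⁻¹ := mul_left_cancel (hσ.2.trans h0.symm)
      have h2 : σ * w = σ0 * w * σ0⁻¹ * σ := by rw [← h1]; group
      calc σ0⁻¹ * σ * w = σ0⁻¹ * (σ * w) := by group
        _ = w * (σ0⁻¹ * σ) := by rw [h2]; group
    · intro σ _ σ' _ h
      exact mul_left_cancel h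
  · have : (univ.filter (fun σ : Perm α => y * (σ * w * σ⁻¹) ∈ U ∧ y * (σ * w * σ⁻¹) = u)) = ∅ := by
      rw [filter_eq_empty_iff]
      intro σ _ h
      exact hne ⟨σ, h.2⟩
    rw [this]
    simp

theorem inner_bound (U : Finset (Perm α)) (y w : Perm α) (q : ℕ) (hq : Fintype.card α ≤ q ^ 3) :
    ∑ σ : Perm α, ind U (y * (σ * w * σ⁻¹)) ≤
      ((Fintype.card α).factorial : ℝ) ^ (2 / 3 : ℝ) * (U.card : ℝ) ^ (1 / 3 : ℝ) * inv q w := by
  have e : ∑ σ : Perm α, ind U (y * (σ * w * σ⁻¹)) =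
      ((univ.filter (fun σ : Perm α => y * (σ * w * σ⁻¹) ∈ U)).card : ℝ) := by
    rw [card_filter]
    push_cast
    rfl
  rw [e]
  set N := (univ.filter (fun σ : Perm α => y * (σ * w * σ⁻¹) ∈ U)).card with hN
  have h1 : (N : ℝ) ≤ ((Fintype.card α).factorial : ℝ) := by
    have : N ≤ Fintype.card (Perm α) := card_le_univ _
    rw [Fintype.card_perm] at this
    exact_mod_cast this
  have h2 : (N : ℝ) ≤ (U.card : ℝ) * (inv q w : ℝ) ^ 3 := by
    have := (fiber_bound U y w).trans (Nat.mul_le_mul_right _ (card_commute_le w q hq))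
    rw [mul_comm] at this
    exact_mod_cast this
  have hN0 : (0 : ℝ) ≤ N := Nat.cast_nonneg _
  have hU0 : (0 : ℝ) ≤ U.card := Nat.cast_nonneg _
  have hi0 : (0 : ℝ) ≤ inv q w := Nat.cast_nonneg _
  calc (N : ℝ) = (N : ℝ) ^ (2 / 3 : ℝ) * (N : ℝ) ^ (1 / 3 : ℝ) := by
        rw [← Real.rpow_add_of_nonneg hN0 (by norm_num) (by norm_num)]
        norm_num
    _ ≤ ((Fintype.card α).factorial : ℝ) ^ (2 / 3 : ℝ) *
        ((U.card : ℝ) * (inv q w : ℝ) ^ 3) ^ (1 / 3 : ℝ) := by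
        gcongr
    _ = _ := by
        rw [Real.mul_rpow hU0 (by positivity), mul_assoc]
        congr 2
        rw [← Real.rpow_natCast, ← Real.rpow_mul hi0]
        norm_num

theorem sum_stay_sq (U : Finset (Perm α)) (c : Perm α) (q : ℕ) (hq : Fintype.card α ≤ q ^ 3) :
    (∑ σ : Perm α, (stay U c σ : ℝ)) ^ 2 ≤
      (U.card : ℝ) ^ 2 * (((Fintype.card α).factorial : ℝ) ^ (2 / 3 : ℝ) *
        (U.card : ℝ) ^ (1 / 3 : ℝ) * (q ^ (univ.filter (fun i => c i = i)).card *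
          Fintype.card α ^ Fintype.card α * (Fintype.card α + 1) ^ (q ^ 2))) := by
  have h1 : (∑ σ : Perm α, (stay U c σ : ℝ)) ^ 2 ≤ U.card *
      ∑ x ∈ U, (∑ σ : Perm α, ind U (x * (σ * c * σ⁻¹))) ^ 2 := by
    rw [sum_stay_eq]
    exact sq_sum_le_card_mul_sum_sq
  have h2 : ∑ x ∈ U, (∑ σ : Perm α, ind U (x * (σ * c * σ⁻¹))) ^ 2 ≤
      ∑ x : Perm α, (∑ σ : Perm α, ind U (x * (σ * c * σ⁻¹))) ^ 2 :=
    sum_le_sum_of_subset_of_nonneg (subset_univ _) fun _ _ _ => sq_nonneg _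
  rw [sum_sq_eq] at h2
  set K : ℝ := ((Fintype.card α).factorial : ℝ) ^ (2 / 3 : ℝ) * (U.card : ℝ) ^ (1 / 3 : ℝ) with hK
  have hK0 : 0 ≤ K := by positivity
  have h3 : ∑ π : Perm α, ∑ y ∈ U, ∑ σ : Perm α, ind U (y * (σ * (c⁻¹ * (π * c * π⁻¹)) * σ⁻¹)) ≤
      U.card * K * ∑ π : Perm α, (inv q (c⁻¹ * (π * c * π⁻¹)) : ℝ) := by
    rw [mul_sum]
    refine sum_le_sum fun π _ => ?_
    calc ∑ y ∈ U, ∑ σ : Perm α, ind U (y * (σ * (c⁻¹ * (π * c * π⁻¹)) * σ⁻¹))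
        ≤ ∑ y ∈ U, K * inv q (c⁻¹ * (π * c * π⁻¹)) :=
          sum_le_sum fun y _ => inner_bound U y _ q hq
      _ = _ := by rw [sum_const, nsmul_eq_mul]; ring
  have h4 : ∑ π : Perm α, (inv q (c⁻¹ * (π * c * π⁻¹)) : ℝ) ≤
      (q : ℝ) ^ (univ.filter (fun i => c i = i)).card * (Fintype.card α : ℝ) ^ Fintype.card α *
        ((Fintype.card α : ℝ) + 1) ^ (q ^ 2) := by
    exact_mod_cast sum_inv_le c q
  calc (∑ σ : Perm α, (stay U c σ : ℝ)) ^ 2 ≤ U.card * (U.card * K *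
        ∑ π : Perm α, (inv q (c⁻¹ * (π * c * π⁻¹)) : ℝ)) :=
        h1.trans (mul_le_mul_of_nonneg_left (h2.trans h3) (Nat.cast_nonneg _))
    _ ≤ U.card * (U.card * K * ((q : ℝ) ^ (univ.filter (fun i => c i = i)).card *
        (Fintype.card α : ℝ) ^ Fintype.card α * ((Fintype.card α : ℝ) + 1) ^ (q ^ 2))) := by
        gcongr
    _ = _ := by ring

end count

/-- the final numerical estimate -/
theorem numeric (δ : ℝ) (h0 : 0 < δ) : ∃ d0 : ℕ, ∀ d : ℕ, d0 ≤ d → ∃ q : ℕ, d ≤ q ^ 3 ∧ 0 < q ∧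
    ∀ f : ℕ, (f : ℝ) ≤ δ / 2 * d →
    (q : ℝ) ^ f * (d : ℝ) ^ d * ((d : ℝ) + 1) ^ (q ^ 2) ≤
      (d.factorial : ℝ) ^ (1 + δ / 3) * Real.exp (-(δ / 24) * (d * Real.log d)) ^ 2 := by
  refine ⟨⌈Real.exp (12 * (25 + δ) / δ)⌉₊ + 1, fun d hd => ?_⟩
  have hd1 : Real.exp (12 * (25 + δ) / δ) ≤ d := by
    refine (Nat.le_ceil _).trans ?_
    exact_mod_cast (Nat.le_succ _).trans hd
  have hd2 : (1 : ℝ) ≤ d := by
    have : 1 ≤ d := (Nat.le_add_left 1 _).trans hd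
    exact_mod_cast this
  have hd0 : (0 : ℝ) < d := by linarith
  set L := Real.log d with hL
  have hLK : 12 * (25 + δ) / δ ≤ L := by
    rw [hL, Real.le_log_iff_exp_le hd0]
    exact hd1
  have hLK' : 12 * (25 + δ) ≤ L * δ := by
    rwa [div_le_iff₀ h0] at hLK
  set r : ℝ := (d : ℝ) ^ (1 / 3 : ℝ) with hr
  have hr1 : 1 ≤ r := Real.one_le_rpow hd2 (by norm_num)
  have hr3 : r ^ 3 = d := by
    rw [hr, ← Real.rpow_natCast, ← Real.rpow_mul hd0.le]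
    norm_num
  have hqr : r ≤ (⌈r⌉₊ : ℝ) := Nat.le_ceil _
  have hq2 : (⌈r⌉₊ : ℝ) ≤ 2 * r := by
    have := (Nat.ceil_lt_add_one (by linarith : (0 : ℝ) ≤ r)).le
    linarith
  have hq0 : (0 : ℝ) < (⌈r⌉₊ : ℝ) := by linarith
  refine ⟨⌈r⌉₊, ?_, by exact_mod_cast hq0, fun f hf => ?_⟩
  · have : (d : ℝ) ≤ (⌈r⌉₊ : ℝ) ^ 3 := by
      rw [← hr3]
      gcongr
    exact_mod_cast this
  set q := ⌈r⌉₊ with hq
  have hlogr : Real.log r = L / 3 := by
    rw [hr, Real.log_rpow hd0]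
    ring
  have hlog2 : Real.log 2 ≤ 1 := by
    have := Real.log_two_lt_d9
    linarith
  have hlogq : Real.log q ≤ 1 + L / 3 := by
    calc Real.log q ≤ Real.log (2 * r) := Real.log_le_log hq0 hq2
      _ = Real.log 2 + L / 3 := by rw [Real.log_mul (by norm_num) (by linarith), hlogr]
      _ ≤ _ := by linarith
  have hlogq0 : 0 ≤ Real.log q := Real.log_nonneg (by linarith)
  have hlogd : Real.log (d + 1) ≤ 6 * r := by
    have h1 := Real.log_le_rpow_div (x := (d : ℝ) + 1) (by linarith) (show (0 : ℝ) < 1 / 3 by norm_num)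
    have h2 : ((d : ℝ) + 1) ^ (1 / 3 : ℝ) ≤ 2 * r := by
      calc ((d : ℝ) + 1) ^ (1 / 3 : ℝ) ≤ (2 ^ 3 * (d : ℝ)) ^ (1 / 3 : ℝ) := by
            gcongr
            linarith
        _ = 2 * r := by
            rw [Real.mul_rpow (by norm_num) hd0.le, ← Real.rpow_natCast, ← Real.rpow_mul (by norm_num)]
            norm_num
            exact hr.symm
    calc Real.log (d + 1) ≤ ((d : ℝ) + 1) ^ (1 / 3 : ℝ) / (1 / 3) := h1
      _ ≤ 2 * r / (1 / 3) := by gcongr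
      _ = 6 * r := by ring
  have hlogd0 : 0 ≤ Real.log (d + 1) := Real.log_nonneg (by linarith)
  have hfac0 : (0 : ℝ) < (d.factorial : ℝ) := by exact_mod_cast Nat.factorial_pos d
  have hfac : d * L - d ≤ Real.log d.factorial := by
    have h1 := Real.pow_div_factorial_le_exp (d : ℝ) hd0.le d
    rw [div_le_iff₀ hfac0] at h1
    have h2 := Real.log_le_log (by positivity) h1
    rw [Real.log_pow, Real.log_mul (by positivity) hfac0.ne', Real.log_exp] at h2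
    linarith
  have hd00 : (0 : ℝ) < (d : ℝ) + 1 := by linarith
  refine (Real.log_le_log_iff (by positivity) (by positivity)).mp ?_
  rw [Real.log_mul (by positivity) (by positivity), Real.log_mul (by positivity) (by positivity),
    Real.log_pow, Real.log_pow, Real.log_pow, Real.log_mul (by positivity) (by positivity),
    Real.log_rpow hfac0, Real.log_pow, Real.log_exp, ← hL]
  push_cast
  have e1 : (f : ℝ) * Real.log q ≤ (δ / 2 * d) * (1 + L / 3) :=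
    mul_le_mul hf hlogq hlogq0 (by positivity)
  have e2 : (q : ℝ) ^ 2 * Real.log (d + 1) ≤ 24 * d := by
    calc (q : ℝ) ^ 2 * Real.log (d + 1) ≤ (2 * r) ^ 2 * (6 * r) := by
          gcongr
      _ = 24 * r ^ 3 := by ring
      _ = 24 * d := by rw [hr3]
  have e3 : (1 + δ / 3) * (d * L - d) ≤ (1 + δ / 3) * Real.log d.factorial := by
    gcongr
  have e4 : 12 * (25 + δ) * d ≤ L * δ * d := by
    gcongr
  nlinarith

theorem few_fixed (δ : ℝ) (h0 : 0 < δ) : ∃ κ : ℝ, 0 < κ ∧ ∃ d0 : ℕ,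
    ∀ (α : Type) [Fintype α] [DecidableEq α], d0 ≤ Fintype.card α →
    ∀ U : Finset (Perm α), (U.card : ℝ) ≤ ((Fintype.card α).factorial : ℝ) ^ (1 - δ) →
    ∀ c : Perm α, ((univ.filter (fun i => c i = i)).card : ℝ) ≤ δ / 2 * Fintype.card α →
    ∑ σ : Perm α, (stay U c σ : ℝ) ≤ U.card * (Fintype.card α).factorial *
      Real.exp (-κ * (Fintype.card α * Real.log (Fintype.card α))) := by
  obtain ⟨d0, hd0⟩ := numeric δ h0
  refine ⟨δ / 24, by positivity, d0, fun α _ _ hα U hU c hc => ?_⟩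
  obtain ⟨q, hq, hq0, hnum⟩ := hd0 _ hα
  have h1 := sum_stay_sq U c q hq
  have h2 := hnum _ hc
  set d := Fintype.card α with hd
  set f := (univ.filter (fun i => c i = i)).card with hf
  have hfac : (0 : ℝ) < (d.factorial : ℝ) := by exact_mod_cast Nat.factorial_pos d
  have hS0 : (0 : ℝ) ≤ ∑ σ : Perm α, (stay U c σ : ℝ) := sum_nonneg fun _ _ => Nat.cast_nonneg _
  refine (sq_le_sq₀ hS0 (by positivity)).mp ?_
  refine h1.trans ?_
  have hU3 : (U.card : ℝ) ^ (1 / 3 : ℝ) ≤ (d.factorial : ℝ) ^ ((1 - δ) / 3) := by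
    calc (U.card : ℝ) ^ (1 / 3 : ℝ) ≤ ((d.factorial : ℝ) ^ (1 - δ)) ^ (1 / 3 : ℝ) := by
          gcongr
      _ = _ := by
          rw [← Real.rpow_mul hfac.le]
          congr 1
          ring
  calc (U.card : ℝ) ^ 2 * ((d.factorial : ℝ) ^ (2 / 3 : ℝ) * (U.card : ℝ) ^ (1 / 3 : ℝ) *
        ((q : ℝ) ^ f * (d : ℝ) ^ d * ((d : ℝ) + 1) ^ (q ^ 2)))
      ≤ (U.card : ℝ) ^ 2 * ((d.factorial : ℝ) ^ (2 / 3 : ℝ) * (d.factorial : ℝ) ^ ((1 - δ) / 3) *
        ((d.factorial : ℝ) ^ (1 + δ / 3) * Real.exp (-(δ / 24) * (d * Real.log d)) ^ 2)) := by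
        gcongr
    _ = (U.card : ℝ) ^ 2 * ((d.factorial : ℝ) ^ 2 *
          Real.exp (-(δ / 24) * (d * Real.log d)) ^ 2) := by
        have : (d.factorial : ℝ) ^ (2 / 3 : ℝ) * (d.factorial : ℝ) ^ ((1 - δ) / 3) *
            (d.factorial : ℝ) ^ (1 + δ / 3) = (d.factorial : ℝ) ^ 2 := by
          rw [← Real.rpow_add hfac, ← Real.rpow_add hfac, ← Real.rpow_natCast]
          congr 1
          push_cast
          ring
        rw [← mul_assoc (_ * _), this]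
    _ = _ := by ring

end Pool.Agent.MP_f20ab1_al
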