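import Pool.Agent.MP_f20ab1_al.Basic

set_option linter.unusedVariables false
set_option linter.unusedSectionVars false

open Equiv Finset
open scoped Pointwise

/-!
Entropy facts (Han's inequality) for the uniform distribution on `B`.

Sketch. Put `F T = ∑ x ∈ B, log (cnt B T x)`.
(a) `F T + F (insert i (insert j T)) ≥ F (insert i T) + F (insert j T)`: by `log u ≤ u - 1` it is
enough that `∑ x ∈ B, cnt (T+i) x * cnt (T+j) x / (cnt T x * cnt (T+i+j) x) ≤ B.card`; write
`cnt (T+i) x * cnt (T+j) x` as the number of pairs `(y, y')` in `B` with `y = x` on `T+i`,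
`y' = x` on `T+j`, swap the sums; for fixed `(y, y')` the relevant `x` form at most one class
for agreement on `T+i+j`, so the sum over them of `1 / cnt (T+i+j) x` is at most one, and it
vanishes unless `y = y'` on `T`.
(b) `Phi B E = ∑ σ, F (E.image σ)` depends only on `E.card`, is convex and nonincreasing in it,
equals `n! * B.card * log B.card` for `E = ∅` and `0` for `E = univ`.
(c) conclude.
-/

namespace Pool.Agent.MP_f20ab1_al

variable {α : Type*} [Fintype α] [DecidableEq α]

namespace Han

lemma cnt_pos {B : Finset (Perm α)} (T : Finset α) {x : Perm α} (hx : x ∈ B) :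
    0 < cnt B T x :=
  card_pos.2 ⟨x, mem_filter.2 ⟨hx, fun _ _ => rfl⟩⟩

lemma cnt_congr (B : Finset (Perm α)) {T : Finset α} {x y : Perm α} (h : ∀ i ∈ T, x i = y i) :
    cnt B T x = cnt B T y := by
  unfold cnt
  congr 1
  ext z
  simp only [mem_filter, and_congr_right_iff]
  intro _
  exact ⟨fun hz i hi => (hz i hi).trans (h i hi), fun hz i hi => (hz i hi).trans (h i hi).symm⟩

lemma class_sum_le (B : Finset (Perm α)) (S : Finset α) (C : Finset (Perm α)) (hC : C ⊆ B)
    (h : ∀ x ∈ C, ∀ y ∈ C, ∀ i ∈ S, x i = y i) : ∑ x ∈ C, (1 / (cnt B S x : ℝ)) ≤ 1 := by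
  rcases C.eq_empty_or_nonempty with rfl | ⟨x0, hx0⟩
  · simp
  · have h1 : ∀ x ∈ C, (1 / (cnt B S x : ℝ)) = 1 / (cnt B S x0 : ℝ) := by
      intro x hx
      rw [cnt_congr B (h x hx x0 hx0)]
    rw [sum_congr rfl h1, sum_const, nsmul_eq_mul, mul_one_div]
    have hpos : (0 : ℝ) < cnt B S x0 := by exact_mod_cast cnt_pos S (hC hx0)
    rw [div_le_one hpos]
    have : C.card ≤ cnt B S x0 := by
      refine card_le_card ?_
      intro x hx
      exact mem_filter.2 ⟨hC hx, h x hx x0 hx0⟩
    exact_mod_cast this

/-- the entropy functional -/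
noncomputable def F (B : Finset (Perm α)) (T : Finset α) : ℝ :=
  ∑ x ∈ B, Real.log (cnt B T x)

lemma ratio_sum_le (B : Finset (Perm α)) (T : Finset α) (i j : α) :
    ∑ x ∈ B, ((cnt B (insert i T) x : ℝ) * cnt B (insert j T) x /
      (cnt B T x * cnt B (insert i (insert j T)) x)) ≤ B.card := by
  have e1 : ∀ x ∈ B, ((cnt B (insert i T) x : ℝ) * cnt B (insert j T) x /
      (cnt B T x * cnt B (insert i (insert j T)) x)) =
      ∑ y ∈ B, ∑ y' ∈ B, (if (∀ k ∈ insert i T, y k = x k) ∧ (∀ k ∈ insert j T, y' k = x k) then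
        1 / ((cnt B T x : ℝ) * cnt B (insert i (insert j T)) x) else 0) := by
    intro x _
    have c1 : (cnt B (insert i T) x : ℝ) =
        ∑ y ∈ B, if (∀ k ∈ insert i T, y k = x k) then (1 : ℝ) else 0 := by
      rw [cnt, sum_boole]
    have c2 : (cnt B (insert j T) x : ℝ) =
        ∑ y ∈ B, if (∀ k ∈ insert j T, y k = x k) then (1 : ℝ) else 0 := by
      rw [cnt, sum_boole]
    rw [c1, c2, sum_mul_sum, sum_div]
    refine sum_congr rfl (fun y _ => ?_)
    rw [sum_div]
    refine sum_congr rfl (fun y' _ => ?_)
    by_cases h1 : (∀ k ∈ insert i T, y k = x k) <;> by_cases h2 : (∀ k ∈ insert j T, y' k = x k)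
    · simp only [if_pos h1, if_pos h2, if_pos (And.intro h1 h2), one_mul]
    · have h3 : ¬ ((∀ k ∈ insert i T, y k = x k) ∧ (∀ k ∈ insert j T, y' k = x k)) :=
        fun h => h2 h.2
      rw [if_neg h3, if_neg h2, mul_zero, zero_div]
    · have h3 : ¬ ((∀ k ∈ insert i T, y k = x k) ∧ (∀ k ∈ insert j T, y' k = x k)) :=
        fun h => h1 h.1
      rw [if_neg h3, if_neg h1, zero_mul, zero_div]
    · have h3 : ¬ ((∀ k ∈ insert i T, y k = x k) ∧ (∀ k ∈ insert j T, y' k = x k)) :=
        fun h => h1 h.1
      rw [if_neg h3, if_neg h1, zero_mul, zero_div]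
  rw [sum_congr rfl e1, sum_comm]
  have e2 : ∀ y ∈ B, ∑ x ∈ B, ∑ y' ∈ B,
      (if (∀ k ∈ insert i T, y k = x k) ∧ (∀ k ∈ insert j T, y' k = x k) then
        1 / ((cnt B T x : ℝ) * cnt B (insert i (insert j T)) x) else 0) ≤ 1 := by
    intro y hy
    rw [sum_comm]
    have hposy : (0 : ℝ) < cnt B T y := by exact_mod_cast cnt_pos T hy
    have e3 : ∀ y' ∈ B, ∑ x ∈ B,
        (if (∀ k ∈ insert i T, y k = x k) ∧ (∀ k ∈ insert j T, y' k = x k) then
        1 / ((cnt B T x : ℝ) * cnt B (insert i (insert j T)) x) else 0) ≤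
        if (∀ k ∈ T, y' k = y k) then 1 / (cnt B T y : ℝ) else 0 := by
      intro y' _
      rw [← sum_filter]
      by_cases hyy : ∀ k ∈ T, y' k = y k
      · rw [if_pos hyy]
        have e4 : ∀ x ∈ B.filter (fun x => (∀ k ∈ insert i T, y k = x k) ∧
            (∀ k ∈ insert j T, y' k = x k)),
            1 / ((cnt B T x : ℝ) * cnt B (insert i (insert j T)) x) =
            1 / (cnt B T y : ℝ) * (1 / (cnt B (insert i (insert j T)) x : ℝ)) := by
          intro x hx
          rw [mem_filter] at hx
          rw [cnt_congr B (T := T) (x := x) (y := y)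
            (fun k hk => (hx.2.1 k (mem_insert_of_mem hk)).symm), one_div_mul_one_div]
        rw [sum_congr rfl e4, ← mul_sum]
        have h := class_sum_le B (insert i (insert j T))
          (B.filter (fun x => (∀ k ∈ insert i T, y k = x k) ∧ (∀ k ∈ insert j T, y' k = x k)))
          (filter_subset _ _) (by
            intro x hx z hz k hk
            rw [mem_filter] at hx hz
            rcases mem_insert.1 hk with rfl | hk
            · exact (hx.2.1 k (mem_insert_self _ _)).symm.trans (hz.2.1 k (mem_insert_self _ _))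
            · exact (hx.2.2 k hk).symm.trans (hz.2.2 k hk))
        calc 1 / (cnt B T y : ℝ) * _ ≤ 1 / (cnt B T y : ℝ) * 1 :=
              mul_le_mul_of_nonneg_left h (by positivity)
          _ = _ := mul_one _
      · rw [if_neg hyy]
        apply le_of_eq
        apply sum_eq_zero
        intro x hx
        exfalso
        rw [mem_filter] at hx
        exact hyy (fun k hk => (hx.2.2 k (mem_insert_of_mem hk)).trans
          (hx.2.1 k (mem_insert_of_mem hk)).symm)
    refine (sum_le_sum e3).trans ?_
    rw [← sum_filter, sum_const, nsmul_eq_mul, mul_one_div]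
    rw [div_le_one hposy]
    exact le_of_eq rfl
  calc ∑ y ∈ B, ∑ x ∈ B, ∑ y' ∈ B,
      (if (∀ k ∈ insert i T, y k = x k) ∧ (∀ k ∈ insert j T, y' k = x k) then
        1 / ((cnt B T x : ℝ) * cnt B (insert i (insert j T)) x) else 0) ≤ ∑ y ∈ B, (1 : ℝ) :=
        sum_le_sum e2
    _ = B.card := by simp

lemma F_super (B : Finset (Perm α)) (T : Finset α) (i j : α) :
    F B (insert i T) + F B (insert j T) ≤ F B (insert i (insert j T)) + F B T := by
  have h : ∑ x ∈ B, (Real.log (cnt B (insert i T) x) + Real.log (cnt B (insert j T) x) -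
      (Real.log (cnt B T x) + Real.log (cnt B (insert i (insert j T)) x))) ≤ 0 := by
    have h1 : ∀ x ∈ B, (Real.log (cnt B (insert i T) x) + Real.log (cnt B (insert j T) x) -
      (Real.log (cnt B T x) + Real.log (cnt B (insert i (insert j T)) x))) ≤
      (cnt B (insert i T) x : ℝ) * cnt B (insert j T) x /
      (cnt B T x * cnt B (insert i (insert j T)) x) - 1 := by
      intro x hx
      have p1 : (0 : ℝ) < cnt B (insert i T) x := by exact_mod_cast cnt_pos _ hx
      have p2 : (0 : ℝ) < cnt B (insert j T) x := by exact_mod_cast cnt_pos _ hx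
      have p3 : (0 : ℝ) < cnt B T x := by exact_mod_cast cnt_pos _ hx
      have p4 : (0 : ℝ) < cnt B (insert i (insert j T)) x := by exact_mod_cast cnt_pos _ hx
      rw [← Real.log_mul p1.ne' p2.ne', ← Real.log_mul p3.ne' p4.ne',
        ← Real.log_div (by positivity) (by positivity)]
      exact Real.log_le_sub_one_of_pos (by positivity)
    refine (sum_le_sum h1).trans ?_
    rw [sum_sub_distrib]
    have := ratio_sum_le B T i j
    simp only [sum_const, nsmul_eq_mul, mul_one]
    linarith
  rw [sum_sub_distrib, sum_add_distrib, sum_add_distrib] at h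
  unfold F
  linarith

lemma Phi_eq (B : Finset (Perm α)) (E : Finset α) : Phi B E = ∑ σ : Perm α, F B (E.image σ) :=
  rfl

lemma Phi_super (B : Finset (Perm α)) (E : Finset α) (i j : α) :
    Phi B (insert i E) + Phi B (insert j E) ≤ Phi B (insert i (insert j E)) + Phi B E := by
  simp only [Phi_eq, ← sum_add_distrib]
  refine sum_le_sum (fun σ _ => ?_)
  simp only [image_insert]
  exact F_super B _ _ _

lemma Phi_image (B : Finset (Perm α)) (E : Finset α) (π : Perm α) :
    Phi B (E.image π) = Phi B E := by
  simp only [Phi_eq]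
  refine Fintype.sum_equiv (Equiv.mulRight π) _ _ (fun σ => ?_)
  rw [image_image]
  rfl

lemma Phi_swap (B : Finset (Perm α)) (E : Finset α) {a b : α} (ha : a ∉ E) (hb : b ∉ E) :
    Phi B (insert a E) = Phi B (insert b E) := by
  rw [← Phi_image B (insert a E) (swap a b)]
  congr 1
  rw [image_insert, swap_apply_left]
  congr 1
  ext v
  rw [mem_image]
  constructor
  · rintro ⟨u, hu, rfl⟩
    rw [swap_apply_of_ne_of_ne]
    · exact hu
    · rintro rfl; exact ha hu
    · rintro rfl; exact hb hu
  · intro hv
    refine ⟨v, hv, ?_⟩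
    rw [swap_apply_of_ne_of_ne]
    · rintro rfl; exact ha hv
    · rintro rfl; exact hb hv

lemma Phi_empty (B : Finset (Perm α)) :
    Phi B ∅ = (Fintype.card α).factorial * (B.card * Real.log B.card) := by
  simp [Phi, cnt, Fintype.card_perm]

lemma Phi_nonneg (B : Finset (Perm α)) (E : Finset α) : 0 ≤ Phi B E :=
  sum_nonneg fun σ _ => sum_nonneg fun x _ => Real.log_natCast_nonneg _

lemma Phi_univ (B : Finset (Perm α)) : Phi B univ = 0 := by
  rw [Phi_eq]
  apply sum_eq_zero
  intro σ _
  apply sum_eq_zero
  intro x hx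
  have : cnt B (univ.image σ) x = 1 := by
    rw [cnt, card_eq_one]
    refine ⟨x, ?_⟩
    ext y
    simp only [mem_filter, mem_singleton]
    constructor
    · rintro ⟨_, h⟩
      ext i
      exact h i (mem_image.2 ⟨σ⁻¹ i, mem_univ _, by simp⟩)
    · rintro rfl
      exact ⟨hx, fun _ _ => rfl⟩
  rw [this]; simp

/-- the drop is nonincreasing -/
lemma drop_anti (B : Finset (Perm α)) (E : Finset α) (a b : α) :
    Phi B (insert b E) - Phi B (insert a (insert b E)) ≤ Phi B E - Phi B (insert a E) := by
  have := Phi_super B E a b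
  linarith

lemma step_strong (B : Finset (Perm α)) (E : Finset α) : ∀ (a : α), a ∉ E →
    ((E.card : ℝ) + 1) * (Phi B E - Phi B (insert a E)) ≤ Phi B ∅ - Phi B (insert a E) := by
  induction E using Finset.induction_on with
  | empty => intro a _; simp
  | @insert b E hb ih =>
    intro a ha
    have haE : a ∉ E := fun h => ha (mem_insert_of_mem h)
    rw [card_insert_of_notMem hb]
    push_cast
    have h1 := drop_anti B E a b
    have h2 := ih b hb
    rw [Phi_swap B E haE hb] at h1
    have h3 : ((E.card : ℝ) + 1) * (Phi B (insert b E) - Phi B (insert a (insert b E))) ≤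
        ((E.card : ℝ) + 1) * (Phi B E - Phi B (insert b E)) :=
      mul_le_mul_of_nonneg_left h1 (by positivity)
    nlinarith

lemma top_side (B : Finset (Perm α)) (m : ℕ) : ∀ (E : Finset α) (a : α), a ∉ E →
    Fintype.card α - E.card = m →
    Phi B E ≤ ((Fintype.card α : ℝ) - E.card) * (Phi B E - Phi B (insert a E)) := by
  induction m with
  | zero =>
    intro E a ha hm
    exfalso
    have h1 : E.card < Fintype.card α := by
      rw [card_lt_iff_ne_univ]
      rintro rfl
      exact ha (mem_univ a)
    omega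
  | succ m ih =>
    intro E a ha hm
    have hle : (insert a E).card ≤ Fintype.card α := card_le_univ _
    rw [card_insert_of_notMem ha] at hle
    by_cases hu : insert a E = univ
    · have hc : E.card + 1 = Fintype.card α := by
        rw [← card_insert_of_notMem ha, hu, card_univ]
      rw [hu, Phi_univ, ← hc]
      push_cast
      linarith
    · have : ∃ b, b ∉ insert a E := by
        by_contra h
        push Not at h
        exact hu (eq_univ_of_forall h)
      obtain ⟨b, hb⟩ := this
      have hbE : b ∉ E := fun h => hb (mem_insert_of_mem h)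
      have h1 := ih (insert a E) b hb (by rw [card_insert_of_notMem ha]; omega)
      have h2 := drop_anti B E b a
      rw [Phi_swap B E hbE ha] at h2
      rw [card_insert_of_notMem ha] at h1
      push_cast at h1
      have h3 : (0 : ℝ) ≤ (Fintype.card α : ℝ) - (E.card + 1) := by
        have : ((E.card + 1 : ℕ) : ℝ) ≤ Fintype.card α := by exact_mod_cast hle
        push_cast at this
        linarith
      have h4 := mul_le_mul_of_nonneg_left h2 h3
      nlinarith

end Han

open Han

theorem Phi_le (B : Finset (Perm α)) (E : Finset α) :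
    (Fintype.card α : ℝ) * Phi B E ≤ ((Fintype.card α : ℝ) - E.card) *
      ((Fintype.card α).factorial * (B.card * Real.log B.card)) := by
  rw [← Phi_empty]
  by_cases hu : E = univ
  · subst hu
    rw [Phi_univ, card_univ]
    simp
  have : ∃ b, b ∉ E := by
    by_contra h
    push Not at h
    exact hu (eq_univ_of_forall h)
  obtain ⟨a, ha⟩ := this
  rcases E.eq_empty_or_nonempty with rfl | ⟨b, hb⟩
  · simp
  · have hE : insert b (E.erase b) = E := insert_erase hb
    have hb' : b ∉ E.erase b := notMem_erase b E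
    have ha' : a ∉ E.erase b := fun h => ha (mem_of_mem_erase h)
    have h1 := step_strong B (E.erase b) b hb'
    have h2 := top_side B _ E a ha rfl
    have h3 := drop_anti B (E.erase b) a b
    rw [Phi_swap B _ ha' hb', hE] at h3
    rw [hE] at h1
    have hc : ((E.erase b).card : ℝ) + 1 = E.card := by
      have : (E.erase b).card + 1 = E.card := card_erase_add_one hb
      exact_mod_cast this
    rw [hc] at h1
    have hcn : (0 : ℝ) ≤ (Fintype.card α : ℝ) - E.card := by
      have : (E.card : ℝ) ≤ Fintype.card α := by exact_mod_cast card_le_univ E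
      linarith
    have h4 : (E.card : ℝ) * Phi B E ≤
        E.card * (((Fintype.card α : ℝ) - E.card) * (Phi B E - Phi B (insert a E))) :=
      mul_le_mul_of_nonneg_left h2 (by positivity)
    have h5 := mul_le_mul_of_nonneg_left h3 (by positivity : (0 : ℝ) ≤ E.card)
    have h6 := mul_le_mul_of_nonneg_left (h5.trans h1) hcn
    nlinarith

theorem Phi_step (B : Finset (Perm α)) (E : Finset α) (a : α) (ha : a ∉ E) :
    ((E.card : ℝ) + 1) * (Phi B E - Phi B (insert a E)) ≤
      (Fintype.card α).factorial * (B.card * Real.log B.card) := by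
  rw [← Phi_empty]
  have h1 := step_strong B E a ha
  have h2 := Phi_nonneg B (insert a E)
  linarith

end Pool.Agent.MP_f20ab1_al
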