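import Pool.Agent.MP_f20ab1_al.Han

set_option linter.unusedVariables false
set_option linter.unusedSectionVars false

open Equiv Finset
open scoped Pointwise

/-!
Heavy entries. Sketch of `heavy_count`: `Phi B E - Phi B (insert a E)` is the sum over `σ` and
`x ∈ B` of `log (cnt B (E.image σ) x / cnt B (insert (σ a) (E.image σ)) x)`, a nonnegative
quantity which exceeds `(1 - δ/4) log N0` for each non-heavy pair `(x, σ)`.  Use `Phi_step` with
`E.card + 1 ≥ (1 - δ/2) n` and `log B.card ≤ (1 - δ) n log n`; the proportion of non-heavy pairs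
is at most `(1-δ) log n / ((1-δ/2)(1-δ/4) log N0) ≤ 1 - δ/8` for large `n`.
-/

namespace Pool.Agent.MP_f20ab1_al

variable {α : Type*} [Fintype α] [DecidableEq α]

/-- the conditional probability of the value `x i`, given the values of `x` on `T`, is at least
`θ`, for the uniform distribution on `B` -/
def Heavy (B : Finset (Perm α)) (T : Finset α) (θ : ℝ) (x : Perm α) (i : α) : Prop :=
  θ * cnt B T x ≤ cnt B (insert i T) x

/-- the positions `i` outside `T` at which the value `v` is heavy, given `x` on `T` -/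
noncomputable def heavyPos (B : Finset (Perm α)) (T : Finset α) (θ : ℝ) (x : Perm α) (v : α) :
    Finset α :=
  by classical exact (univ \ T).filter (fun i => θ * cnt B T x ≤ cntv B T x i v)

theorem card_heavyPos_le (B : Finset (Perm α)) (T : Finset α) (θ : ℝ) (hθ : 0 < θ) (x : Perm α)
    (hx : 0 < cnt B T x) (v : α) : ((heavyPos B T θ x v).card : ℝ) ≤ θ⁻¹ := by
  classical
  have hc : (0 : ℝ) < cnt B T x := by exact_mod_cast hx
  have h1 : ((heavyPos B T θ x v).card : ℝ) * (θ * cnt B T x) ≤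
      ∑ i ∈ heavyPos B T θ x v, (cntv B T x i v : ℝ) := by
    rw [← nsmul_eq_mul, ← sum_const]
    refine sum_le_sum (fun i hi => ?_)
    unfold heavyPos at hi
    exact (mem_filter.1 hi).2
  have h2 : ∑ i ∈ heavyPos B T θ x v, (cntv B T x i v : ℝ) ≤ cnt B T x := by
    have h3 : ∑ i ∈ heavyPos B T θ x v, cntv B T x i v =
        ((heavyPos B T θ x v).biUnion
          (fun i => B.filter (fun x' => (∀ j ∈ T, x' j = x j) ∧ x' i = v))).card := by
      rw [card_biUnion]
      · rfl
      · intro i _ j _ hij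
        rw [Function.onFun, Finset.disjoint_left]
        intro y hy hy'
        rw [mem_filter] at hy hy'
        exact hij (y.injective (hy.2.2.trans hy'.2.2.symm))
    have h4 : ∑ i ∈ heavyPos B T θ x v, cntv B T x i v ≤ cnt B T x := by
      rw [h3]
      refine card_le_card ?_
      intro y hy
      rw [mem_biUnion] at hy
      obtain ⟨i, _, hy⟩ := hy
      rw [mem_filter] at hy
      exact mem_filter.2 ⟨hy.1, hy.2.1⟩
    exact_mod_cast h4
  have h5 := h1.trans h2
  rw [← mul_assoc] at h5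
  have h6 : ((heavyPos B T θ x v).card : ℝ) * θ ≤ 1 := by
    by_contra hcon
    push Not at hcon
    have := mul_lt_mul_of_pos_right hcon hc
    linarith
  rw [← one_div, le_div_iff₀ hθ]
  exact h6

lemma cnt_anti (B : Finset (Perm α)) {T T' : Finset α} (h : T ⊆ T') (x : Perm α) :
    cnt B T' x ≤ cnt B T x := by
  refine card_le_card ?_
  intro y hy
  rw [mem_filter] at hy ⊢
  exact ⟨hy.1, fun i hi => hy.2 i (h hi)⟩

/-- the arithmetic at the end of `heavy_count` -/
lemma heavy_arith (δ P H ln lN n : ℝ) (h0 : 0 < δ) (h1 : δ ≤ 1 / 2) (hP : 0 < P) (hn : 0 < n)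
    (hlN : 0 < lN) (hkey : (1 - δ) * ln ≤ (1 - 7 * δ / 8) * lN)
    (c3 : (1 - δ / 2) * n * ((P - H) * ((1 - δ / 4) * lN)) ≤ P * ((1 - δ) * (n * ln))) :
    δ / 8 * P ≤ H := by
  have c4 : (1 - δ / 2) * ((P - H) * ((1 - δ / 4) * lN)) ≤ P * ((1 - δ) * ln) := by
    have : n * ((1 - δ / 2) * ((P - H) * ((1 - δ / 4) * lN))) ≤ n * (P * ((1 - δ) * ln)) := by
      calc n * ((1 - δ / 2) * ((P - H) * ((1 - δ / 4) * lN)))
          = (1 - δ / 2) * n * ((P - H) * ((1 - δ / 4) * lN)) := by ring
        _ ≤ _ := c3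
        _ = _ := by ring
    exact le_of_mul_le_mul_left this hn
  by_contra hcon
  push Not at hcon
  have c5 : (1 - δ / 8) * P < P - H := by linarith
  have hLpos : 0 < (1 - δ / 4) * lN := mul_pos (by linarith) hlN
  have c6 : (1 - δ / 2) * ((1 - δ / 8) * P * ((1 - δ / 4) * lN)) <
      (1 - δ / 2) * ((P - H) * ((1 - δ / 4) * lN)) :=
    mul_lt_mul_of_pos_left (mul_lt_mul_of_pos_right c5 hLpos) (by linarith)
  have c7 : (1 - 7 * δ / 8) ≤ (1 - δ / 2) * ((1 - δ / 8) * (1 - δ / 4)) := by
    have e1 : 0 ≤ δ ^ 2 := by positivity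
    have e2 : δ ^ 3 ≤ δ ^ 2 := by
      have : δ ^ 3 = δ ^ 2 * δ := by ring
      rw [this]
      nlinarith
    nlinarith
  have c8 : P * ((1 - 7 * δ / 8) * lN) ≤ (1 - δ / 2) * ((1 - δ / 8) * P * ((1 - δ / 4) * lN)) := by
    calc P * ((1 - 7 * δ / 8) * lN)
        ≤ P * (((1 - δ / 2) * ((1 - δ / 8) * (1 - δ / 4))) * lN) :=
          mul_le_mul_of_nonneg_left (mul_le_mul_of_nonneg_right c7 hlN.le) hP.le
      _ = _ := by ring
  have c9 : P * ((1 - δ) * ln) ≤ P * ((1 - 7 * δ / 8) * lN) :=
    mul_le_mul_of_nonneg_left hkey hP.le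
  linarith

open Classical in
theorem heavy_count (δ : ℝ) (h0 : 0 < δ) (h1 : δ ≤ 1 / 2) : ∃ n1 : ℕ, ∀ n : ℕ, n1 ≤ n →
    ∀ B : Finset (Perm (Fin n)), B.Nonempty → (B.card : ℝ) ≤ (n.factorial : ℝ) ^ (1 - δ) →
    ∀ E : Finset (Fin n), E.card = n - ⌊δ * n / 2⌋₊ → ∀ a, a ∉ E →
    δ / 8 * (n.factorial * B.card) ≤ ∑ σ : Perm (Fin n), ((B.filter (fun x =>
      Heavy B (E.image σ) ((⌊δ * n / 2⌋₊ : ℝ) ^ (-(1 - δ / 4))) x (σ a))).card : ℝ) := by
  have htend : Filter.Tendsto (fun n : ℕ => Real.log (n : ℝ)) Filter.atTop Filter.atTop :=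
    Real.tendsto_log_atTop.comp tendsto_natCast_atTop_atTop
  have hev1 := htend.eventually_ge_atTop (8 / δ * Real.log (4 / δ) + 1)
  have hev2 := (tendsto_natCast_atTop_atTop (R := ℝ)).eventually_ge_atTop (4 / δ)
  obtain ⟨n1, hn1⟩ := Filter.eventually_atTop.1 (hev1.and hev2)
  refine ⟨n1, ?_⟩
  intro n hn B hB hBc E hE a ha
  obtain ⟨hlog, hn4⟩ := hn1 n hn
  have hn0 : (0 : ℝ) < n := lt_of_lt_of_le (by positivity) hn4
  set N0 := ⌊δ * n / 2⌋₊ with hN0
  have hδn : 4 ≤ δ * n := by
    rw [div_le_iff₀ h0] at hn4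
    linarith
  have hN0ge : δ * n / 4 ≤ (N0 : ℝ) := by
    have := Nat.lt_floor_add_one (δ * n / 2)
    rw [← hN0] at this
    linarith
  have hN0le : (N0 : ℝ) ≤ δ * n / 2 := Nat.floor_le (by positivity)
  have hN01 : (1 : ℝ) ≤ N0 := by linarith
  have hN0pos : (0 : ℝ) < N0 := by linarith
  have hN0n : N0 ≤ n := by
    have : (N0 : ℝ) ≤ n := by nlinarith
    exact_mod_cast this
  -- logarithm of N0
  have hlogN : Real.log n - Real.log (4 / δ) ≤ Real.log N0 := by
    rw [← Real.log_div hn0.ne' (by positivity)]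
    apply Real.log_le_log (by positivity)
    calc (n : ℝ) / (4 / δ) = δ * n / 4 := by field_simp
      _ ≤ N0 := hN0ge
  have hl4 : 0 ≤ Real.log (4 / δ) := by
    apply Real.log_nonneg
    rw [le_div_iff₀ h0]
    linarith
  have hlogn : 0 < Real.log n := by
    have : 0 ≤ 8 / δ * Real.log (4 / δ) := by positivity
    linarith
  have hkey : (1 - δ) * Real.log n ≤ (1 - 7 * δ / 8) * Real.log N0 := by
    have e1 : Real.log (4 / δ) ≤ δ / 8 * Real.log n := by
      have : 8 / δ * Real.log (4 / δ) ≤ Real.log n := by linarith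
      calc Real.log (4 / δ) = δ / 8 * (8 / δ * Real.log (4 / δ)) := by field_simp
        _ ≤ δ / 8 * Real.log n := mul_le_mul_of_nonneg_left this (by positivity)
    have e2 : (1 - 7 * δ / 8) * (Real.log n - Real.log (4 / δ)) ≤
        (1 - 7 * δ / 8) * Real.log N0 :=
      mul_le_mul_of_nonneg_left hlogN (by linarith)
    have e3 : (1 - 7 * δ / 8) * Real.log (4 / δ) ≤ 1 * Real.log (4 / δ) :=
      mul_le_mul_of_nonneg_right (by linarith) hl4
    linarith
  have hlogN0 : 0 < Real.log N0 := by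
    have e1 : 0 < (1 - δ) * Real.log n := mul_pos (by linarith) hlogn
    have e2 : 0 < (1 - 7 * δ / 8) * Real.log N0 := lt_of_lt_of_le e1 hkey
    exact (pos_iff_pos_of_mul_pos e2).1 (by linarith)
  set θ : ℝ := (N0 : ℝ) ^ (-(1 - δ / 4)) with hθ
  have hθpos : 0 < θ := Real.rpow_pos_of_pos hN0pos _
  have hlogθ : Real.log θ = -(1 - δ / 4) * Real.log N0 := Real.log_rpow hN0pos _
  set L : ℝ := (1 - δ / 4) * Real.log N0 with hL
  set P : ℝ := n.factorial * B.card with hP
  have hBpos : (0 : ℝ) < B.card := by exact_mod_cast hB.card_pos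
  have hfpos : (0 : ℝ) < n.factorial := by exact_mod_cast n.factorial_pos
  have hPpos : 0 < P := mul_pos hfpos hBpos
  set H : ℝ := ∑ σ : Perm (Fin n), ((B.filter (fun x =>
      Heavy B (E.image σ) θ x (σ a))).card : ℝ) with hH
  -- claim 1
  have claim1 : (P - H) * L ≤ Phi B E - Phi B (insert a E) := by
    have e1 : Phi B E - Phi B (insert a E) = ∑ σ : Perm (Fin n), ∑ x ∈ B,
        (Real.log (cnt B (E.image σ) x) -
          Real.log (cnt B (insert (σ a) (E.image σ)) x)) := by
      unfold Phi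
      rw [← sum_sub_distrib]
      refine sum_congr rfl (fun σ _ => ?_)
      rw [← sum_sub_distrib, image_insert]
    have e2 : (P - H) * L = ∑ σ : Perm (Fin n), ∑ x ∈ B,
        (if Heavy B (E.image σ) θ x (σ a) then 0 else L) := by
      have e3 : ∀ σ : Perm (Fin n), ∑ x ∈ B,
          (if Heavy B (E.image σ) θ x (σ a) then 0 else L) =
          (B.card : ℝ) * L - ((B.filter (fun x =>
            Heavy B (E.image σ) θ x (σ a))).card : ℝ) * L := by
        intro σ
        rw [← sum_boole, sum_mul, ← nsmul_eq_mul, ← sum_const, ← sum_sub_distrib]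
        refine sum_congr rfl (fun x _ => ?_)
        by_cases h : Heavy B (E.image σ) θ x (σ a)
        · simp [h]
        · simp [h]
      rw [sum_congr rfl (fun σ _ => e3 σ), sum_sub_distrib, ← sum_mul, ← sum_mul, ← hH,
        sum_const, card_univ, Fintype.card_perm, Fintype.card_fin, nsmul_eq_mul, hP]
      ring
    rw [e1, e2]
    refine sum_le_sum (fun σ _ => sum_le_sum (fun x hx => ?_))
    have p1 : (0 : ℝ) < cnt B (E.image σ) x := by exact_mod_cast Han.cnt_pos _ hx
    have p2 : (0 : ℝ) < cnt B (insert (σ a) (E.image σ)) x := by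
      exact_mod_cast Han.cnt_pos _ hx
    split_ifs with h
    · rw [sub_nonneg]
      apply Real.log_le_log p2
      exact_mod_cast cnt_anti B (subset_insert _ _) x
    · unfold Heavy at h
      push Not at h
      have h3 := Real.log_le_log p2 h.le
      rw [Real.log_mul hθpos.ne' p1.ne', hlogθ] at h3
      rw [hL]
      linarith
  -- claim 2
  have claim2 := Phi_step B E a ha
  rw [Fintype.card_fin] at claim2
  have hlogB : Real.log B.card ≤ (1 - δ) * (n * Real.log n) := by
    have e1 : Real.log B.card ≤ Real.log ((n.factorial : ℝ) ^ (1 - δ)) :=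
      Real.log_le_log hBpos hBc
    rw [Real.log_rpow hfpos] at e1
    have e2 : Real.log (n.factorial : ℝ) ≤ n * Real.log n := by
      rw [← Real.log_pow]
      apply Real.log_le_log hfpos
      exact_mod_cast Nat.factorial_le_pow n
    exact e1.trans (mul_le_mul_of_nonneg_left e2 (by linarith))
  have hEc : (1 - δ / 2) * n ≤ (E.card : ℝ) + 1 := by
    rw [hE, Nat.cast_sub hN0n]
    linarith
  have hDnn : 0 ≤ Phi B E - Phi B (insert a E) := by
    by_contra hcon
    push Not at hcon
    -- follows from claim1 with nonnegative summands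
    have : 0 ≤ Phi B E - Phi B (insert a E) := by
      unfold Phi
      rw [← sum_sub_distrib]
      refine sum_nonneg (fun σ _ => ?_)
      rw [← sum_sub_distrib]
      refine sum_nonneg (fun x hx => ?_)
      rw [sub_nonneg, image_insert]
      have p2 : (0 : ℝ) < cnt B (insert (σ a) (E.image σ)) x := by
        exact_mod_cast Han.cnt_pos _ hx
      apply Real.log_le_log p2
      exact_mod_cast cnt_anti B (subset_insert _ _) x
    linarith
  have c3 : (1 - δ / 2) * n * ((P - H) * L) ≤ P * ((1 - δ) * (n * Real.log n)) := by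
    calc (1 - δ / 2) * n * ((P - H) * L)
        ≤ (1 - δ / 2) * n * (Phi B E - Phi B (insert a E)) :=
          mul_le_mul_of_nonneg_left claim1 (mul_nonneg (by linarith) hn0.le)
      _ ≤ ((E.card : ℝ) + 1) * (Phi B E - Phi B (insert a E)) :=
          mul_le_mul_of_nonneg_right hEc hDnn
      _ ≤ n.factorial * (B.card * Real.log B.card) := claim2
      _ = P * Real.log B.card := by rw [hP]; ring
      _ ≤ P * ((1 - δ) * (n * Real.log n)) := mul_le_mul_of_nonneg_left hlogB hPpos.le
  exact heavy_arith δ P H (Real.log n) (Real.log N0) n h0 h1 hPpos hn0 hlogN0 hkey c3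

end Pool.Agent.MP_f20ab1_al
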