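import Pool.Agent.MP_f20ab1_al.SmallSupport
import Pool.Agent.MP_f20ab1_al.FewFixed

set_option linter.unusedVariables false
set_option linter.unusedSectionVars false

open Equiv Finset
open scoped Pointwise

/-!
Growth when `log A.card ≥ C n`.

Sketch.  `M = log A.card`, `K = exp (M / (2 n))`.  Choose `J : Finset (Fin n)` and `a0 ∈ A`
maximising `K ^ J.card * cnt A J a0` (`cnt A J a` is the number of elements of `A` agreeing with
`a` on `J`).  With `A' = {a ∈ A | a = a0 on J}`: `A'.card ≥ A.card * K^(-n) = A.card ^ (1/2)`, and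
`cnt A (J ∪ J1) a ≤ K^(-J1.card) * A'.card` for `a ∈ A'` and `J1` disjoint from `J`.
`A'' = {a * a0⁻¹ | a ∈ A'}` fixes every point outside `D = a0 (Jᶜ)`, and
`(B * σA''σ⁻¹).card = (B * σA'σ⁻¹).card ≤ (B * σAσ⁻¹).card`.
If `D.card ≤ ⌊δ n / 2⌋₊` use `small_support`.  Otherwise `d = D.card > δ n / 2 - 1`.
Let `γ = δ/16`.  For `a ∈ A'` the number of `a' ∈ A'` agreeing with `a` on at least `γ d` points of
`Jᶜ` is at most `2^n K^(-γ d) A'.card ≤ exp (-γ δ M / 8) A'.card` if `C` is large.
`c = y * y'⁻¹` with `y, y' ∈ A''` has as many fixed points in `D` as there are points of `Jᶜ` where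
the corresponding `a, a'` agree.
For `σ` let `Bs σ = {x ∈ B | log (cnt B (σ Dᶜ) x) ≤ (1 - δ/4) log (d!)}`.  By `Phi_le` (with
`E = Dᶜ`) and `log (n!) d / n ≤ (1 + δ/8) log (d!)` for large `n`,
`∑ σ, (Bs σ).card ≥ (δ/4) n! B.card`.  `Bs (σ π) = Bs σ` for `π` fixing `Dᶜ` pointwise.
If `c` fixes `Dᶜ` pointwise and has at most `(δ/8) d` fixed points in `D` then
`∑ σ, stay (Bs σ) c σ ≤ n! B.card exp (-κ d log d)`: average over `π` fixing `Dᶜ` pointwise, split
`Bs σ` into classes for agreement on `σ Dᶜ` and apply `few_fixed` (with `δ/4` in place of `δ`, on the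
type `{i // i ∈ D}`) to `{u | x0 * σ u σ⁻¹ ∈ B, u fixes Dᶜ}`.
Conclude by `energy` with `S = {σ | sign σ = 1}` (the sum of `(Bs σ).card` over `S` is half of the
sum over all `σ`, by right multiplication by a transposition inside `D`).
-/

namespace Pool.Agent.MP_f20ab1_al

namespace LargeAux

variable {α : Type} [Fintype α] [DecidableEq α]

/-- One class of `few_fixed` inside a fibre. -/
theorem fibre_sum (D : Finset α) (X : Finset (Perm α)) (σ c : Perm α)
    (hc : ∀ i, i ∉ D → c i = i) (θ : ℝ) (Umax : ℝ)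
    (hcl : ∀ x ∈ X, ((X.filter (fun x' => ∀ i ∉ D, x' (σ i) = x (σ i))).card : ℝ) ≤ Umax)
    (hff : ∀ U : Finset (Perm {i // i ∈ D}), (U.card : ℝ) ≤ Umax → ∀ c' : Perm {i // i ∈ D},
      Perm.ofSubtype c' = c →
      ∑ π : Perm {i // i ∈ D}, (stay U c' π : ℝ) ≤ U.card * θ) :
    ∑ π : Perm {i // i ∈ D}, (stay X c (σ * Perm.ofSubtype π) : ℝ) ≤ X.card * θ := by
  classical
  -- the map to the fibre label
  let lab : Perm α → ({i // i ∉ D} → α) := fun x i => x (σ i)
  have hcmem : ∀ i, i ∈ D ↔ c i ∈ D := by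
    intro i
    constructor
    · intro hi
      by_contra h
      have h1 := hc _ h
      have h2 := c.injective h1
      rw [h2] at h
      exact h hi
    · intro hi
      by_contra h
      rw [hc i h] at hi
      exact h hi
  let c' : Perm {i // i ∈ D} := c.subtypePerm (fun i => (hcmem i).symm)
  have hc' : Perm.ofSubtype c' = c := by
    apply Perm.ofSubtype_subtypePerm
    intro x hx
    by_contra h
    exact hx (hc x h)
  have hfix : ∀ (π : Perm {i // i ∈ D}) (i : α), i ∉ D → Perm.ofSubtype π i = i :=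
    fun π i hi => Perm.ofSubtype_apply_of_not_mem π hi
  have hsplit : ∀ π : Perm {i // i ∈ D}, (stay X c (σ * Perm.ofSubtype π) : ℝ) =
      ∑ v ∈ X.image lab, (((X.filter (fun x => lab x = v)).filter (fun x =>
        x * ((σ * Perm.ofSubtype π) * c * (σ * Perm.ofSubtype π)⁻¹) ∈ X)).card : ℝ) := by
    intro π
    rw [stay]
    have h1 := card_eq_sum_card_fiberwise (f := lab)
      (s := X.filter (fun x => x * ((σ * Perm.ofSubtype π) * c * (σ * Perm.ofSubtype π)⁻¹) ∈ X))
      (t := X.image lab) (by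
        intro x hx
        exact mem_coe.2 (mem_image_of_mem _ (mem_filter.1 (mem_coe.1 hx)).1))
    rw [h1]
    push_cast
    apply sum_congr rfl
    intro v _
    congr 2
    ext x
    simp only [mem_filter]
    tauto
  have hX : (X.card : ℝ) = ∑ v ∈ X.image lab, ((X.filter (fun x => lab x = v)).card : ℝ) := by
    have h1 := card_eq_sum_card_fiberwise (f := lab) (s := X) (t := X.image lab) (by
        intro x hx
        exact mem_coe.2 (mem_image_of_mem _ (mem_coe.1 hx)))
    rw [h1]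
    push_cast
    rfl
  simp only [hsplit]
  rw [sum_comm, hX, sum_mul]
  apply sum_le_sum
  intro v hv
  obtain ⟨x0, hx0, rfl⟩ := mem_image.1 hv
  let U : Finset (Perm {i // i ∈ D}) :=
    univ.filter (fun u => x0 * (σ * Perm.ofSubtype u * σ⁻¹) ∈ X)
  have hback : ∀ x ∈ X, lab x = lab x0 → ∃ u : Perm {i // i ∈ D},
      x0 * (σ * Perm.ofSubtype u * σ⁻¹) = x := by
    intro x hx hl
    let w : Perm α := σ⁻¹ * x0⁻¹ * x * σ
    have hw : ∀ i, i ∉ D → w i = i := by
      intro i hi
      have h2 : x (σ i) = x0 (σ i) := congrFun hl ⟨i, hi⟩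
      simp only [w, Perm.mul_apply, h2]
      simp
    have hwmem : ∀ i, i ∈ D ↔ w i ∈ D := by
      intro i
      constructor
      · intro hi
        by_contra h
        have h1 := hw _ h
        have h2 := w.injective h1
        rw [h2] at h
        exact h hi
      · intro hi
        by_contra h
        rw [hw i h] at hi
        exact h hi
    refine ⟨w.subtypePerm (fun i => (hwmem i).symm), ?_⟩
    rw [Perm.ofSubtype_subtypePerm]
    · simp only [w]
      group
    · intro x hx
      by_contra h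
      exact hx (hw x h)
  have hlab : ∀ u : Perm {i // i ∈ D}, lab (x0 * (σ * Perm.ofSubtype u * σ⁻¹)) = lab x0 := by
    intro u
    funext i
    have h1 : σ⁻¹ (σ i) = i := by simp
    simp only [lab, Perm.mul_apply, h1]
    rw [hfix u i.1 i.2]
  have hinj : Function.Injective
      (fun u : Perm {i // i ∈ D} => x0 * (σ * Perm.ofSubtype u * σ⁻¹)) := by
    intro u u' h
    have h1 : Perm.ofSubtype u = Perm.ofSubtype u' := by simpa using h
    exact Perm.ofSubtype_injective h1
  have hUimg : U.image (fun u : Perm {i // i ∈ D} => x0 * (σ * Perm.ofSubtype u * σ⁻¹)) =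
      X.filter (fun x => lab x = lab x0) := by
    ext x
    simp only [mem_image, mem_filter, U, mem_univ, true_and]
    constructor
    · rintro ⟨u, hu, rfl⟩
      exact ⟨hu, hlab u⟩
    · rintro ⟨hx, hl⟩
      obtain ⟨u, hu⟩ := hback x hx hl
      exact ⟨u, by rw [hu]; exact hx, hu⟩
  have hUcard : U.card = (X.filter (fun x => lab x = lab x0)).card := by
    rw [← hUimg, card_image_of_injective _ hinj]
  have hUle : (U.card : ℝ) ≤ Umax := by
    rw [hUcard]
    refine le_trans (le_of_eq ?_) (hcl x0 hx0)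
    congr 2
    ext x
    simp only [mem_filter, lab, funext_iff, Subtype.forall]
  rw [← hUcard]
  refine le_trans (le_of_eq ?_) (hff U hUle c' hc')
  apply sum_congr rfl
  intro π _
  rw [stay]
  congr 1
  rw [← card_image_of_injective _ hinj]
  congr 1
  ext x
  simp only [mem_image, mem_filter, U, mem_univ, true_and]
  constructor
  · rintro ⟨⟨hx, hl⟩, hx'⟩
    obtain ⟨u, hu⟩ := hback x hx hl
    refine ⟨u, ⟨by rw [hu]; exact hx, ?_⟩, hu⟩
    rw [← hu] at hx'
    simp only [map_mul, map_inv, hc']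
    convert hx' using 1
    group
  · rintro ⟨u, ⟨hu, hu'⟩, rfl⟩
    refine ⟨⟨hu, hlab u⟩, ?_⟩
    simp only [map_mul, map_inv, hc'] at hu'
    convert hu' using 1
    group

theorem transfer (D : Finset α) (B : Finset (Perm α)) (Bs : Perm α → Finset (Perm α))
    (hBs : ∀ σ, Bs σ ⊆ B)
    (hinv : ∀ σ π : Perm α, (∀ i ∉ D, π i = i) → Bs (σ * π) = Bs σ) (c : Perm α)
    (hc : ∀ i, i ∉ D → c i = i) (θ : ℝ) (hθ : 0 ≤ θ) (Umax : ℝ)
    (hcl : ∀ σ, ∀ x ∈ Bs σ,
      (((Bs σ).filter (fun x' => ∀ i ∉ D, x' (σ i) = x (σ i))).card : ℝ) ≤ Umax)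
    (hff : ∀ U : Finset (Perm {i // i ∈ D}), (U.card : ℝ) ≤ Umax → ∀ c' : Perm {i // i ∈ D},
      Perm.ofSubtype c' = c →
      ∑ π : Perm {i // i ∈ D}, (stay U c' π : ℝ) ≤ U.card * (D.card.factorial * θ)) :
    ∑ σ : Perm α, (stay (Bs σ) c σ : ℝ) ≤ (Fintype.card α).factorial * (B.card * θ) := by
  classical
  have hcardD : Fintype.card (Perm {i // i ∈ D}) = D.card.factorial := by
    rw [Fintype.card_perm, Fintype.card_coe]
  have h1 : (D.card.factorial : ℝ) * ∑ σ : Perm α, (stay (Bs σ) c σ : ℝ) =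
      ∑ σ : Perm α, ∑ π : Perm {i // i ∈ D}, (stay (Bs σ) c (σ * Perm.ofSubtype π) : ℝ) := by
    rw [sum_comm]
    have h2 : ∀ π ∈ (univ : Finset (Perm {i // i ∈ D})),
        ∑ σ : Perm α, (stay (Bs σ) c (σ * Perm.ofSubtype π) : ℝ) =
          ∑ σ : Perm α, (stay (Bs σ) c σ : ℝ) := by
      intro π _
      refine Fintype.sum_equiv (Equiv.mulRight (Perm.ofSubtype π)) _ _ ?_
      intro σ
      simp only [Equiv.coe_mulRight]
      rw [hinv σ (Perm.ofSubtype π) (fun i hi => Perm.ofSubtype_apply_of_not_mem π hi)]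
    rw [sum_congr rfl h2, sum_const, card_univ, hcardD, nsmul_eq_mul]
  have h3 : ∀ σ ∈ (univ : Finset (Perm α)),
      ∑ π : Perm {i // i ∈ D}, (stay (Bs σ) c (σ * Perm.ofSubtype π) : ℝ) ≤
        B.card * (D.card.factorial * θ) := by
    intro σ _
    refine le_trans (fibre_sum D (Bs σ) σ c hc _ Umax (hcl σ) hff) ?_
    apply mul_le_mul_of_nonneg_right _ (by positivity)
    exact_mod_cast card_le_card (hBs σ)
  have h4 := sum_le_sum h3
  rw [← h1, sum_const, card_univ, Fintype.card_perm, nsmul_eq_mul] at h4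
  have h5 : (0 : ℝ) < D.card.factorial := by positivity
  have h6 : (D.card.factorial : ℝ) * ∑ σ : Perm α, (stay (Bs σ) c σ : ℝ) ≤
      D.card.factorial * ((Fintype.card α).factorial * (B.card * θ)) := by
    refine le_trans h4 (le_of_eq ?_)
    ring
  exact le_of_mul_le_mul_left h6 h5

/-- The maximising pair. -/
theorem exists_max (A : Finset (Perm α)) (hA : A.Nonempty) (K : ℝ) (hK : 0 < K) :
    ∃ (J : Finset α) (a0 : Perm α), a0 ∈ A ∧
      (A.card : ℝ) ≤ K ^ J.card * cnt A J a0 ∧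
      ∀ a ∈ A, (∀ i ∈ J, a i = a0 i) → ∀ J1 : Finset α, Disjoint J J1 →
        K ^ J1.card * cnt A (J ∪ J1) a ≤ cnt A J a0 := by
  classical
  obtain ⟨a1, ha1⟩ := hA
  obtain ⟨⟨J, a0⟩, hmem, hmax⟩ := exists_max_image ((univ : Finset (Finset α)) ×ˢ A)
    (fun p => K ^ p.1.card * (cnt A p.1 p.2 : ℝ)) ⟨(∅, a1), by simp [ha1]⟩
  have ha0 : a0 ∈ A := (mem_product.1 hmem).2
  refine ⟨J, a0, ha0, ?_, ?_⟩
  · have h1 := hmax (∅, a1) (by simp [ha1])
    simp only [card_empty, pow_zero, one_mul] at h1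
    refine le_trans (le_of_eq ?_) h1
    rw [cnt]
    simp
  · intro a ha haJ J1 hdis
    have h1 := hmax (J ∪ J1, a) (by simp [ha])
    simp only at h1
    rw [card_union_of_disjoint hdis, pow_add, mul_assoc] at h1
    exact le_of_mul_le_mul_left h1 (by positivity)

/-- Few elements agree with a given one at many further places. -/
theorem agree_count (A : Finset (Perm α)) (K : ℝ) (hK : 1 ≤ K) (J : Finset α) (a0 : Perm α)
    (hmax : ∀ a ∈ A, (∀ i ∈ J, a i = a0 i) → ∀ J1 : Finset α, Disjoint J J1 →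
        K ^ J1.card * cnt A (J ∪ J1) a ≤ cnt A J a0) (a : Perm α) (ha : a ∈ A)
    (haJ : ∀ i ∈ J, a i = a0 i) (g : ℝ) :
    K ^ g * (((A.filter (fun a' => (∀ i ∈ J, a' i = a0 i) ∧
      g ≤ ((Jᶜ.filter (fun j => a' j = a j)).card : ℝ))).card : ℕ) : ℝ) ≤
      2 ^ Fintype.card α * cnt A J a0 := by
  classical
  set X := A.filter (fun a' => (∀ i ∈ J, a' i = a0 i) ∧
      g ≤ ((Jᶜ.filter (fun j => a' j = a j)).card : ℝ)) with hX
  have h1 : X ⊆ ((univ : Finset (Finset α)).filter (fun J1 => Disjoint J J1 ∧ g ≤ J1.card)).biUnion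
      (fun J1 => A.filter (fun a' => ∀ i ∈ J ∪ J1, a' i = a i)) := by
    intro a' ha'
    obtain ⟨ha'A, ha'J, hg⟩ := mem_filter.1 ha'
    rw [mem_biUnion]
    refine ⟨Jᶜ.filter (fun j => a' j = a j), ?_, ?_⟩
    · rw [mem_filter]
      refine ⟨mem_univ _, ?_, hg⟩
      rw [disjoint_left]
      intro i hi hi'
      exact (mem_compl.1 (mem_filter.1 hi').1) hi
    · rw [mem_filter]
      refine ⟨ha'A, ?_⟩
      intro i hi
      rcases mem_union.1 hi with h | h
      · rw [ha'J i h, haJ i h]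
      · exact (mem_filter.1 h).2
  have h2 : (X.card : ℝ) ≤ ∑ J1 ∈ (univ : Finset (Finset α)).filter
      (fun J1 => Disjoint J J1 ∧ g ≤ J1.card), (cnt A (J ∪ J1) a : ℝ) := by
    have := le_trans (card_le_card h1) card_biUnion_le
    exact_mod_cast this
  have hK0 : 0 < K := by linarith
  calc K ^ g * (X.card : ℝ) ≤ K ^ g * ∑ J1 ∈ (univ : Finset (Finset α)).filter
        (fun J1 => Disjoint J J1 ∧ g ≤ J1.card), (cnt A (J ∪ J1) a : ℝ) := by
        apply mul_le_mul_of_nonneg_left h2 (by positivity)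
    _ = ∑ J1 ∈ (univ : Finset (Finset α)).filter
        (fun J1 => Disjoint J J1 ∧ g ≤ J1.card), K ^ g * (cnt A (J ∪ J1) a : ℝ) := mul_sum _ _ _
    _ ≤ ∑ J1 ∈ (univ : Finset (Finset α)).filter
        (fun J1 => Disjoint J J1 ∧ g ≤ J1.card), (cnt A J a0 : ℝ) := by
        apply sum_le_sum
        intro J1 hJ1
        obtain ⟨_, hdis, hg⟩ := mem_filter.1 hJ1
        refine le_trans ?_ (hmax a ha haJ J1 hdis)
        apply mul_le_mul_of_nonneg_right _ (by positivity)
        rw [← Real.rpow_natCast]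
        exact Real.rpow_le_rpow_of_exponent_le hK hg
    _ = (((univ : Finset (Finset α)).filter
        (fun J1 => Disjoint J J1 ∧ g ≤ J1.card)).card : ℝ) * cnt A J a0 := by
        rw [sum_const, nsmul_eq_mul]
    _ ≤ 2 ^ Fintype.card α * cnt A J a0 := by
        apply mul_le_mul_of_nonneg_right _ (by positivity)
        have h3 : ((univ : Finset (Finset α)).filter
          (fun J1 => Disjoint J J1 ∧ g ≤ J1.card)).card ≤ 2 ^ Fintype.card α := by
          refine le_trans (card_filter_le _ _) ?_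
          rw [card_univ, Fintype.card_finset]
        exact_mod_cast h3

/-- The good part of `B` for a given `σ`. -/
noncomputable def good (B : Finset (Perm α)) (D : Finset α) (t : ℝ) (σ : Perm α) :
    Finset (Perm α) :=
  B.filter (fun x => Real.log (cnt B (Dᶜ.image σ) x) ≤ t)

theorem good_sum (B : Finset (Perm α)) (D : Finset α) (t : ℝ) (ht : 0 ≤ t) :
    (Fintype.card α : ℝ) * (t * ((Fintype.card α).factorial * B.card -
      ∑ σ : Perm α, ((good B D t σ).card : ℝ))) ≤
      D.card * ((Fintype.card α).factorial * (B.card * Real.log B.card)) := by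
  classical
  have h1 := Phi_le B Dᶜ
  have h2 : ((Fintype.card α : ℝ) - (Dᶜ).card) = D.card := by
    have := card_add_card_compl D
    have h3 : (D.card : ℝ) + (Dᶜ.card : ℝ) = Fintype.card α := by exact_mod_cast this
    linarith
  rw [h2] at h1
  refine le_trans ?_ h1
  apply mul_le_mul_of_nonneg_left _ (by positivity)
  have h3 : ((Fintype.card α).factorial * B.card - ∑ σ : Perm α, ((good B D t σ).card : ℝ) : ℝ) =
      ∑ σ : Perm α, (((B.filter (fun x => ¬ Real.log (cnt B (Dᶜ.image σ) x) ≤ t)).card : ℕ) : ℝ) := by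
    have h4 : ∀ σ ∈ (univ : Finset (Perm α)),
        (((B.filter (fun x => ¬ Real.log (cnt B (Dᶜ.image σ) x) ≤ t)).card : ℕ) : ℝ) =
          (B.card : ℝ) - ((good B D t σ).card : ℝ) := by
      intro σ _
      have h5 := card_filter_add_card_filter_not (s := B)
        (fun x => Real.log (cnt B (Dᶜ.image σ) x) ≤ t)
      have h6 : (((B.filter (fun x => Real.log (cnt B (Dᶜ.image σ) x) ≤ t)).card : ℕ) : ℝ) +
        (((B.filter (fun x => ¬ Real.log (cnt B (Dᶜ.image σ) x) ≤ t)).card : ℕ) : ℝ) = B.card := by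
        exact_mod_cast h5
      rw [good]
      linarith
    rw [sum_congr rfl h4, sum_sub_distrib, sum_const, card_univ, Fintype.card_perm, nsmul_eq_mul]
  rw [h3, Phi, mul_sum]
  apply sum_le_sum
  intro σ _
  have hlog : ∀ x ∈ B, 0 ≤ Real.log (cnt B (Dᶜ.image σ) x) := by
    intro x hx
    apply Real.log_natCast_nonneg
  calc t * (((B.filter (fun x => ¬ Real.log (cnt B (Dᶜ.image σ) x) ≤ t)).card : ℕ) : ℝ)
      = ∑ x ∈ B.filter (fun x => ¬ Real.log (cnt B (Dᶜ.image σ) x) ≤ t), t := by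
        rw [sum_const, nsmul_eq_mul]
        ring
    _ ≤ ∑ x ∈ B.filter (fun x => ¬ Real.log (cnt B (Dᶜ.image σ) x) ≤ t),
        Real.log (cnt B (Dᶜ.image σ) x) := by
        apply sum_le_sum
        intro x hx
        have := (mem_filter.1 hx).2
        push Not at this
        exact this.le
    _ ≤ ∑ x ∈ B, Real.log (cnt B (Dᶜ.image σ) x) := by
        apply sum_le_sum_of_subset_of_nonneg (filter_subset _ _)
        intro x hx _
        exact hlog x hx

theorem log_factorial_le (n : ℕ) : Real.log (n.factorial : ℝ) ≤ n * Real.log n := by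
  rcases Nat.eq_zero_or_pos n with rfl | hn
  · simp
  · rw [← Real.log_pow]
    apply Real.log_le_log (by positivity)
    exact_mod_cast Nat.factorial_le_pow n

theorem le_log_factorial (d : ℕ) (hd : 1 ≤ d) :
    (d : ℝ) * Real.log d - d ≤ Real.log (d.factorial : ℝ) := by
  have h1 := Real.pow_div_factorial_le_exp (x := (d : ℝ)) (by positivity) d
  have hd' : (0 : ℝ) < d := by exact_mod_cast hd
  rw [div_le_iff₀ (by positivity)] at h1
  have h2 := Real.log_le_log (by positivity) h1
  rw [Real.log_pow, Real.log_mul (by positivity) (by positivity), Real.log_exp] at h2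
  linarith

/-- Large degrees: comparison of the factorials. -/
theorem analytic (δ : ℝ) (h0 : 0 < δ) (h1 : δ ≤ 1 / 2) (L : ℝ) : ∃ n1 : ℕ, ∀ n : ℕ, n1 ≤ n →
    ∀ d : ℕ, d ≤ n → δ * n / 2 ≤ d → 1 ≤ d ∧ L ≤ d ∧ L ≤ n ∧
      (d : ℝ) * Real.log (n.factorial : ℝ) ≤ (1 + δ / 8) * (n * Real.log (d.factorial : ℝ)) ∧
      δ / 4 * Real.log (n.factorial : ℝ) ≤ d * Real.log d ∧ 1 ≤ Real.log d := by
  obtain ⟨n1, hn1⟩ := exists_nat_gt (max (Real.exp ((1 + δ / 8) * (Real.log (2 / δ) + 1) * (8 / δ)))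
    (max (2 / δ * L) (max (2 / δ * Real.exp 1) (max (L) (Real.exp (2 * Real.log (2 / δ)))))))
  refine ⟨n1, ?_⟩
  intro n hn d hdn hd
  have hnr : (n1 : ℝ) ≤ n := by exact_mod_cast hn
  have hA : Real.exp ((1 + δ / 8) * (Real.log (2 / δ) + 1) * (8 / δ)) < n :=
    lt_of_le_of_lt (le_max_left _ _) (lt_of_lt_of_le hn1 hnr)
  have hB' : max (2 / δ * L) (max (2 / δ * Real.exp 1) (max (L) (Real.exp (2 * Real.log (2 / δ)))))
      < n := lt_of_le_of_lt (le_max_right _ _) (lt_of_lt_of_le hn1 hnr)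
  have hB : 2 / δ * L < n := lt_of_le_of_lt (le_max_left _ _) hB'
  have hC' := lt_of_le_of_lt (le_max_right _ _) hB'
  have hC : 2 / δ * Real.exp 1 < n := lt_of_le_of_lt (le_max_left _ _) hC'
  have hD' := lt_of_le_of_lt (le_max_right _ _) hC'
  have hD : L < n := lt_of_le_of_lt (le_max_left _ _) hD'
  have hE : Real.exp (2 * Real.log (2 / δ)) < n := lt_of_le_of_lt (le_max_right _ _) hD'
  have hn0 : (0 : ℝ) < n := lt_trans (Real.exp_pos _) hA
  have hd0 : (0 : ℝ) < d := by
    have : 0 < δ * n / 2 := by positivity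
    linarith
  have hd1 : 1 ≤ d := by exact_mod_cast hd0
  have hlogn : (1 + δ / 8) * (Real.log (2 / δ) + 1) * (8 / δ) ≤ Real.log n := by
    rw [Real.le_log_iff_exp_le hn0]
    exact hA.le
  have hlogn2 : 2 * Real.log (2 / δ) ≤ Real.log n := by
    rw [Real.le_log_iff_exp_le hn0]
    exact hE.le
  have hlogd : Real.log n - Real.log (2 / δ) ≤ Real.log d := by
    have h2 : Real.log (δ * n / 2) ≤ Real.log d := Real.log_le_log (by positivity) hd
    have h3 : Real.log (δ * n / 2) = Real.log n - Real.log (2 / δ) := by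
      have : δ * n / 2 = n / (2 / δ) := by field_simp
      rw [this, Real.log_div hn0.ne' (by positivity)]
    linarith
  have hdL : L ≤ d := by
    have : 2 / δ * L * (δ / 2) ≤ n * (δ / 2) := by
      apply mul_le_mul_of_nonneg_right hB.le (by positivity)
    have h2 : 2 / δ * L * (δ / 2) = L := by field_simp
    linarith
  have hde : 1 ≤ Real.log d := by
    rw [Real.le_log_iff_exp_le hd0]
    have : 2 / δ * Real.exp 1 * (δ / 2) ≤ n * (δ / 2) := by
      apply mul_le_mul_of_nonneg_right hC.le (by positivity)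
    have h2 : 2 / δ * Real.exp 1 * (δ / 2) = Real.exp 1 := by field_simp
    linarith
  refine ⟨hd1, hdL, hD.le, ?_, ?_, hde⟩
  · have h2 := log_factorial_le n
    have h3 := le_log_factorial d hd1
    have h4 : Real.log n ≤ (1 + δ / 8) * (Real.log d - 1) := by
      have h5 : (1 + δ / 8) * (Real.log (2 / δ) + 1) ≤ δ / 8 * Real.log n := by
        have h6 : (1 + δ / 8) * (Real.log (2 / δ) + 1) * (8 / δ) * (δ / 8) ≤
            Real.log n * (δ / 8) := mul_le_mul_of_nonneg_right hlogn (by positivity)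
        have h7 : (1 + δ / 8) * (Real.log (2 / δ) + 1) * (8 / δ) * (δ / 8) =
            (1 + δ / 8) * (Real.log (2 / δ) + 1) := by field_simp
        linarith
      have h8 : (1 + δ / 8) * (Real.log n - Real.log (2 / δ) - 1) ≤
          (1 + δ / 8) * (Real.log d - 1) := by
        apply mul_le_mul_of_nonneg_left _ (by positivity)
        linarith
      nlinarith
    calc (d : ℝ) * Real.log (n.factorial : ℝ) ≤ d * (n * Real.log n) := by gcongr
      _ ≤ d * (n * ((1 + δ / 8) * (Real.log d - 1))) := by gcongr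
      _ = (1 + δ / 8) * (n * (d * Real.log d - d)) := by ring
      _ ≤ (1 + δ / 8) * (n * Real.log (d.factorial : ℝ)) := by gcongr
  · have h2 := log_factorial_le n
    have h3 : Real.log n / 2 ≤ Real.log d := by linarith
    have h4 : 0 ≤ Real.log n := by
      have : Real.log d ≤ Real.log n := Real.log_le_log hd0 (by exact_mod_cast hdn)
      linarith
    calc δ / 4 * Real.log (n.factorial : ℝ) ≤ δ / 4 * (n * Real.log n) := by gcongr
      _ = (δ * n / 2) * (Real.log n / 2) := by ring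
      _ ≤ d * Real.log d := by
        apply mul_le_mul hd h3 (by positivity) hd0.le

theorem parity (D : Finset α) (hD : 1 < D.card) (f : Perm α → ℝ)
    (hf : ∀ σ π : Perm α, (∀ i ∉ D, π i = i) → f (σ * π) = f σ) :
    ∑ σ : Perm α, f σ = 2 * ∑ σ ∈ univ.filter (fun σ : Perm α => Perm.sign σ = 1), f σ := by
  classical
  obtain ⟨i, hi, j, hj, hij⟩ := one_lt_card.1 hD
  have hτ : ∀ k ∉ D, swap i j k = k := by
    intro k hk
    apply swap_apply_of_ne_of_ne
    · rintro rfl
      exact hk hi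
    · rintro rfl
      exact hk hj
  rw [← sum_filter_add_sum_filter_not univ (fun σ : Perm α => Perm.sign σ = 1), two_mul]
  congr 1
  refine sum_nbij' (fun σ => σ * swap i j) (fun σ => σ * swap i j) ?_ ?_ ?_ ?_ ?_
  · intro σ hσ
    simp only [mem_filter, mem_univ, true_and] at hσ ⊢
    rw [map_mul, Perm.sign_swap hij]
    rcases Int.units_eq_one_or (Perm.sign σ) with h | h
    · exact absurd h hσ
    · rw [h]
      simp
  · intro σ hσ
    simp only [mem_filter, mem_univ, true_and] at hσ ⊢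
    rw [map_mul, Perm.sign_swap hij, hσ]
    decide
  · intro σ _
    rw [mul_assoc, swap_mul_self, mul_one]
  · intro σ _
    rw [mul_assoc, swap_mul_self, mul_one]
  · intro σ _
    exact (hf σ _ hτ).symm

theorem good_mul (B : Finset (Perm α)) (D : Finset α) (t : ℝ) (σ π : Perm α)
    (hπ : ∀ i ∉ D, π i = i) : good B D t (σ * π) = good B D t σ := by
  have h : Dᶜ.image (σ * π) = Dᶜ.image σ := by
    apply image_congr
    intro i hi
    have := hπ i (by simpa using hi)
    simp [Perm.mul_apply, this]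
  rw [good, good, h]

theorem good_class (B : Finset (Perm α)) (D : Finset α) (s : ℝ) (σ x : Perm α)
    (hx : x ∈ good B D (s * Real.log (D.card.factorial)) σ) :
    (((good B D (s * Real.log (D.card.factorial)) σ).filter
      (fun x' => ∀ i ∉ D, x' (σ i) = x (σ i))).card : ℝ) ≤ (D.card.factorial : ℝ) ^ s := by
  obtain ⟨hxB, hlog⟩ := mem_filter.1 hx
  have h1 : ((good B D (s * Real.log (D.card.factorial)) σ).filter
      (fun x' => ∀ i ∉ D, x' (σ i) = x (σ i))).card ≤ cnt B (Dᶜ.image σ) x := by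
    rw [cnt]
    apply card_le_card
    intro x' hx'
    obtain ⟨h2, h3⟩ := mem_filter.1 hx'
    rw [mem_filter]
    refine ⟨(mem_filter.1 h2).1, ?_⟩
    intro i hi
    obtain ⟨k, hk, rfl⟩ := mem_image.1 hi
    exact h3 k (by simpa using hk)
  have h2 : 0 < cnt B (Dᶜ.image σ) x := by
    rw [cnt, card_pos]
    exact ⟨x, by simp [hxB]⟩
  have h3 : (0 : ℝ) < cnt B (Dᶜ.image σ) x := by exact_mod_cast h2
  calc (((good B D (s * Real.log (D.card.factorial)) σ).filter
      (fun x' => ∀ i ∉ D, x' (σ i) = x (σ i))).card : ℝ) ≤ cnt B (Dᶜ.image σ) x := by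
        exact_mod_cast h1
    _ ≤ (D.card.factorial : ℝ) ^ s := by
        rw [← Real.log_le_log_iff h3 (by positivity), Real.log_rpow (by positivity)]
        exact hlog

/-- Removing the base point of the class. -/
theorem card_shift (B A A' : Finset (Perm α)) (hA' : A' ⊆ A) (a0 σ : Perm α) :
    (B * (A'.image (fun a => a * a0⁻¹)).image (fun y => σ * y * σ⁻¹)).card ≤
      (B * A.image (fun y => σ * y * σ⁻¹)).card := by
  have h1 : B * (A'.image (fun a => a * a0⁻¹)).image (fun y => σ * y * σ⁻¹) ⊆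
      (B * A.image (fun y => σ * y * σ⁻¹)).image (fun z => z * (σ * a0⁻¹ * σ⁻¹)) := by
    intro z hz
    obtain ⟨b, hb, y, hy, rfl⟩ := mem_mul.1 hz
    obtain ⟨y', hy', rfl⟩ := mem_image.1 hy
    obtain ⟨a, ha, rfl⟩ := mem_image.1 hy'
    rw [mem_image]
    refine ⟨b * (σ * a * σ⁻¹), mul_mem_mul hb (mem_image_of_mem _ (hA' ha)), ?_⟩
    group
  exact le_trans (card_le_card h1) card_image_le

theorem arith1 (n d f b lb ln ld Sg δ : ℝ) (hn : 0 < n) (hd : 0 ≤ d) (hf : 0 < f) (hb : 0 < b)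
    (h0 : 0 < δ) (h1 : δ ≤ 1 / 2)
    (h2 : n * (((1 - δ / 4) * ld) * (f * b - Sg)) ≤ d * (f * (b * lb)))
    (h3 : lb ≤ (1 - δ) * ln) (h4 : d * ln ≤ (1 + δ / 8) * (n * ld)) (hld : 0 < ld) :
    δ / 4 * (f * b) ≤ Sg := by
  have hfb : 0 < f * b := mul_pos hf hb
  have h5 : n * (((1 - δ / 4) * ld) * (f * b - Sg)) ≤
      n * (((1 - δ) * (1 + δ / 8) * ld) * (f * b)) := by
    calc n * (((1 - δ / 4) * ld) * (f * b - Sg)) ≤ d * (f * (b * lb)) := h2
      _ = (d * (f * b)) * lb := by ring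
      _ ≤ (d * (f * b)) * ((1 - δ) * ln) :=
          mul_le_mul_of_nonneg_left h3 (mul_nonneg hd hfb.le)
      _ = (d * ln) * ((1 - δ) * (f * b)) := by ring
      _ ≤ ((1 + δ / 8) * (n * ld)) * ((1 - δ) * (f * b)) :=
          mul_le_mul_of_nonneg_right h4 (mul_nonneg (by linarith) hfb.le)
      _ = n * (((1 - δ) * (1 + δ / 8) * ld) * (f * b)) := by ring
  have h6 := le_of_mul_le_mul_left h5 hn
  have h7 : ld * ((1 - δ / 4) * (f * b - Sg)) ≤ ld * ((1 - δ) * (1 + δ / 8) * (f * b)) := by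
    linarith
  have h8 := le_of_mul_le_mul_left h7 hld
  have h9 : (1 - δ) * (1 + δ / 8) ≤ (1 - δ / 4) * (1 - δ / 4) := by nlinarith
  have h10 : (1 - δ / 4) * (f * b - Sg) ≤ (1 - δ / 4) * ((1 - δ / 4) * (f * b)) := by
    calc _ ≤ (1 - δ) * (1 + δ / 8) * (f * b) := h8
      _ ≤ (1 - δ / 4) * (1 - δ / 4) * (f * b) := mul_le_mul_of_nonneg_right h9 hfb.le
      _ = _ := by ring
  have h11 := le_of_mul_le_mul_left h10 (by linarith)
  linarith

theorem total_bound (A' : Finset (Perm α)) (G : Perm α → Finset (Perm α)) (S : Finset (Perm α))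
    (P : Perm α → Perm α → Prop) [∀ y y', Decidable (P y y')] (Nn θ E : ℝ) (hN : 0 ≤ Nn)
    (hθ : 0 ≤ θ) (h1 : ∀ c : Perm α, ∑ σ : Perm α, (stay (G σ) c σ : ℝ) ≤ Nn)
    (h2 : ∀ y ∈ A', ∀ y' ∈ A', P y y' →
      ∑ σ : Perm α, (stay (G σ) (y * y'⁻¹) σ : ℝ) ≤ Nn * θ)
    (h3 : ∀ y ∈ A', ((A'.filter (fun y' => ¬ P y y')).card : ℝ) ≤ A'.card * E) :
    ∑ σ ∈ S, ∑ y ∈ A', ∑ y' ∈ A', (stay (G σ) (y * y'⁻¹) σ : ℝ) ≤
      (A'.card : ℝ) ^ 2 * Nn * (E + θ) := by
  classical
  have h4 : ∑ σ ∈ S, ∑ y ∈ A', ∑ y' ∈ A', (stay (G σ) (y * y'⁻¹) σ : ℝ) ≤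
      ∑ σ : Perm α, ∑ y ∈ A', ∑ y' ∈ A', (stay (G σ) (y * y'⁻¹) σ : ℝ) := by
    apply sum_le_sum_of_subset_of_nonneg (subset_univ _)
    intro σ _ _
    exact sum_nonneg fun y _ => sum_nonneg fun y' _ => Nat.cast_nonneg _
  refine le_trans h4 ?_
  rw [sum_comm]
  have h5 : ∀ y ∈ A', ∑ σ : Perm α, ∑ y' ∈ A', (stay (G σ) (y * y'⁻¹) σ : ℝ) ≤
      A'.card * Nn * (E + θ) := by
    intro y hy
    rw [sum_comm, ← sum_filter_add_sum_filter_not A' (fun y' => P y y')]
    have h6 : ∑ y' ∈ A'.filter (fun y' => P y y'),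
        ∑ σ : Perm α, (stay (G σ) (y * y'⁻¹) σ : ℝ) ≤ A'.card * (Nn * θ) := by
      calc _ ≤ ∑ _y' ∈ A'.filter (fun y' => P y y'), Nn * θ := by
            apply sum_le_sum
            intro y' hy'
            obtain ⟨h7, h8⟩ := mem_filter.1 hy'
            exact h2 y hy y' h7 h8
        _ ≤ A'.card * (Nn * θ) := by
            rw [sum_const, nsmul_eq_mul]
            apply mul_le_mul_of_nonneg_right _ (mul_nonneg hN hθ)
            exact_mod_cast card_filter_le _ _
    have h7 : ∑ y' ∈ A'.filter (fun y' => ¬ P y y'),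
        ∑ σ : Perm α, (stay (G σ) (y * y'⁻¹) σ : ℝ) ≤ (A'.card * E) * Nn := by
      calc _ ≤ ∑ _y' ∈ A'.filter (fun y' => ¬ P y y'), Nn := by
            apply sum_le_sum
            intro y' hy'
            exact h1 _
        _ ≤ (A'.card * E) * Nn := by
            rw [sum_const, nsmul_eq_mul]
            exact mul_le_mul_of_nonneg_right (h3 y hy) hN
    calc _ ≤ A'.card * (Nn * θ) + (A'.card * E) * Nn := add_le_add h6 h7
      _ = _ := by ring
  refine le_trans (sum_le_sum h5) ?_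
  rw [sum_const, nsmul_eq_mul]
  apply le_of_eq
  ring

theorem arith2 (Kg X n a M lam : ℝ) (hX : 0 ≤ X) (ha : 0 ≤ a) (h4 : Real.exp (2 * lam * M) ≤ Kg)
    (h2 : Kg * X ≤ n * a) (h5 : n ≤ Real.exp (lam * M)) : X ≤ a * Real.exp (-lam * M) := by
  have h6 : Real.exp (2 * lam * M) * X ≤ Real.exp (lam * M) * a :=
    calc Real.exp (2 * lam * M) * X ≤ Kg * X := mul_le_mul_of_nonneg_right h4 hX
      _ ≤ n * a := h2
      _ ≤ Real.exp (lam * M) * a := mul_le_mul_of_nonneg_right h5 ha
  have h7 : Real.exp (2 * lam * M) = Real.exp (lam * M) * Real.exp (lam * M) := by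
    rw [← Real.exp_add]
    congr 1
    ring
  rw [h7, mul_assoc] at h6
  have h8 := le_of_mul_le_mul_left h6 (Real.exp_pos _)
  have h9 : Real.exp (-lam * M) = (Real.exp (lam * M))⁻¹ := by
    rw [← Real.exp_neg]
    congr 1
    ring
  rw [h9, ← div_eq_mul_inv, le_div_iff₀ (Real.exp_pos _), mul_comm]
  exact h8

theorem arith3 (δ f b a Aε E S' Ssum Tot : ℝ) (hδ : 0 < δ) (hf : 0 < f) (hb : 0 < b)
    (ha : 0 < a) (hAε : 0 ≤ Aε) (hS0 : 0 ≤ S') (hS : S' ≤ f) (hE : 0 ≤ E)
    (hbig : δ / 8 * (f * b) ≤ Ssum) (hen : (Ssum * a) ^ 2 ≤ (b * Aε) * S' * Tot)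
    (htot : Tot ≤ a ^ 2 * (f * b) * E) : (δ / 8) ^ 2 ≤ Aε * E := by
  have h0 : 0 ≤ δ / 8 * (f * b) := by positivity
  have h1 : (δ / 8 * (f * b) * a) ^ 2 ≤ (Ssum * a) ^ 2 := by
    apply pow_le_pow_left₀ (by positivity)
    exact mul_le_mul_of_nonneg_right hbig ha.le
  have h2 : (b * Aε) * S' * Tot ≤ (b * Aε) * f * (a ^ 2 * (f * b) * E) := by
    calc (b * Aε) * S' * Tot ≤ (b * Aε) * S' * (a ^ 2 * (f * b) * E) :=
          mul_le_mul_of_nonneg_left htot (by positivity)
      _ ≤ (b * Aε) * f * (a ^ 2 * (f * b) * E) := by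
          apply mul_le_mul_of_nonneg_right _ (by positivity)
          exact mul_le_mul_of_nonneg_left hS (by positivity)
  have h3 : (f ^ 2 * b ^ 2 * a ^ 2) * (δ / 8) ^ 2 ≤ (f ^ 2 * b ^ 2 * a ^ 2) * (Aε * E) := by
    calc _ = (δ / 8 * (f * b) * a) ^ 2 := by ring
      _ ≤ (b * Aε) * f * (a ^ 2 * (f * b) * E) := le_trans h1 (le_trans hen h2)
      _ = _ := by ring
  exact le_of_mul_le_mul_left h3 (by positivity)

theorem arith4 (ε lam M n θ κ δ dl lf : ℝ) (hε : 0 < ε) (hκ : 0 < κ) (hδ : 0 < δ)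
    (hM0 : 0 < M) (hM1 : n ≤ M) (hMf : M ≤ lf) (h1 : 2 * ε ≤ lam) (h2 : 2 * ε ≤ κ * δ / 4)
    (h3 : δ / 4 * lf ≤ dl) (hθ : θ = Real.exp (-κ * dl)) :
    Real.exp (ε * M) * (Real.exp (-lam * M) + θ) ≤ 2 * Real.exp (-ε * n) := by
  have h4 : Real.exp (-lam * M) ≤ Real.exp (-(2 * ε) * M) := by
    apply Real.exp_le_exp.2
    nlinarith
  have h5 : θ ≤ Real.exp (-(2 * ε) * M) := by
    rw [hθ]
    apply Real.exp_le_exp.2
    have h6 : 2 * ε * M ≤ κ * δ / 4 * M := mul_le_mul_of_nonneg_right h2 hM0.le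
    have h7 : κ * (δ / 4 * M) ≤ κ * dl := by
      apply mul_le_mul_of_nonneg_left _ hκ.le
      refine le_trans ?_ h3
      apply mul_le_mul_of_nonneg_left hMf (by positivity)
    nlinarith
  calc Real.exp (ε * M) * (Real.exp (-lam * M) + θ)
      ≤ Real.exp (ε * M) * (Real.exp (-(2 * ε) * M) + Real.exp (-(2 * ε) * M)) := by
        apply mul_le_mul_of_nonneg_left _ (Real.exp_pos _).le
        linarith
    _ = 2 * Real.exp (-ε * M) := by
        rw [← two_mul, mul_left_comm, ← Real.exp_add]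
        congr 2
        ring
    _ ≤ 2 * Real.exp (-ε * n) := by
        have : -ε * M ≤ -ε * n := by nlinarith
        have := Real.exp_le_exp.2 this
        linarith

/-- The case of a large support. -/
theorem large_support (δ : ℝ) (h0 : 0 < δ) (h1 : δ ≤ 1 / 2) (ε : ℝ) (hε : 0 < ε) (κ : ℝ)
    (hκ : 0 < κ) (hε1 : 2 * ε ≤ δ ^ 2 / 64) (hε2 : 2 * ε ≤ κ * δ / 4) (n d : ℕ) (hn : 1 ≤ n)
    (B A : Finset (Perm (Fin n))) (hB : B.Nonempty)
    (hBc : (B.card : ℝ) ≤ (n.factorial : ℝ) ^ (1 - δ)) (J : Finset (Fin n))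
    (a0 : Perm (Fin n)) (ha0 : a0 ∈ A)
    (hmax : ∀ a ∈ A, (∀ i ∈ J, a i = a0 i) → ∀ J1 : Finset (Fin n), Disjoint J J1 →
        Real.exp (Real.log A.card / (2 * n)) ^ J1.card * cnt A (J ∪ J1) a ≤ cnt A J a0)
    (hM : 64 / δ ^ 2 * n ≤ Real.log A.card) (hd : d = (Jᶜ.image a0).card)
    (hdn : δ * n / 2 ≤ d) (hd2 : 1 < d)
    (han1 : (d : ℝ) * Real.log (n.factorial : ℝ) ≤
      (1 + δ / 8) * (n * Real.log (d.factorial : ℝ)))
    (han2 : δ / 4 * Real.log (n.factorial : ℝ) ≤ d * Real.log d)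
    (hlogd : 0 < Real.log (d.factorial : ℝ))
    (hnbig : 2 * Real.exp (-ε * n) < (δ / 8) ^ 2)
    (hff : ∀ U : Finset (Perm {i // i ∈ Jᶜ.image a0}), (U.card : ℝ) ≤
      (d.factorial : ℝ) ^ (1 - δ / 4) → ∀ c' : Perm {i // i ∈ Jᶜ.image a0},
      ((univ.filter (fun i => c' i = i)).card : ℝ) ≤ δ / 8 * d →
      ∑ π : Perm {i // i ∈ Jᶜ.image a0}, (stay U c' π : ℝ) ≤ U.card * (d.factorial *
        Real.exp (-κ * (d * Real.log d)))) :
    ∃ σ : Perm (Fin n), Perm.sign σ = 1 ∧
      (B.card : ℝ) * (A.card : ℝ) ^ ε ≤ ((B * A.image (fun y => σ * y * σ⁻¹)).card : ℝ) := by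
  classical
  by_contra hcon
  push Not at hcon
  set D := Jᶜ.image a0 with hDdef
  set M := Real.log A.card with hMdef
  have hn0 : (0 : ℝ) < n := by exact_mod_cast hn
  have hApos : 0 < A.card := card_pos.2 ⟨a0, ha0⟩
  have hAr : (0 : ℝ) < A.card := by exact_mod_cast hApos
  have hAexp : (A.card : ℝ) = Real.exp M := by rw [hMdef, Real.exp_log hAr]
  have hBr : (0 : ℝ) < B.card := by exact_mod_cast card_pos.2 hB
  have hfb : (0 : ℝ) < (n.factorial : ℝ) * B.card :=
    mul_pos (by exact_mod_cast Nat.factorial_pos n) hBr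
  have hM1 : n ≤ M := by
    refine le_trans ?_ hM
    have h2 : 1 ≤ 64 / δ ^ 2 := by
      rw [le_div_iff₀ (by positivity)]
      nlinarith
    nlinarith
  have hM0 : 0 < M := lt_of_lt_of_le hn0 hM1
  have hMfac : M ≤ Real.log (n.factorial : ℝ) := by
    rw [hMdef]
    apply Real.log_le_log hAr
    have h2 : A.card ≤ Fintype.card (Perm (Fin n)) := card_le_univ A
    rw [Fintype.card_perm, Fintype.card_fin] at h2
    exact_mod_cast h2
  set K := Real.exp (M / (2 * n)) with hK
  have hK1 : 1 ≤ K := Real.one_le_exp (by positivity)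
  set A' := A.filter (fun a => ∀ i ∈ J, a i = a0 i) with hA'
  have hA'card : cnt A J a0 = A'.card := by
    rw [cnt, hA']
    congr
  have ha0A' : a0 ∈ A' := by
    rw [hA', mem_filter]
    exact ⟨ha0, fun i _ => rfl⟩
  have hA'pos : 0 < A'.card := card_pos.2 ⟨a0, ha0A'⟩
  have hA'r : (0 : ℝ) < A'.card := by exact_mod_cast hA'pos
  set t := (1 - δ / 4) * Real.log (D.card.factorial : ℝ) with ht
  have htd : t = (1 - δ / 4) * Real.log (d.factorial : ℝ) := by rw [ht, hd]
  have ht0 : 0 < t := by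
    rw [htd]
    apply mul_pos (by linarith) hlogd
  -- the sum of the sizes of the good parts
  have hsum : δ / 4 * ((n.factorial : ℝ) * B.card) ≤ ∑ σ : Perm (Fin n),
      ((good B D t σ).card : ℝ) := by
    have h2 := good_sum B D t ht0.le
    rw [Fintype.card_fin, ← hd, htd] at h2
    have h3 : Real.log B.card ≤ (1 - δ) * Real.log (n.factorial : ℝ) := by
      rw [← Real.log_rpow (by exact_mod_cast Nat.factorial_pos n)]
      exact Real.log_le_log hBr hBc
    rw [htd]
    exact arith1 n d n.factorial B.card _ _ _ _ δ hn0 (Nat.cast_nonneg d)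
      (by exact_mod_cast Nat.factorial_pos n) hBr h0 h1 h2 h3 han1 hlogd
  have hpar := parity D (by rw [← hd]; exact hd2) (fun σ => ((good B D t σ).card : ℝ))
    (fun σ π hπ => by rw [good_mul B D t σ π hπ])
  set S := (univ : Finset (Perm (Fin n))).filter (fun σ => Perm.sign σ = 1) with hS
  have hScard : (S.card : ℝ) ≤ n.factorial := by
    have h2 : S.card ≤ Fintype.card (Perm (Fin n)) := card_le_univ S
    rw [Fintype.card_perm, Fintype.card_fin] at h2
    exact_mod_cast h2
  -- the energy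
  have hen := energy S (good B D t) A' (B.card * (A.card : ℝ) ^ ε) (by
    intro σ hσ
    have h2 := hcon σ (mem_filter.1 hσ).2
    refine le_trans ?_ h2.le
    have h3 : good B D t σ * A'.image (fun y => σ * y * σ⁻¹) ⊆
        B * A.image (fun y => σ * y * σ⁻¹) :=
      mul_subset_mul (filter_subset _ _) (image_subset_image (filter_subset _ _))
    exact_mod_cast card_le_card h3)
  set θ := Real.exp (-κ * (d * Real.log d)) with hθ
  have hθ0 : 0 < θ := Real.exp_pos _
  -- bound for one pair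
  have hfixD : ∀ a ∈ A', ∀ a' ∈ A', ∀ i, i ∉ D → (a * a'⁻¹) i = i := by
    intro a ha a' ha' i hi
    have hi' : a0⁻¹ i ∈ J := by
      by_contra h
      apply hi
      rw [hDdef, mem_image]
      exact ⟨a0⁻¹ i, by simpa using h, by simp⟩
    have h2 := (mem_filter.1 ha).2 _ hi'
    have h3 := (mem_filter.1 ha').2 _ hi'
    have h4 : a0 (a0⁻¹ i) = i := by simp
    rw [h4] at h2 h3
    have h5 : a'⁻¹ i = a0⁻¹ i := by
      rw [Perm.inv_eq_iff_eq]
      exact h3.symm
    rw [Perm.mul_apply, h5, h2]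
  have hpair1 : ∀ c : Perm (Fin n), ∑ σ : Perm (Fin n), (stay (good B D t σ) c σ : ℝ) ≤
      n.factorial * B.card := by
    intro c
    have h2 : ∀ σ ∈ (univ : Finset (Perm (Fin n))), (stay (good B D t σ) c σ : ℝ) ≤ B.card := by
      intro σ _
      have h3 : stay (good B D t σ) c σ ≤ B.card :=
        le_trans (card_filter_le _ _) (card_filter_le _ _)
      exact_mod_cast h3
    refine le_trans (sum_le_sum h2) ?_
    rw [sum_const, card_univ, Fintype.card_perm, Fintype.card_fin, nsmul_eq_mul]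
  have hpair2 : ∀ a ∈ A', ∀ a' ∈ A', ((Jᶜ.filter (fun j => a' j = a j)).card : ℝ) < δ / 8 * d →
      ∑ σ : Perm (Fin n), (stay (good B D t σ) (a * a'⁻¹) σ : ℝ) ≤
        n.factorial * (B.card * θ) := by
    intro a ha a' ha' hlt
    have h2 := transfer D B (good B D t) (fun σ => filter_subset _ _)
      (fun σ π hπ => good_mul B D t σ π hπ) (a * a'⁻¹) (hfixD a ha a' ha') θ hθ0.le
      ((d.factorial : ℝ) ^ (1 - δ / 4)) (by
        intro σ x hx
        have h3 := good_class B D (1 - δ / 4) σ x hx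
        rw [← hd] at h3
        rw [htd]
        exact h3) (by
        intro U hU c' hc'
        rw [← hd]
        refine hff U hU c' ?_
        refine le_trans ?_ hlt.le
        have h4 : (univ.filter (fun i : {i // i ∈ D} => c' i = i)).card ≤
            (Jᶜ.filter (fun j => a' j = a j)).card := by
          refine card_le_card_of_injOn (fun i => a'⁻¹ i.1) ?_ ?_
          · intro i hi
            have hi1 : c' i = i := (mem_filter.1 (mem_coe.1 hi)).2
            have hi2 : (a * a'⁻¹) i.1 = i.1 := by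
              rw [← hc', Perm.ofSubtype_apply_coe, hi1]
            refine mem_coe.2 (mem_filter.2 ⟨?_, ?_⟩)
            · rw [mem_compl]
              intro hJ
              have hJ' : a'⁻¹ i.1 ∈ J := hJ
              obtain ⟨k, hk, hk'⟩ := mem_image.1 i.2
              have h5 := (mem_filter.1 ha').2 _ hJ'
              have h6 : a' (a'⁻¹ i.1) = i.1 := by simp
              rw [h6, ← hk'] at h5
              have h7 : k = a'⁻¹ i.1 := by
                rw [← hk']
                exact a0.injective h5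
              rw [mem_compl] at hk
              apply hk
              rw [h7]
              exact hJ'
            · have h6 : a' (a'⁻¹ i.1) = i.1 := by simp
              rw [h6]
              exact hi2.symm
          · intro i _ j _ hij
            exact Subtype.ext (a'⁻¹.injective hij)
        exact_mod_cast h4)
    rwa [Fintype.card_fin] at h2
  -- close pairs
  set lam := δ ^ 2 / 64 with hlam
  have hclose : ∀ a ∈ A', (((A'.filter (fun a' =>
      ¬ ((Jᶜ.filter (fun j => a' j = a j)).card : ℝ) < δ / 8 * d)).card : ℕ) : ℝ) ≤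
      A'.card * Real.exp (-lam * M) := by
    intro a ha
    have haA := (mem_filter.1 ha).1
    have haJ := (mem_filter.1 ha).2
    have h2 := agree_count A K hK1 J a0 hmax a haA haJ (δ / 8 * d)
    rw [Fintype.card_fin, hA'card] at h2
    have h3 : A'.filter (fun a' => ¬ ((Jᶜ.filter (fun j => a' j = a j)).card : ℝ) < δ / 8 * d) =
        A.filter (fun a' => (∀ i ∈ J, a' i = a0 i) ∧
          δ / 8 * d ≤ ((Jᶜ.filter (fun j => a' j = a j)).card : ℝ)) := by
      ext a'
      simp only [hA', mem_filter, not_lt]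
      tauto
    rw [h3]
    set X := (((A.filter (fun a' => (∀ i ∈ J, a' i = a0 i) ∧
      δ / 8 * d ≤ ((Jᶜ.filter (fun j => a' j = a j)).card : ℝ))).card : ℕ) : ℝ) with hX
    have hX0 : 0 ≤ X := Nat.cast_nonneg _
    have h4 : Real.exp (2 * lam * M) ≤ K ^ (δ / 8 * d) := by
      rw [hK, ← Real.exp_mul]
      apply Real.exp_le_exp.2
      have h5 : M / (2 * n) * (δ / 8 * (δ * n / 2)) ≤ M / (2 * n) * (δ / 8 * d) := by gcongr
      have h6 : M / (2 * n) * (δ / 8 * (δ * n / 2)) = 2 * lam * M := by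
        rw [hlam]
        field_simp
        ring
      linarith
    have h5 : (2 : ℝ) ^ n ≤ Real.exp (lam * M) := by
      calc (2 : ℝ) ^ n ≤ Real.exp 1 ^ n := by
            have := Real.add_one_le_exp (1 : ℝ)
            gcongr
            linarith
        _ = Real.exp n := by rw [← Real.exp_nat_mul, mul_one]
        _ ≤ Real.exp (lam * M) := by
            apply Real.exp_le_exp.2
            have h6 : lam * (64 / δ ^ 2 * n) ≤ lam * M := by
              apply mul_le_mul_of_nonneg_left hM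
              positivity
            have h7 : lam * (64 / δ ^ 2 * n) = n := by
              rw [hlam]
              field_simp
            linarith
    have h2' : K ^ (δ / 8 * d) * X ≤ 2 ^ n * A'.card := by
      rw [hX]
      convert h2
    exact arith2 _ X _ _ M lam hX0 hA'r.le h4 h2' h5
  -- total
  have htot := total_bound A' (good B D t) S
    (fun a a' => ((Jᶜ.filter (fun j => a' j = a j)).card : ℝ) < δ / 8 * d)
    (n.factorial * B.card) θ (Real.exp (-lam * M)) hfb.le hθ0.le hpair1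
    (fun y hy y' hy' h => by
      rw [mul_assoc]
      exact hpair2 y hy y' hy' h) hclose
  -- conclusion
  have hbig : δ / 8 * ((n.factorial : ℝ) * B.card) ≤ ∑ σ ∈ S, ((good B D t σ).card : ℝ) := by
    linarith
  have hE0 : 0 ≤ Real.exp (-lam * M) + θ := add_nonneg (Real.exp_pos _).le hθ0.le
  have hAε : (A.card : ℝ) ^ ε = Real.exp (ε * M) := by
    rw [hAexp, ← Real.exp_mul, mul_comm]
  have hfin := arith3 δ n.factorial B.card A'.card ((A.card : ℝ) ^ ε)
    (Real.exp (-lam * M) + θ) S.card _ _ h0 (by exact_mod_cast Nat.factorial_pos n) hBr hA'r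
    (by rw [hAε]; exact (Real.exp_pos _).le) (Nat.cast_nonneg _) hScard hE0 hbig hen htot
  rw [hAε] at hfin
  have hsm := arith4 ε lam M n θ κ δ _ _ hε hκ h0 hM0 hM1 hMfac hε1 hε2 han2 hθ
  linarith

end LargeAux

open LargeAux in
theorem large_case (δ : ℝ) (h0 : 0 < δ) (h1 : δ ≤ 1 / 2) : ∃ C : ℝ, ∃ ε : ℝ, 0 < ε ∧ ∃ n1 : ℕ,
    ∀ n : ℕ, n1 ≤ n →
    ∀ B : Finset (Perm (Fin n)), B.Nonempty → (B.card : ℝ) ≤ (n.factorial : ℝ) ^ (1 - δ) →
    ∀ A : Finset (Perm (Fin n)), C * n ≤ Real.log A.card →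
    ∃ σ : Perm (Fin n), Perm.sign σ = 1 ∧
      (B.card : ℝ) * (A.card : ℝ) ^ ε ≤ ((B * A.image (fun y => σ * y * σ⁻¹)).card : ℝ) := by
  classical
  obtain ⟨ε1, hε1, m1, hsmall⟩ := small_support δ h0 h1
  obtain ⟨κ, hκ, d0, hfew⟩ := few_fixed (δ / 4) (by positivity)
  set ε := min (ε1 / 2) (min (δ ^ 2 / 64 / 2) (κ * δ / 4 / 2)) with hε
  have hεpos : 0 < ε := by positivity
  have hεa : ε ≤ ε1 / 2 := min_le_left _ _
  have hεb : 2 * ε ≤ δ ^ 2 / 64 := by
    have : ε ≤ δ ^ 2 / 64 / 2 := le_trans (min_le_right _ _) (min_le_left _ _)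
    linarith
  have hεc : 2 * ε ≤ κ * δ / 4 := by
    have : ε ≤ κ * δ / 4 / 2 := le_trans (min_le_right _ _) (min_le_right _ _)
    linarith
  obtain ⟨m2, han⟩ := analytic δ h0 h1 (max 2 d0)
  obtain ⟨m3, hm3⟩ := exists_nat_gt (Real.log (2 / (δ / 8) ^ 2) / ε)
  refine ⟨64 / δ ^ 2, ε, hεpos, max m1 (max m2 (max m3 1)), ?_⟩
  intro n hn B hB hBc A hM
  have hnm1 : m1 ≤ n := le_trans (le_max_left _ _) hn
  have hnm2 : m2 ≤ n := le_trans (le_trans (le_max_left _ _) (le_max_right _ _)) hn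
  have hnm3 : m3 ≤ n :=
    le_trans (le_trans (le_trans (le_max_left _ _) (le_max_right _ _)) (le_max_right _ _)) hn
  have hn1 : 1 ≤ n :=
    le_trans (le_trans (le_trans (le_max_right _ _) (le_max_right _ _)) (le_max_right _ _)) hn
  have hn0 : (0 : ℝ) < n := by exact_mod_cast hn1
  set M := Real.log A.card with hMdef
  have hM0 : 0 < M := by
    have : 0 < 64 / δ ^ 2 * n := by positivity
    linarith
  have hAne : A.Nonempty := by
    rw [← card_pos]
    by_contra h
    have h2 : A.card = 0 := by omega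
    rw [hMdef, h2, Nat.cast_zero, Real.log_zero] at hM0
    exact lt_irrefl _ hM0
  have hAr : (0 : ℝ) < A.card := by exact_mod_cast card_pos.2 hAne
  set K := Real.exp (M / (2 * n)) with hK
  have hK1 : 1 ≤ K := Real.one_le_exp (by positivity)
  obtain ⟨J, a0, ha0, hmaxA, hmax⟩ := exists_max A hAne K (Real.exp_pos _)
  set D := Jᶜ.image a0 with hD
  by_cases hDc : D.card ≤ ⌊δ * n / 2⌋₊
  · -- small support
    set A' := A.filter (fun a => ∀ i ∈ J, a i = a0 i) with hA'
    have hA'card : cnt A J a0 = A'.card := by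
      rw [cnt, hA']
      congr
    obtain ⟨σ, hσ, hgrow⟩ := hsmall n hnm1 B hB hBc D hDc (A'.image (fun a => a * a0⁻¹)) (by
      intro y hy i hi
      obtain ⟨a, ha, rfl⟩ := mem_image.1 hy
      have hi' : a0⁻¹ i ∈ J := by
        by_contra h
        apply hi
        rw [hD, mem_image]
        exact ⟨a0⁻¹ i, by simpa using h, by simp⟩
      have h2 := (mem_filter.1 ha).2 _ hi'
      rw [Perm.mul_apply, h2]
      simp)
    refine ⟨σ, hσ, ?_⟩
    have h2 := card_shift B A A' (filter_subset _ _) a0 σ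
    have h3 : (A'.image (fun a => a * a0⁻¹)).card = A'.card :=
      card_image_of_injective _ (mul_left_injective _)
    rw [h3] at hgrow
    have h4 : Real.exp (M / 2) ≤ (A'.card : ℝ) := by
      rw [hA'card] at hmaxA
      have h5 : K ^ J.card ≤ Real.exp (M / 2) := by
        have h6 : J.card ≤ n := by
          have := card_le_univ J
          rwa [Fintype.card_fin] at this
        calc K ^ J.card ≤ K ^ n := pow_le_pow_right₀ hK1 h6
          _ = Real.exp (M / 2) := by
              rw [hK, ← Real.exp_nat_mul]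
              congr 1
              field_simp
      have h6 : Real.exp M ≤ Real.exp (M / 2) * A'.card := by
        calc Real.exp M = A.card := by rw [hMdef, Real.exp_log hAr]
          _ ≤ K ^ J.card * A'.card := hmaxA
          _ ≤ Real.exp (M / 2) * A'.card := by gcongr
      have h7 : Real.exp M = Real.exp (M / 2) * Real.exp (M / 2) := by
        rw [← Real.exp_add]
        congr 1
        ring
      rw [h7] at h6
      exact le_of_mul_le_mul_left h6 (Real.exp_pos _)
    calc (B.card : ℝ) * (A.card : ℝ) ^ ε ≤ B.card * (A'.card : ℝ) ^ ε1 := by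
          apply mul_le_mul_of_nonneg_left _ (by positivity)
          calc (A.card : ℝ) ^ ε = Real.exp (ε * M) := by
                rw [mul_comm, Real.exp_mul, hMdef, Real.exp_log hAr]
            _ ≤ Real.exp (M / 2 * ε1) := by
                apply Real.exp_le_exp.2
                nlinarith
            _ = Real.exp (M / 2) ^ ε1 := Real.exp_mul _ _
            _ ≤ (A'.card : ℝ) ^ ε1 := Real.rpow_le_rpow (Real.exp_pos _).le h4 hε1.le
      _ ≤ _ := hgrow
      _ ≤ _ := by exact_mod_cast h2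
  · -- large support
    push Not at hDc
    have hdn : δ * n / 2 ≤ D.card := by
      have h2 := Nat.lt_of_floor_lt hDc
      exact h2.le
    have hdle : D.card ≤ n := by
      have := card_le_univ D
      rwa [Fintype.card_fin] at this
    obtain ⟨hd1, hdL, hnL, han1, han2, hlogd⟩ := han n hnm2 D.card hdle hdn
    have hd2 : (2 : ℝ) ≤ D.card := le_trans (le_max_left _ _) hdL
    have hd2' : 2 ≤ D.card := by exact_mod_cast hd2
    have hd0 : (d0 : ℝ) ≤ D.card := le_trans (le_max_right _ _) hdL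
    have hd0' : d0 ≤ D.card := by exact_mod_cast hd0
    refine large_support δ h0 h1 ε hεpos κ hκ hεb hεc n D.card hn1 B A hB hBc J a0 ha0 hmax hM rfl
      hdn (by omega) han1 han2 ?_ ?_ ?_
    · apply Real.log_pos
      have : 2 ≤ D.card.factorial := le_trans hd2' (Nat.self_le_factorial _)
      have h2 : (2 : ℝ) ≤ D.card.factorial := by exact_mod_cast this
      linarith
    · have h2 : Real.log (2 / (δ / 8) ^ 2) / ε < n := by
        refine lt_of_lt_of_le hm3 ?_
        exact_mod_cast hnm3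
      rw [div_lt_iff₀ hεpos, Real.log_lt_iff_lt_exp (by positivity), div_lt_iff₀ (by positivity)]
        at h2
      have h3 : Real.exp (-ε * n) * Real.exp (n * ε) = 1 := by
        rw [← Real.exp_add]
        have : -ε * n + n * ε = 0 := by ring
        rw [this, Real.exp_zero]
      have h4 : 0 < Real.exp (-ε * n) := Real.exp_pos _
      calc 2 * Real.exp (-ε * n) < (Real.exp (n * ε) * (δ / 8) ^ 2) * Real.exp (-ε * n) :=
            mul_lt_mul_of_pos_right h2 h4
        _ = (Real.exp (-ε * n) * Real.exp (n * ε)) * (δ / 8) ^ 2 := by ring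
        _ = (δ / 8) ^ 2 := by rw [h3, one_mul]
    · intro U hU c' hc'
      have hcard : Fintype.card {i // i ∈ Jᶜ.image a0} = D.card := Fintype.card_coe _
      have h2 := hfew {i // i ∈ Jᶜ.image a0} (by rw [hcard]; exact hd0') U
        (by rw [hcard]; exact hU) c' (by
          rw [hcard]
          refine le_trans hc' (le_of_eq ?_)
          ring)
      rw [hcard] at h2
      rw [← mul_assoc]
      exact h2

end Pool.Agent.MP_f20ab1_al
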