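import Pool.Agent.MP_f20ab1_al.Heavy
import Pool.Agent.MP_f20ab1_al.Decoder

set_option linter.unusedVariables false
set_option linter.unusedSectionVars false

open Equiv Finset
open scoped Pointwise

/-!
Growth when all elements of `A` are supported in a set of at most `δ n / 2` points.
-/

namespace Pool.Agent.MP_f20ab1_al

section General

variable {α : Type*} [Fintype α] [DecidableEq α]

theorem cnt_congr (B : Finset (Perm α)) (T : Finset α) (x z : Perm α) (h : ∀ i ∈ T, z i = x i) :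
    cnt B T z = cnt B T x := by
  unfold cnt
  congr 1
  apply filter_congr
  intro x' _
  exact ⟨fun h' i hi => (h' i hi).trans (h i hi), fun h' i hi => (h' i hi).trans (h i hi).symm⟩

theorem cntv_congr (B : Finset (Perm α)) (T : Finset α) (x z : Perm α) (h : ∀ i ∈ T, z i = x i)
    (i v : α) : cntv B T z i v = cntv B T x i v := by
  unfold cntv
  congr 1
  apply filter_congr
  intro x' _
  exact ⟨fun h' => ⟨fun i hi => (h'.1 i hi).trans (h i hi), h'.2⟩,
    fun h' => ⟨fun i hi => (h'.1 i hi).trans (h i hi).symm, h'.2⟩⟩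

theorem heavyPos_congr (B : Finset (Perm α)) (T : Finset α) (θ : ℝ) (x z : Perm α)
    (h : ∀ i ∈ T, z i = x i) (v : α) : heavyPos B T θ z v = heavyPos B T θ x v := by
  unfold heavyPos
  simp only [cnt_congr B T x z h, cntv_congr B T x z h]

theorem cntv_self (B : Finset (Perm α)) (T : Finset α) (x : Perm α) (i : α) :
    cntv B T x i (x i) = cnt B (insert i T) x := by
  unfold cntv cnt
  congr 1
  apply filter_congr
  intro x' _
  simp only [mem_insert, forall_eq_or_imp]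
  tauto

theorem mem_heavyPos_self (B : Finset (Perm α)) (T : Finset α) (θ : ℝ) (x : Perm α) (i : α) :
    i ∈ heavyPos B T θ x (x i) ↔ i ∉ T ∧ Heavy B T θ x i := by
  unfold heavyPos Heavy
  simp only [mem_filter, mem_sdiff, mem_univ, true_and, cntv_self]

open Classical in
theorem sum_false_le (B : Finset (Perm α)) (E : Finset α) (θ : ℝ) (hθ : 0 < θ) (x : Perm α)
    (hx : x ∈ B) (a a' : α) (ha : a ∉ E) (ha' : a' ∉ E) (hne : a' ≠ a) :
    ((Fintype.card α : ℝ) - (E.card + 1)) * ∑ σ : Perm α,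
      (if σ a' ∈ heavyPos B (E.image σ) θ x (x (σ a)) then (1:ℝ) else 0) ≤
    (Fintype.card α).factorial * θ⁻¹ := by
  have h := one_step (insert a E) a' (by simp [hne, ha'])
    (fun σ v => if v ∈ heavyPos B (E.image σ) θ x (x (σ a)) then (1:ℝ) else 0) (by
      intro σ σ' h v
      have h1 : E.image σ = E.image σ' := by
        apply image_congr
        intro e he
        exact h e (mem_insert_of_mem he)
      simp only [h1, h a (mem_insert_self _ _)])
  rw [card_insert_of_notMem ha] at h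
  push_cast at h
  rw [h]
  calc _ ≤ ∑ σ : Perm α, θ⁻¹ := by
        refine sum_le_sum (fun σ _ => ?_)
        refine le_trans ?_ (card_heavyPos_le B (E.image σ) θ hθ x (cnt_pos hx) (x (σ a)))
        rw [card_eq_sum_ones, Nat.cast_sum, sum_boole]
        simp only [Nat.cast_one, sum_const, nsmul_eq_mul, mul_one]
        exact_mod_cast card_le_card (fun v hv => (mem_filter.1 hv).2)
    _ = _ := by
        rw [sum_const, card_univ, Fintype.card_perm, nsmul_eq_mul]

end General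

section Gain

variable {n : ℕ}

/-- the function measuring the gain at an entry of conditional probability `t` -/
noncomputable def gfun (lam t : ℝ) : ℝ := Real.log ((1 + lam) / (1 + lam * t))

theorem gain_ineq (lam ν r ξ : ℝ) (hlam : 0 ≤ lam) (hν : 0 ≤ ν) (hr : 0 ≤ r)
    (hξ : ξ = 0 ∨ ξ = 1) :
    ξ * gfun lam ν - lam * r ≤ Real.log (1 + lam * ξ) - Real.log (1 + lam * (ν * ξ + r)) := by
  have h1 : Real.log (1 + lam * (ν * ξ + r)) ≤ Real.log (1 + lam * (ν * ξ)) + lam * r := by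
    have hξ0 : 0 ≤ ξ := by rcases hξ with h | h <;> rw [h]; norm_num
    have h2 : 0 ≤ lam * (ν * ξ) := by positivity
    have h3 : 0 ≤ lam * r := by positivity
    have h4 : 1 + lam * (ν * ξ + r) ≤ (1 + lam * (ν * ξ)) * (1 + lam * r) := by nlinarith
    have h5 : Real.log (1 + lam * r) ≤ lam * r := by
      have := Real.log_le_sub_one_of_pos (show 0 < 1 + lam * r by positivity)
      linarith
    calc Real.log (1 + lam * (ν * ξ + r)) ≤ Real.log ((1 + lam * (ν * ξ)) * (1 + lam * r)) :=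
          Real.log_le_log (by nlinarith) h4
      _ = Real.log (1 + lam * (ν * ξ)) + Real.log (1 + lam * r) :=
          Real.log_mul (by positivity) (by positivity)
      _ ≤ _ := by linarith
  rcases hξ with h | h
  · subst h
    simp only [mul_zero, add_zero, Real.log_one, zero_mul] at h1 ⊢
    linarith
  · subst h
    simp only [mul_one, one_mul] at h1 ⊢
    rw [gfun, Real.log_div (by positivity) (by positivity)]
    linarith

open Classical in
/-- indicator of the test for the entry `σ a` against the value `v` -/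
noncomputable def tst (B : Finset (Perm (Fin n))) (E : Finset (Fin n)) (θ : ℝ)
    (σ x : Perm (Fin n)) (a v : Fin n) : ℝ :=
  if σ a ∈ heavyPos B (E.image σ) θ x v then 1 else 0

theorem tst_zero_or_one (B : Finset (Perm (Fin n))) (E : Finset (Fin n)) (θ : ℝ)
    (σ x : Perm (Fin n)) (a v : Fin n) : tst B E θ σ x a v = 0 ∨ tst B E θ σ x a v = 1 := by
  unfold tst; split_ifs <;> simp

theorem tst_nonneg (B : Finset (Perm (Fin n))) (E : Finset (Fin n)) (θ : ℝ)
    (σ x : Perm (Fin n)) (a v : Fin n) : 0 ≤ tst B E θ σ x a v := by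
  unfold tst; split_ifs <;> norm_num

/-- the weight of the decoder -/
noncomputable def wtz (B : Finset (Perm (Fin n))) (E : Finset (Fin n)) (θ lam : ℝ)
    (σ z : Perm (Fin n)) (j a : Fin n) : ℝ :=
  1 + lam * tst B E θ σ z a (z (σ j))

/-- the rate of false positives -/
noncomputable def rr (A B : Finset (Perm (Fin n))) (E : Finset (Fin n)) (θ : ℝ)
    (σ x y : Perm (Fin n)) (j : Fin n) : ℝ :=
  (∑ y' ∈ A.filter (fun y' => ag j.val y' y ∧ y' j ≠ y j), tst B E θ σ x (y' j) (x (σ (y j)))) /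
    cnt A (Tk n j.val) y

theorem gain_step (A B : Finset (Perm (Fin n))) (D E : Finset (Fin n))
    (hA : ∀ y ∈ A, ∀ i, i ∉ D → y i = i) (hE : ∀ e ∈ E, e ∉ D) (θ lam : ℝ) (hlam : 0 ≤ lam)
    (σ x y : Perm (Fin n)) (hx : x ∈ B) (hy : y ∈ A) (j : Fin n) :
    tst B E θ σ x (y j) (x (σ (y j))) * gfun lam (nu A j y) - lam * rr A B E θ σ x y j ≤
      Real.log (wtz B E θ lam σ (x * (σ * y * σ⁻¹)) j (y j)) -
        Real.log (Zw A (wtz B E θ lam σ (x * (σ * y * σ⁻¹))) j y) := by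
  set z := x * (σ * y * σ⁻¹) with hz
  have hzj : z (σ j) = x (σ (y j)) := by simp [hz]
  have hzT : ∀ i ∈ E.image σ, z i = x i := by
    intro i hi
    obtain ⟨e, he, rfl⟩ := mem_image.1 hi
    simp [hz, hA y hy e (hE e he)]
  have htst : ∀ a, tst B E θ σ z a (z (σ j)) = tst B E θ σ x a (x (σ (y j))) := by
    intro a
    unfold tst
    rw [hzj, heavyPos_congr B (E.image σ) θ x z hzT]
  have hcpos : (0:ℝ) < cnt A (Tk n j.val) y := by exact_mod_cast cnt_pos hy
  set ξ := tst B E θ σ x (y j) (x (σ (y j))) with hξ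
  have hZ : Zw A (wtz B E θ lam σ z) j y =
      1 + lam * (nu A j y * ξ + rr A B E θ σ x y j) := by
    unfold Zw
    rw [← cnt_Tk]
    have h1 : ∑ y' ∈ A.filter (fun y' => ag j.val y' y), wtz B E θ lam σ z j (y' j) =
        (cnt A (Tk n j.val) y : ℝ) + lam * ∑ y' ∈ A.filter (fun y' => ag j.val y' y),
          tst B E θ σ x (y' j) (x (σ (y j))) := by
      unfold wtz
      simp only [htst]
      rw [sum_add_distrib, sum_const, nsmul_eq_mul, mul_one, ← cnt_Tk, mul_sum]
    have h2 : ∑ y' ∈ A.filter (fun y' => ag j.val y' y),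
          tst B E θ σ x (y' j) (x (σ (y j))) =
        (cnt A (Tk n (j.val + 1)) y : ℝ) * ξ +
          ∑ y' ∈ A.filter (fun y' => ag j.val y' y ∧ y' j ≠ y j),
            tst B E θ σ x (y' j) (x (σ (y j))) := by
      rw [← sum_filter_add_sum_filter_not (A.filter (fun y' => ag j.val y' y))
        (fun y' => y' j = y j), filter_filter, filter_filter]
      congr 1
      rw [cnt_Tk_succ]
      rw [sum_congr rfl (g := fun _ => ξ) (fun y' hy' => by
        rw [(mem_filter.1 hy').2.2]), sum_const, nsmul_eq_mul]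
    rw [h1, h2, rr, nu]
    field_simp
  rw [hZ]
  have h3 : wtz B E θ lam σ z j (y j) = 1 + lam * ξ := by
    unfold wtz
    rw [htst]
  rw [h3]
  refine gain_ineq lam (nu A j y) _ ξ hlam (nu_pos hy j).le ?_ (tst_zero_or_one _ _ _ _ _ _ _)
  exact div_nonneg (sum_nonneg (fun _ _ => tst_nonneg _ _ _ _ _ _ _)) hcpos.le

theorem gfun_one (lam : ℝ) (hlam : 0 ≤ lam) : gfun lam 1 = 0 := by
  unfold gfun
  rw [mul_one, div_self (by positivity), Real.log_one]

theorem gfun_lower (lam t : ℝ) (hlam : 1 ≤ lam) (ht0 : 0 ≤ t) (ht : t ≤ 1) :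
    (1 - t) / 2 ≤ gfun lam t := by
  unfold gfun
  have h1 : 0 < 1 + lam * t := by nlinarith
  have h2 : 0 < 1 + lam := by linarith
  have h3 := Real.log_le_sub_one_of_pos (x := (1 + lam * t) / (1 + lam)) (by positivity)
  have h4 : Real.log ((1 + lam) / (1 + lam * t)) = - Real.log ((1 + lam * t) / (1 + lam)) := by
    rw [← Real.log_inv, inv_div]
  rw [h4]
  have h5 : 1 - (1 + lam * t) / (1 + lam) = lam / (1 + lam) * (1 - t) := by
    field_simp
    ring
  have h6 : (1:ℝ) / 2 ≤ lam / (1 + lam) := by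
    rw [div_le_div_iff₀ (by norm_num) h2]; linarith
  nlinarith [mul_le_mul_of_nonneg_right h6 (sub_nonneg.2 ht)]

theorem gfun_nonneg (lam t : ℝ) (hlam : 1 ≤ lam) (ht0 : 0 ≤ t) (ht : t ≤ 1) :
    0 ≤ gfun lam t :=
  le_trans (by linarith) (gfun_lower lam t hlam ht0 ht)

theorem maps_D {A : Finset (Perm (Fin n))} {D : Finset (Fin n)}
    (hA : ∀ y ∈ A, ∀ i, i ∉ D → y i = i) {y : Perm (Fin n)} (hy : y ∈ A) {j : Fin n}
    (hj : j ∈ D) : y j ∈ D := by
  by_contra h
  have h1 := hA y hy (y j) h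
  have h2 := y.injective h1
  rw [h2] at h
  exact h hj

theorem rr_sum_le (A B : Finset (Perm (Fin n))) (D E : Finset (Fin n))
    (hA : ∀ y ∈ A, ∀ i, i ∉ D → y i = i) (hE : ∀ e ∈ E, e ∉ D) (θ : ℝ) (hθ : 0 < θ)
    (hcard : E.card + 1 < n) (x y : Perm (Fin n)) (hx : x ∈ B) (hy : y ∈ A) (j : Fin n)
    (hj : j ∈ D) :
    ∑ σ : Perm (Fin n), rr A B E θ σ x y j ≤
      n.factorial * ((1 - nu A j y) * (θ⁻¹ / ((n:ℝ) - (E.card + 1)))) := by
  classical
  have hcpos : (0:ℝ) < cnt A (Tk n j.val) y := by exact_mod_cast cnt_pos hy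
  have hn : (0:ℝ) < (n:ℝ) - (E.card + 1) := by
    have : ((E.card + 1 : ℕ) : ℝ) < n := by exact_mod_cast hcard
    push_cast at this
    linarith
  unfold rr
  rw [← sum_div, sum_comm, div_le_iff₀ hcpos]
  have h1 : ∀ y' ∈ A.filter (fun y' => ag j.val y' y ∧ y' j ≠ y j),
      ∑ σ : Perm (Fin n), tst B E θ σ x (y' j) (x (σ (y j))) ≤
        n.factorial * (θ⁻¹ / ((n:ℝ) - (E.card + 1))) := by
    intro y' hy'
    obtain ⟨h2, h3, h4⟩ := mem_filter.1 hy'
    have h5 := sum_false_le B E θ hθ x hx (y j) (y' j)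
      (fun h => hE _ h (maps_D hA hy hj)) (fun h => hE _ h (maps_D hA h2 hj)) h4
    rw [Fintype.card_fin] at h5
    rw [← mul_div_assoc, le_div_iff₀ hn, mul_comm]
    exact h5
  refine (sum_le_sum h1).trans ?_
  rw [sum_const, nsmul_eq_mul]
  have h2 : ((A.filter (fun y' => ag j.val y' y ∧ y' j ≠ y j)).card : ℝ) =
      (1 - nu A j y) * cnt A (Tk n j.val) y := by
    rw [nu, sub_mul, one_mul, div_mul_cancel₀ _ hcpos.ne', cnt_Tk_succ, cnt_Tk]
    rw [← card_filter_add_card_filter_not (s := A.filter (fun y' => ag j.val y' y))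
      (fun y' => y' j = y j), filter_filter, filter_filter]
    push_cast
    ring
  rw [h2]
  apply le_of_eq
  ring

theorem tst_sum_ge (B : Finset (Perm (Fin n))) (E : Finset (Fin n)) (θ m : ℝ)
    (a : Fin n) (ha : a ∉ E)
    (hm : m ≤ ∑ σ : Perm (Fin n), (by classical exact ((B.filter (fun x =>
      Heavy B (E.image σ) θ x (σ a))).card : ℝ))) :
    m ≤ ∑ σ : Perm (Fin n), ∑ x ∈ B, tst B E θ σ x a (x (σ a)) := by
  classical
  refine hm.trans (le_of_eq ?_)
  refine sum_congr rfl (fun σ _ => ?_)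
  unfold tst
  rw [sum_boole]
  congr 2
  apply filter_congr
  intro x _
  rw [mem_heavyPos_self]
  have h1 : σ a ∉ E.image σ := by
    intro h
    obtain ⟨e, he, h2⟩ := mem_image.1 h
    exact ha (σ.injective h2 ▸ he)
  tauto

theorem nu_eq_one {A : Finset (Perm (Fin n))} {D : Finset (Fin n)}
    (hA : ∀ y ∈ A, ∀ i, i ∉ D → y i = i) {y : Perm (Fin n)} (hy : y ∈ A) {j : Fin n}
    (hj : j ∉ D) : nu A j y = 1 := by
  have h1 : cnt A (Tk n (j.val + 1)) y = cnt A (Tk n j.val) y := by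
    rw [cnt_Tk_succ, cnt_Tk]
    congr 1
    apply filter_congr
    intro y' hy'
    rw [hA y' hy' j hj, hA y hy j hj]
    simp
  have h2 : (0:ℝ) < cnt A (Tk n j.val) y := by exact_mod_cast cnt_pos hy
  rw [nu, h1, div_self h2.ne']

theorem rr_eq_zero {A : Finset (Perm (Fin n))} {D : Finset (Fin n)}
    (hA : ∀ y ∈ A, ∀ i, i ∉ D → y i = i) (B : Finset (Perm (Fin n))) (E : Finset (Fin n))
    (θ : ℝ) (σ x : Perm (Fin n)) {y : Perm (Fin n)} (hy : y ∈ A) {j : Fin n}
    (hj : j ∉ D) : rr A B E θ σ x y j = 0 := by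
  unfold rr
  rw [filter_false_of_mem, sum_empty, zero_div]
  intro y' hy' h
  exact h.2 (by rw [hA y' hy' j hj, hA y hy j hj])

theorem total_gain (A B : Finset (Perm (Fin n))) (D E : Finset (Fin n)) (hB : B.Nonempty)
    (hAne : A.Nonempty)
    (hA : ∀ y ∈ A, ∀ i, i ∉ D → y i = i) (hE : ∀ e ∈ E, e ∉ D) (θ lam m : ℝ) (hθ : 0 < θ)
    (hlam : 1 ≤ lam) (hm0 : 0 ≤ m) (hcard : E.card + 1 < n)
    (hm : ∀ a, a ∉ E → m * (n.factorial * B.card) ≤
      ∑ σ : Perm (Fin n), (by classical exact ((B.filter (fun x =>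
      Heavy B (E.image σ) θ x (σ a))).card : ℝ)))
    (hsmall : lam * (θ⁻¹ / ((n:ℝ) - (E.card + 1))) ≤ m / 4) :
    ∃ σ : Perm (Fin n), m / 2 * ∑ y ∈ A, ∑ j, gfun lam (nu A j y) ≤
      A.card * (Real.log (B * A.image (fun y => σ * y * σ⁻¹)).card - Real.log B.card) := by
  have hlam0 : 0 ≤ lam := by linarith
  have hbc : (0:ℝ) < B.card := by exact_mod_cast hB.card_pos
  have hfac : (0:ℝ) < n.factorial := by exact_mod_cast n.factorial_pos
  -- one label
  have h1 : ∀ y ∈ A, ∀ j : Fin n, n.factorial * B.card * (m / 2 * gfun lam (nu A j y)) ≤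
      ∑ σ : Perm (Fin n), ∑ x ∈ B, (tst B E θ σ x (y j) (x (σ (y j))) * gfun lam (nu A j y)
        - lam * rr A B E θ σ x y j) := by
    intro y hy j
    have hg0 := gfun_nonneg lam (nu A j y) hlam (nu_pos hy j).le (nu_le_one hy j)
    by_cases hj : j ∈ D
    · have h2 := tst_sum_ge B E θ _ (y j) (fun h => hE _ h (maps_D hA hy hj))
        (hm (y j) (fun h => hE _ h (maps_D hA hy hj)))
      have h3 : ∑ σ : Perm (Fin n), ∑ x ∈ B, rr A B E θ σ x y j ≤
          B.card * (n.factorial * ((1 - nu A j y) * (θ⁻¹ / ((n:ℝ) - (E.card + 1))))) := by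
        rw [sum_comm]
        have := sum_le_sum (fun x hx => rr_sum_le A B D E hA hE θ hθ hcard x y hx hy j hj)
          (s := B)
        refine this.trans (le_of_eq ?_)
        rw [sum_const, nsmul_eq_mul]
      have h4 : ∑ σ : Perm (Fin n), ∑ x ∈ B,
          (tst B E θ σ x (y j) (x (σ (y j))) * gfun lam (nu A j y)
            - lam * rr A B E θ σ x y j) =
          (∑ σ : Perm (Fin n), ∑ x ∈ B, tst B E θ σ x (y j) (x (σ (y j)))) *
            gfun lam (nu A j y) - lam * ∑ σ : Perm (Fin n), ∑ x ∈ B, rr A B E θ σ x y j := by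
        simp only [sum_sub_distrib, sum_mul, mul_sum]
      rw [h4]
      have h5 := mul_le_mul_of_nonneg_right h2 hg0
      have h6 := mul_le_mul_of_nonneg_left h3 hlam0
      have h7 := gfun_lower lam (nu A j y) hlam (nu_pos hy j).le (nu_le_one hy j)
      have h8 : lam * (B.card * (n.factorial * ((1 - nu A j y) *
          (θ⁻¹ / ((n:ℝ) - (E.card + 1)))))) ≤
          n.factorial * B.card * (m / 2 * gfun lam (nu A j y)) := by
        have h9 : lam * (B.card * (n.factorial * ((1 - nu A j y) *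
            (θ⁻¹ / ((n:ℝ) - (E.card + 1)))))) =
            n.factorial * B.card * ((1 - nu A j y) *
            (lam * (θ⁻¹ / ((n:ℝ) - (E.card + 1))))) := by ring
        rw [h9]
        refine mul_le_mul_of_nonneg_left ?_ (by positivity)
        have h10 : 0 ≤ 1 - nu A j y := sub_nonneg.2 (nu_le_one hy j)
        calc (1 - nu A j y) * (lam * (θ⁻¹ / ((n:ℝ) - (E.card + 1))))
            ≤ (1 - nu A j y) * (m / 4) := mul_le_mul_of_nonneg_left hsmall h10
          _ ≤ m / 2 * gfun lam (nu A j y) := by nlinarith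
      nlinarith
    · rw [nu_eq_one hA hy hj, gfun_one lam hlam0, mul_zero, mul_zero]
      refine sum_nonneg (fun σ _ => sum_nonneg (fun x _ => ?_))
      rw [rr_eq_zero hA B E θ σ x hy hj]
      simp
  by_contra hcon
  push Not at hcon
  have h2 : ∑ σ : Perm (Fin n), ∑ x ∈ B, ∑ y ∈ A, ∑ j : Fin n,
      (tst B E θ σ x (y j) (x (σ (y j))) * gfun lam (nu A j y) - lam * rr A B E θ σ x y j) ≤
      ∑ σ : Perm (Fin n), (B.card * A.card *
        (Real.log (B * A.image (fun y => σ * y * σ⁻¹)).card - Real.log B.card) : ℝ) := by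
    refine sum_le_sum (fun σ _ => ?_)
    refine le_trans ?_ (log_growth B A hB hAne σ (wtz B E θ lam σ) (fun z j a => ?_))
    · exact sum_le_sum (fun x hx => sum_le_sum (fun y hy => sum_le_sum (fun j _ =>
        gain_step A B D E hA hE θ lam hlam0 σ x y hx hy j)))
    · have := tst_nonneg B E θ σ z a (z (σ j))
      unfold wtz
      positivity
  have h3 : n.factorial * B.card * (m / 2 * ∑ y ∈ A, ∑ j, gfun lam (nu A j y)) ≤
      ∑ σ : Perm (Fin n), ∑ x ∈ B, ∑ y ∈ A, ∑ j : Fin n,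
      (tst B E θ σ x (y j) (x (σ (y j))) * gfun lam (nu A j y) - lam * rr A B E θ σ x y j) := by
    calc _ = ∑ y ∈ A, ∑ j, n.factorial * B.card * (m / 2 * gfun lam (nu A j y)) := by
          simp only [mul_sum]
      _ ≤ ∑ y ∈ A, ∑ j : Fin n, ∑ σ : Perm (Fin n), ∑ x ∈ B,
          (tst B E θ σ x (y j) (x (σ (y j))) * gfun lam (nu A j y)
            - lam * rr A B E θ σ x y j) :=
          sum_le_sum (fun y hy => sum_le_sum (fun j _ => h1 y hy j))
      _ = _ := by
          rw [sum_congr rfl (fun y _ => sum_comm), sum_comm]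
          refine sum_congr rfl (fun σ _ => ?_)
          rw [sum_congr rfl (fun y _ => sum_comm), sum_comm]
  have h4 : ∑ σ : Perm (Fin n), (B.card * A.card *
        (Real.log (B * A.image (fun y => σ * y * σ⁻¹)).card - Real.log B.card) : ℝ) <
      ∑ σ : Perm (Fin n), B.card * (m / 2 * ∑ y ∈ A, ∑ j, gfun lam (nu A j y)) := by
    refine sum_lt_sum_of_nonempty univ_nonempty (fun σ _ => ?_)
    rw [mul_assoc]
    exact mul_lt_mul_of_pos_left (hcon σ) hbc
  rw [sum_const, card_univ, Fintype.card_perm, Fintype.card_fin, nsmul_eq_mul] at h4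
  linarith

theorem gfun_pointwise (lam c N t : ℝ) (hlam : 1 ≤ lam) (hc0 : 0 < c) (hc1 : c ≤ 1)
    (hN : 1 < N) (h : 1 + lam * (N ^ 6)⁻¹ ≤ (1 + lam) * ((N ^ 6)⁻¹) ^ c) (ht0 : 0 < t)
    (ht : t ≤ 1) : c * (Real.log t⁻¹ - 2 * (N ^ 3)⁻¹ * t⁻¹) ≤ gfun lam t := by
  have hN0 : 0 < N := by linarith
  set t0 : ℝ := (N ^ 6)⁻¹ with ht0def
  have ht0pos : 0 < t0 := by positivity
  have ht0lt : t0 < 1 := by
    rw [ht0def]
    exact inv_lt_one_of_one_lt₀ (one_lt_pow₀ hN (by norm_num))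
  rcases le_or_gt t0 t with h1 | h1
  · -- concavity
    have h2 : 1 + lam * t ≤ (1 + lam) * t ^ c := by
      have hs : 0 < 1 - t0 := by linarith
      set s : ℝ := (t - t0) / (1 - t0) with hsdef
      have hs0 : 0 ≤ s := div_nonneg (by linarith) hs.le
      have hs1 : s ≤ 1 := by rw [hsdef, div_le_one hs]; linarith
      have hts : t = (1 - s) * t0 + s * 1 := by
        rw [hsdef]; field_simp; ring
      have h3 := (Real.concaveOn_rpow hc0.le hc1).2 (show t0 ∈ Set.Ici (0:ℝ) from ht0pos.le)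
        (show (1:ℝ) ∈ Set.Ici (0:ℝ) from Set.mem_Ici.2 zero_le_one) (sub_nonneg.2 hs1) hs0 (by ring)
      simp only [smul_eq_mul, Real.one_rpow] at h3
      rw [← hts] at h3
      have h4 := mul_le_mul_of_nonneg_left h3 (show 0 ≤ 1 + lam by linarith)
      have h5 := mul_le_mul_of_nonneg_left h (sub_nonneg.2 hs1)
      nlinarith
    have h3 : c * Real.log t⁻¹ ≤ gfun lam t := by
      unfold gfun
      rw [Real.log_div (by positivity) (by positivity), Real.log_inv]
      have h4 := Real.log_le_log (by positivity) h2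
      rw [Real.log_mul (by positivity) (by positivity), Real.log_rpow ht0] at h4
      linarith
    have h4 : 0 ≤ c * (2 * (N ^ 3)⁻¹ * t⁻¹) := by positivity
    linarith
  · have h2 : Real.log t⁻¹ ≤ 2 * (N ^ 3)⁻¹ * t⁻¹ := by
      have h3 : Real.log t⁻¹ = 2 * Real.log (Real.sqrt t)⁻¹ := by
        rw [Real.log_inv, Real.log_inv, Real.log_sqrt ht0.le]; ring
      have h4 : Real.log (Real.sqrt t)⁻¹ ≤ (Real.sqrt t)⁻¹ :=
        Real.log_le_self (by positivity)
      have h5 : (Real.sqrt t)⁻¹ ≤ (N ^ 3)⁻¹ * t⁻¹ := by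
        have h6 : Real.sqrt t ≤ (N ^ 3)⁻¹ := by
          rw [show (N ^ 3)⁻¹ = Real.sqrt t0 from ?_]
          · exact Real.sqrt_le_sqrt h1.le
          · rw [ht0def, eq_comm, Real.sqrt_eq_iff_mul_self_eq (by positivity) (by positivity)]
            rw [← mul_inv]; congr 1; ring
        have hsp : 0 < Real.sqrt t := Real.sqrt_pos.2 ht0
        have h7 : (Real.sqrt t)⁻¹ = Real.sqrt t * t⁻¹ := by
          have : t⁻¹ = (Real.sqrt t)⁻¹ * (Real.sqrt t)⁻¹ := by
            rw [← mul_inv, Real.mul_self_sqrt ht0.le]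
          rw [this]
          field_simp
        rw [h7]
        exact mul_le_mul_of_nonneg_right h6 (by positivity)
      linarith
    have h3 := gfun_nonneg lam t hlam ht0.le ht
    nlinarith

theorem sum_gfun_ge (A : Finset (Perm (Fin n))) (lam c : ℝ) (hlam : 1 ≤ lam) (hc0 : 0 < c)
    (hc1 : c ≤ 1) (hn : 1 < n)
    (h : 1 + lam * ((n:ℝ) ^ 6)⁻¹ ≤ (1 + lam) * (((n:ℝ) ^ 6)⁻¹) ^ c) :
    c * (A.card * (Real.log A.card - 2 / n)) ≤ ∑ y ∈ A, ∑ j, gfun lam (nu A j y) := by
  have hn' : (1:ℝ) < n := by exact_mod_cast hn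
  have hn0 : (0:ℝ) < n := by linarith
  have h1 : ∀ y ∈ A, ∀ j : Fin n,
      c * (Real.log (nu A j y)⁻¹ - 2 * ((n:ℝ) ^ 3)⁻¹ * (nu A j y)⁻¹) ≤ gfun lam (nu A j y) :=
    fun y hy j => gfun_pointwise lam c n _ hlam hc0 hc1 hn' h (nu_pos hy j) (nu_le_one hy j)
  refine le_trans ?_ (sum_le_sum (fun y hy => sum_le_sum (fun j _ => h1 y hy j)))
  have h2 : ∑ y ∈ A, ∑ j : Fin n,
      c * (Real.log (nu A j y)⁻¹ - 2 * ((n:ℝ) ^ 3)⁻¹ * (nu A j y)⁻¹) =
      c * ((∑ y ∈ A, ∑ j : Fin n, Real.log (nu A j y)⁻¹) - 2 * ((n:ℝ) ^ 3)⁻¹ *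
        ∑ j : Fin n, ∑ y ∈ A, (nu A j y)⁻¹) := by
    rw [sum_comm (s := (univ : Finset (Fin n)))]
    simp only [mul_sum, sum_sub_distrib, mul_sub]
  rw [h2]
  refine mul_le_mul_of_nonneg_left ?_ hc0.le
  rw [sum_congr rfl (fun y hy => sum_log_nu hy), sum_const, nsmul_eq_mul, mul_sub]
  have h3 : ∑ j : Fin n, ∑ y ∈ A, (nu A j y)⁻¹ ≤ n * (n * A.card) := by
    refine (sum_le_sum (fun j _ => sum_nu_inv_le A j)).trans (le_of_eq ?_)
    rw [sum_const, card_univ, Fintype.card_fin, nsmul_eq_mul]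
  have h4 := mul_le_mul_of_nonneg_left h3 (show 0 ≤ 2 * ((n:ℝ) ^ 3)⁻¹ by positivity)
  have h5 : 2 * ((n:ℝ) ^ 3)⁻¹ * (n * (n * A.card)) = A.card * (2 / n) := by
    field_simp
  linarith

end Gain

theorem exists_bound (δ : ℝ) (h0 : 0 < δ) (h1 : δ ≤ 1 / 2) : ∃ n2 : ℕ, ∀ n : ℕ, n2 ≤ n →
    6 ≤ n ∧ 2 ≤ ⌊δ * n / 2⌋₊ ∧ δ * n / 4 ≤ (⌊δ * n / 2⌋₊ : ℝ) ∧
    2 * ((⌊δ * n / 2⌋₊ : ℝ) ^ (-(δ / 8))) ≤ δ / 32 ∧
    2 ≤ (δ / 4) ^ (δ / 8) * (n : ℝ) ^ (δ / 16) := by
  have hfl : Filter.Tendsto (fun n : ℕ => ⌊δ * n / 2⌋₊) Filter.atTop Filter.atTop := by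
    apply tendsto_nat_floor_atTop.comp
    apply Filter.Tendsto.atTop_div_const (by norm_num)
    exact Filter.Tendsto.const_mul_atTop h0 tendsto_natCast_atTop_atTop
  have hflr : Filter.Tendsto (fun n : ℕ => (⌊δ * n / 2⌋₊ : ℝ)) Filter.atTop Filter.atTop :=
    tendsto_natCast_atTop_atTop.comp hfl
  have e1 := hfl.eventually (Filter.eventually_ge_atTop 2)
  have e2 : ∀ᶠ n : ℕ in Filter.atTop, 2 * ((⌊δ * n / 2⌋₊ : ℝ) ^ (-(δ / 8))) ≤ δ / 32 := by
    have h2 : Filter.Tendsto (fun n : ℕ => 2 * ((⌊δ * n / 2⌋₊ : ℝ) ^ (-(δ / 8)))) Filter.atTop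
        (nhds (2 * 0)) :=
      ((tendsto_rpow_neg_atTop (by positivity)).comp hflr).const_mul 2
    rw [mul_zero] at h2
    exact (h2.eventually (Iio_mem_nhds (show 0 < δ / 32 by positivity))).mono
      (fun n hn => le_of_lt hn)
  have e3 : ∀ᶠ n : ℕ in Filter.atTop, 2 ≤ (δ / 4) ^ (δ / 8) * (n : ℝ) ^ (δ / 16) := by
    have h2 : Filter.Tendsto (fun n : ℕ => (δ / 4) ^ (δ / 8) * (n : ℝ) ^ (δ / 16)) Filter.atTop
        Filter.atTop :=
      Filter.Tendsto.const_mul_atTop (by positivity)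
        ((tendsto_rpow_atTop (by positivity)).comp tendsto_natCast_atTop_atTop)
    exact h2.eventually (Filter.eventually_ge_atTop 2)
  have e4 : ∀ᶠ n : ℕ in Filter.atTop, 4 ≤ δ * (n:ℝ) :=
    (Filter.Tendsto.const_mul_atTop h0 tendsto_natCast_atTop_atTop).eventually
      (Filter.eventually_ge_atTop 4)
  obtain ⟨n2, hn2⟩ := Filter.eventually_atTop.1
    (e1.and (e2.and (e3.and (e4.and (Filter.eventually_ge_atTop 6)))))
  refine ⟨n2, fun n hn => ?_⟩
  obtain ⟨a1, a2, a3, a4, a5⟩ := hn2 n hn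
  refine ⟨a5, a1, ?_, a2, a3⟩
  have := Nat.sub_one_lt_floor (δ * n / 2)
  linarith

theorem small_support (δ : ℝ) (h0 : 0 < δ) (h1 : δ ≤ 1 / 2) : ∃ ε : ℝ, 0 < ε ∧ ∃ n1 : ℕ,
    ∀ n : ℕ, n1 ≤ n →
    ∀ B : Finset (Perm (Fin n)), B.Nonempty → (B.card : ℝ) ≤ (n.factorial : ℝ) ^ (1 - δ) →
    ∀ D : Finset (Fin n), D.card ≤ ⌊δ * n / 2⌋₊ →
    ∀ A : Finset (Perm (Fin n)), (∀ y ∈ A, ∀ i, i ∉ D → y i = i) →
    ∃ σ : Perm (Fin n), Perm.sign σ = 1 ∧
      (B.card : ℝ) * (A.card : ℝ) ^ ε ≤ ((B * A.image (fun y => σ * y * σ⁻¹)).card : ℝ) := by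
  obtain ⟨n1, H1⟩ := heavy_count δ h0 h1
  obtain ⟨n2, H2⟩ := exists_bound δ h0 h1
  refine ⟨δ / 32 * (δ / 96), by positivity, max n1 n2, ?_⟩
  intro n hn B hB hBc D hD A hA
  obtain ⟨hn6, hN2, hNn, hNs, hNl⟩ := H2 n (le_trans (le_max_right _ _) hn)
  have H1' := H1 n (le_trans (le_max_left _ _) hn) B hB hBc
  set N0 : ℕ := ⌊δ * n / 2⌋₊ with hN0
  have hn0 : (0:ℝ) < n := by
    have : (6:ℝ) ≤ n := by exact_mod_cast hn6
    linarith
  have hbc : (0:ℝ) < B.card := by exact_mod_cast hB.card_pos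
  have hN0le : (N0 : ℝ) ≤ δ * n / 2 := Nat.floor_le (by positivity)
  have hN0le' : (N0 : ℝ) ≤ n / 4 := by nlinarith
  have hN0n : 4 * N0 ≤ n := by
    have : ((4 * N0 : ℕ) : ℝ) ≤ n := by push_cast; linarith
    exact_mod_cast this
  -- trivial cases
  rcases Nat.lt_or_ge A.card 2 with hA2 | hA2
  · refine ⟨1, Perm.sign_one, ?_⟩
    interval_cases hAc : A.card
    · rw [Nat.cast_zero, Real.zero_rpow (by positivity), mul_zero]
      positivity
    · rw [Nat.cast_one, Real.one_rpow, mul_one]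
      have hne : (A.image (fun y => (1 : Perm (Fin n)) * y * (1 : Perm (Fin n))⁻¹)).Nonempty :=
        (card_pos.1 (by omega)).image _
      exact_mod_cast card_le_card_mul_right hne
  have hAne : A.Nonempty := card_pos.1 (by omega)
  have hac : (2:ℝ) ≤ A.card := by exact_mod_cast hA2
  -- the set E
  have hDc : n - N0 ≤ (univ \ D).card := by
    rw [card_sdiff_of_subset (subset_univ _), card_univ, Fintype.card_fin]
    omega
  obtain ⟨E, hED, hEc⟩ := exists_subset_card_eq hDc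
  have hE : ∀ e ∈ E, e ∉ D := fun e he => (mem_sdiff.1 (hED he)).2
  have hEn : (n:ℝ) - (E.card + 1) = N0 - 1 := by
    rw [hEc, Nat.cast_sub (by omega)]; ring
  have hN0r : (2:ℝ) ≤ N0 := by exact_mod_cast hN2
  have hN0pos : (0:ℝ) < N0 := by linarith
  -- parameters
  set θ : ℝ := (N0 : ℝ) ^ (-(1 - δ / 4)) with hθdef
  set lam : ℝ := (N0 : ℝ) ^ (δ / 8) with hlamdef
  have hθ : 0 < θ := by positivity
  have hlam : 1 ≤ lam := Real.one_le_rpow (by linarith) (by positivity)
  have hsmall : lam * (θ⁻¹ / ((n:ℝ) - (E.card + 1))) ≤ δ / 8 / 4 := by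
    rw [hEn]
    have h2 : lam * (θ⁻¹ / ((N0:ℝ) - 1)) ≤ 2 * (N0:ℝ) ^ (-(δ / 8)) := by
      have h3 : θ⁻¹ = (N0:ℝ) ^ (1 - δ / 4) := by
        rw [hθdef, ← Real.rpow_neg hN0pos.le, neg_neg]
      have h4 : lam * θ⁻¹ = (N0:ℝ) ^ (-(δ / 8)) * N0 := by
        rw [h3, hlamdef, ← Real.rpow_add hN0pos]
        nth_rewrite 3 [← Real.rpow_one (N0:ℝ)]
        rw [← Real.rpow_add hN0pos]
        congr 1; ring
      rw [← mul_div_assoc, h4, div_le_iff₀ (by linarith)]
      have h5 : (0:ℝ) < (N0:ℝ) ^ (-(δ / 8)) := by positivity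
      nlinarith
    linarith
  obtain ⟨σ, hσ⟩ := total_gain A B D E hB hAne hA hE θ lam (δ / 8) hθ hlam (by positivity)
    (by omega) (fun a ha => by
      have := H1' E hEc a ha
      convert this using 4) hsmall
  have hcond : 1 + lam * ((n:ℝ) ^ 6)⁻¹ ≤ (1 + lam) * (((n:ℝ) ^ 6)⁻¹) ^ (δ / 96) := by
    have hlamn : lam ≤ n := by
      calc lam ≤ (N0:ℝ) ^ (1:ℝ) := Real.rpow_le_rpow_of_exponent_le (by linarith) (by linarith)
        _ = N0 := Real.rpow_one _
        _ ≤ n := by linarith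
    have h2 : lam * ((n:ℝ) ^ 6)⁻¹ ≤ 1 := by
      rw [← div_eq_mul_inv, div_le_one (by positivity)]
      have h6 : (6:ℝ) ≤ n := by exact_mod_cast hn6
      calc lam ≤ n := hlamn
        _ ≤ (n:ℝ) ^ 6 := le_self_pow₀ (by linarith) (by norm_num)
    have h3 : (((n:ℝ) ^ 6)⁻¹) ^ (δ / 96) = (n:ℝ) ^ (-(δ / 16)) := by
      rw [← Real.rpow_natCast, ← Real.rpow_neg hn0.le, ← Real.rpow_mul hn0.le]
      congr 1; push_cast; ring
    have h4 : (δ / 4) ^ (δ / 8) * (n:ℝ) ^ (δ / 8) ≤ lam := by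
      rw [← Real.mul_rpow (by positivity) hn0.le, hlamdef]
      refine Real.rpow_le_rpow (by positivity) ?_ (by positivity)
      linarith
    have h5 : (δ / 4) ^ (δ / 8) * (n:ℝ) ^ (δ / 16) ≤ lam * (n:ℝ) ^ (-(δ / 16)) := by
      have h6 := mul_le_mul_of_nonneg_right h4 (show 0 ≤ (n:ℝ) ^ (-(δ / 16)) by positivity)
      rw [mul_assoc, ← Real.rpow_add hn0] at h6
      have h7 : δ / 8 + -(δ / 16) = δ / 16 := by ring
      rwa [h7] at h6
    rw [h3]
    have h6 : (0:ℝ) ≤ (n:ℝ) ^ (-(δ / 16)) := by positivity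
    nlinarith
  have hsum := sum_gfun_ge A lam (δ / 96) hlam (by positivity) (by linarith) (by omega) hcond
  have hlogA : Real.log 2 ≤ Real.log A.card := Real.log_le_log (by norm_num) hac
  have hlog2 : (0.6931471803 : ℝ) < Real.log 2 := Real.log_two_gt_d9
  have h2n : 2 / (n:ℝ) ≤ 1 / 3 := by
    rw [div_le_div_iff₀ hn0 (by norm_num)]
    have h6 : (6:ℝ) ≤ n := by exact_mod_cast hn6
    linarith
  -- the growth for σ
  have hgrow : (B.card : ℝ) * (A.card : ℝ) ^ (δ / 32 * (δ / 96)) ≤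
      ((B * A.image (fun y => σ * y * σ⁻¹)).card : ℝ) := by
    have hZpos : (0:ℝ) < ((B * A.image (fun y => σ * y * σ⁻¹)).card : ℝ) := by
      exact_mod_cast (hB.mul (hAne.image _)).card_pos
    have h8 : δ / 8 / 2 * (δ / 96 * (A.card * (Real.log A.card - 2 / n))) ≤
        A.card * (Real.log (B * A.image (fun y => σ * y * σ⁻¹)).card - Real.log B.card) :=
      (mul_le_mul_of_nonneg_left hsum (by positivity)).trans hσ
    have h9 : δ / 8 / 2 * (δ / 96 * (Real.log A.card - 2 / n)) ≤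
        Real.log (B * A.image (fun y => σ * y * σ⁻¹)).card - Real.log B.card := by
      have hac0 : (0:ℝ) < A.card := by linarith
      have : (A.card : ℝ) * (δ / 8 / 2 * (δ / 96 * (Real.log A.card - 2 / n))) ≤
        A.card * (Real.log (B * A.image (fun y => σ * y * σ⁻¹)).card - Real.log B.card) := by
        refine le_trans (le_of_eq ?_) h8
        ring
      exact le_of_mul_le_mul_left this hac0
    have h10 : Real.log A.card / 2 ≤ Real.log A.card - 2 / n := by linarith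
    have h11 : δ / 32 * (δ / 96) * Real.log A.card ≤
        Real.log (B * A.image (fun y => σ * y * σ⁻¹)).card - Real.log B.card := by
      refine le_trans ?_ h9
      have : δ / 8 / 2 * (δ / 96 * (Real.log A.card / 2)) ≤
          δ / 8 / 2 * (δ / 96 * (Real.log A.card - 2 / n)) := by gcongr
      refine le_trans (le_of_eq ?_) this
      ring
    rw [← Real.log_le_log_iff (by positivity) hZpos, Real.log_mul hbc.ne' (by positivity),
      Real.log_rpow (by linarith)]
    linarith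
  -- parity
  rcases Int.units_eq_one_or (Perm.sign σ) with hs | hs
  · exact ⟨σ, hs, hgrow⟩
  · have hE2 : 1 < E.card := by omega
    obtain ⟨i, hi, j, hj, hij⟩ := one_lt_card.1 hE2
    refine ⟨σ * swap i j, by rw [Perm.sign_mul, hs, Perm.sign_swap hij]; rfl, ?_⟩
    have himg : A.image (fun y => σ * swap i j * y * (σ * swap i j)⁻¹) =
        A.image (fun y => σ * y * σ⁻¹) := by
      apply image_congr
      intro y hy
      have hc : swap i j * y = y * swap i j := by
        have h12 : y * swap i j * y⁻¹ = swap i j := by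
          rw [← Equiv.swap_apply_apply, hA y hy i (hE i hi), hA y hy j (hE j hj)]
        rw [mul_inv_eq_iff_eq_mul] at h12
        exact h12.symm
      simp only [mul_inv_rev, swap_inv]
      calc σ * swap i j * y * (swap i j * σ⁻¹) = σ * (swap i j * y) * swap i j * σ⁻¹ := by
            simp only [mul_assoc]
        _ = σ * y * σ⁻¹ := by
            rw [hc]
            simp [mul_assoc]
    rw [himg]
    exact hgrow

end Pool.Agent.MP_f20ab1_al
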